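import Pool.Agent.Lib_MP_0cf6e1_b.Shift

/-!
# Piece APPROX: transport along the forest
-/

set_option autoImplicit false

open scoped Classical

namespace Pool.Agent.BoolWidth

variable {V : Type}

/-- sum of the shifts along `i` steps of the parent map -/
noncomputable def off (A : V → V → Prop) (t : V → V → ℕ) (par : V → V) : ℕ → V → ℤ
  | 0, _ => 0
  | i + 1, u => off A t par i (par u) + (if A (par u) u then (t (par u) u : ℤ) else - (t u (par u) : ℤ))

/-- `i` steps of the parent map -/
def root (par : V → V) : ℕ → V → V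
  | 0, u => u
  | i + 1, u => root par i (par u)

private theorem approx_div (K k y f : ℕ) (hK : 0 < K) (hk : 16 * k ≤ K) (h : K * y ≤ 2 * k * f) : 8 * y ≤ f := by
  have h1 : K * (8 * y) ≤ K * f := by
    calc K * (8 * y) = 8 * (K * y) := by ring
      _ ≤ 8 * (2 * k * f) := Nat.mul_le_mul_left _ h
      _ = (16 * k) * f := by ring
      _ ≤ K * f := Nat.mul_le_mul_right _ hk
  exact Nat.le_of_mul_le_mul_left h1 hK

/-- By induction on `dep u`: `K |(F z + off) Δ F u| ≤ 2 (dep u) |F z|`. Step from `v = par u` (`dep v ≤ n - 1`): `|F v| ≤ |F z| + |F z| / 8`; from `Good` along the arc between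
`v` and `u` (in the direction `(u, v)` use `sh_symm_neg`) `K |(F v ± t) Δ F u| ≤ max(|F v|, |F u|)`, and `|F u| ≤ |F v| + max / K` so `max ≤ (9/8)(32/31) |F z| ≤ 2 |F z|`. -/
theorem approx (A : V → V → Prop) (t : V → V → ℕ) (F : V → Finset ℤ) (K n : ℕ) (hK : 32 ≤ K) (hn : 16 * n ≤ K)
    (W Z : Finset V) (dep : V → ℕ) (par : V → V)
    (hf : ∀ u ∈ W, dep u ≤ n ∧ (dep u = 0 ↔ u ∈ Z) ∧
      (dep u ≠ 0 → par u ∈ W ∧ dep (par u) + 1 = dep u ∧ Adj A (par u) u))
    (hF : ∀ u ∈ W, (F u).Nonempty) (hgood : ∀ u ∈ W, ∀ v ∈ W, A u v → Good t F K u v) (u : V) (hu : u ∈ W) :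
    root par (dep u) u ∈ Z ∧
      8 * (symmDiff (sh (F (root par (dep u) u)) (off A t par (dep u) u)) (F u)).card ≤ (F (root par (dep u) u)).card := by
  have _ := hF
  have main : ∀ k : ℕ, ∀ u ∈ W, dep u = k → root par k u ∈ Z ∧
      K * (symmDiff (sh (F (root par k u)) (off A t par k u)) (F u)).card ≤ 2 * k * (F (root par k u)).card := by
    intro k
    induction k with
    | zero =>
      intro u hu hd
      refine ⟨((hf u hu).2.1).mp hd, ?_⟩
      simp only [root, off, sh_zero, symmDiff_self, Finset.bot_eq_empty, Finset.card_empty, mul_zero, zero_mul,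
        le_refl]
    | succ k ih =>
      intro u hu hd
      obtain ⟨hn1, _, h2⟩ := hf u hu
      obtain ⟨hv, hdv, hadj⟩ := h2 (by omega)
      have hdk : dep (par u) = k := by omega
      obtain ⟨hz, hI⟩ := ih (par u) hv hdk
      refine ⟨hz, ?_⟩
      have hk : 16 * k ≤ K := by omega
      have hgo : K * (symmDiff (sh (F (par u)) (if A (par u) u then (t (par u) u : ℤ) else - (t u (par u) : ℤ)))
          (F u)).card ≤ max (F (par u)).card (F u).card := by
        by_cases hA : A (par u) u
        · rw [if_pos hA]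
          exact hgood _ hv _ hu hA
        · rw [if_neg hA, sh_symm_neg, symmDiff_comm, max_comm]
          rcases hadj with h | h
          · exact absurd h hA
          · exact hgood _ hu _ hv h
      simp only [root, off]
      rw [← sh_sh]
      have htri := symm_tri (sh (sh (F (root par k (par u))) (off A t par k (par u)))
        (if A (par u) u then (t (par u) u : ℤ) else - (t u (par u) : ℤ)))
        (sh (F (par u)) (if A (par u) u then (t (par u) u : ℤ) else - (t u (par u) : ℤ))) (F u)
      rw [sh_symm] at htri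
      have hc1 := card_le_symm (F (par u)) (sh (F (root par k (par u))) (off A t par k (par u)))
      rw [sh_card, symmDiff_comm] at hc1
      have hc2 := card_le_symm (F u)
        (sh (F (par u)) (if A (par u) u then (t (par u) u : ℤ) else - (t u (par u) : ℤ)))
      rw [sh_card, symmDiff_comm] at hc2
      generalize (symmDiff (sh (sh (F (root par k (par u))) (off A t par k (par u)))
        (if A (par u) u then (t (par u) u : ℤ) else - (t u (par u) : ℤ))) (F u)).card = w at htri ⊢
      generalize (symmDiff (sh (F (root par k (par u))) (off A t par k (par u))) (F (par u))).card = y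
        at htri hc1 hI
      generalize (symmDiff (sh (F (par u)) (if A (par u) u then (t (par u) u : ℤ) else - (t u (par u) : ℤ)))
          (F u)).card = x at htri hc2 hgo
      generalize (F (par u)).card = fv at hc1 hc2 hgo
      generalize (F u).card = fu at hc2 hgo
      generalize (F (root par k (par u))).card = fz at hc1 hI ⊢
      have h8 : 8 * y ≤ fz := approx_div K k y fz (by omega) hk hI
      have h32 : 32 * x ≤ K * x := Nat.mul_le_mul_right _ hK
      have hmax : max fv fu ≤ fv + x := max_le (by omega) (by omega)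
      have hx : K * x ≤ 2 * fz := by omega
      calc K * w ≤ K * (y + x) := Nat.mul_le_mul_left _ htri
        _ = K * y + K * x := Nat.mul_add _ _ _
        _ ≤ 2 * k * fz + 2 * fz := Nat.add_le_add hI hx
        _ = 2 * (k + 1) * fz := by ring
  obtain ⟨hz, h2⟩ := main (dep u) u hu rfl
  refine ⟨hz, approx_div K (dep u) _ _ (by omega) ?_ h2⟩
  have := (hf u hu).1
  omega

/-- With `A' = F z + off` (for `u`), `B'` (for `v`), `c = |A'|`, `c' = |B'|`: `|F v| ≤ 9/8 c'`, `|F u| ≤ (32/31)(9/8) c'`, `c ≤ (8/7) |F u|`,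
`|B' \ (A' + t)| ≤ c'/8 + max(|F u|, |F v|)/K + c/8 ≤ c'/2`. Statement for arbitrary sets. -/
theorem good_shift (A' B' Fu Fv : Finset ℤ) (a : ℤ) (K : ℕ) (hK : 32 ≤ K) (h1 : 8 * (symmDiff A' Fu).card ≤ A'.card)
    (h2 : 8 * (symmDiff B' Fv).card ≤ B'.card) (h3 : K * (symmDiff (sh Fu a) Fv).card ≤ max Fu.card Fv.card) :
    B'.card ≤ 2 * (sh A' a ∩ B').card := by
  have e1 := symm_inter (sh A' a) B'
  rw [sh_card] at e1
  have e2 := symm_tri (sh A' a) (sh Fu a) B'
  rw [sh_symm] at e2
  have e3 := symm_tri (sh Fu a) Fv B'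
  rw [symmDiff_comm Fv B'] at e3
  have e4 := card_le_symm Fu A'
  rw [symmDiff_comm Fu A'] at e4
  have e5 := card_le_symm B' Fv
  have e6 := card_le_symm Fv (sh Fu a)
  rw [sh_card, symmDiff_comm Fv (sh Fu a)] at e6
  have h32 : 32 * (symmDiff (sh Fu a) Fv).card ≤ K * (symmDiff (sh Fu a) Fv).card := Nat.mul_le_mul_right _ hK
  have hmax : max Fu.card Fv.card ≤ Fu.card + (symmDiff (sh Fu a) Fv).card := max_le (by omega) (by omega)
  omega

end Pool.Agent.BoolWidth
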