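import Pool.Agent.Lib_MP_0cf6e1_b.Defs

/-!
# Piece CWALK: counting connected sets
-/

set_option autoImplicit false

open scoped Classical

namespace Pool.Agent.BoolWidth

variable {V : Type}

private theorem cwalk_adj_symm (A : V → V → Prop) {u v : V} (h : Adj A u v) : Adj A v u :=
  Or.symm h

private theorem cwalk_aux (A : V → V → Prop) (W : Finset V) (hW : W.Nonempty)
    (hc : ∀ S ⊆ W, S.Nonempty → S ≠ W → ∃ u ∈ S, ∃ v ∈ W \ S, Adj A u v) (i : ℕ) :
    1 ≤ i → i ≤ W.card → ∃ l : List V, l.IsChain (Adj A) ∧ l.toFinset ⊆ W ∧
      l.toFinset.card = i ∧ l.length = 2 * i - 1 := by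
  induction i with
  | zero => intro h; omega
  | succ i ih =>
    intro _ h2
    by_cases hi : i = 0
    · subst hi
      obtain ⟨w, hw⟩ := hW
      refine ⟨[w], by simp, ?_, by simp, by simp⟩
      intro x hx
      simp at hx
      rw [hx]; exact hw
    · obtain ⟨l, hl1, hl2, hl3, hl4⟩ := ih (by omega) (by omega)
      have hne : l.toFinset.Nonempty := by
        rw [← Finset.card_pos, hl3]; omega
      have hneW : l.toFinset ≠ W := by
        intro h; rw [h] at hl3; omega
      obtain ⟨u, hu, v, hv, huv⟩ := hc _ hl2 hne hneW
      rw [Finset.mem_sdiff] at hv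
      have hul : u ∈ l := List.mem_toFinset.1 hu
      obtain ⟨l1, l2, rfl⟩ := List.append_of_mem hul
      refine ⟨l1 ++ u :: v :: u :: l2, ?_, ?_, ?_, ?_⟩
      · rw [List.isChain_split] at hl1 ⊢
        refine ⟨hl1.1, ?_⟩
        rw [List.isChain_cons_cons, List.isChain_cons_cons]
        exact ⟨huv, cwalk_adj_symm A huv, hl1.2⟩
      · intro x hx
        simp only [List.mem_toFinset, List.mem_append, List.mem_cons] at hx
        rcases hx with h | h | h | h | h
        · exact hl2 (by simp [h])
        · exact hl2 (by simp [h])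
        · rw [h]; exact hv.1
        · exact hl2 (by simp [h])
        · exact hl2 (by simp [h])
      · have : (l1 ++ u :: v :: u :: l2).toFinset = insert v (l1 ++ u :: l2).toFinset := by
          ext x
          simp only [List.mem_toFinset, List.mem_append, List.mem_cons, Finset.mem_insert]
          tauto
        rw [this, Finset.card_insert_of_notMem hv.2, hl3]
      · simp only [List.length_append, List.length_cons] at hl4 ⊢
        omega

/-- for every `i ≤ |W|`, `i ≥ 1`, there is a list of length `2 i - 1` which is a chain, whose set has `i` elements and lies in `W`: if `S` is the set of the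
list `l`, `S ≠ W`, there are `u ∈ S`, `v ∈ W \ S` adjacent; `l = l1 ++ u :: l2`, take `l1 ++ u :: v :: u :: l2`. -/
theorem conn_list (A : V → V → Prop) (W : Finset V) (hW : W.Nonempty)
    (hc : ∀ S ⊆ W, S.Nonempty → S ≠ W → ∃ u ∈ S, ∃ v ∈ W \ S, Adj A u v) :
    ∃ l : List V, l.IsChain (Adj A) ∧ l.toFinset = W ∧ l.length = 2 * W.card - 1 := by
  obtain ⟨l, h1, h2, h3, h4⟩ := cwalk_aux A W hW hc W.card
    (Finset.card_pos.2 hW) le_rfl
  exact ⟨l, h1, Finset.eq_of_subset_of_card_le h2 h3.ge, h4⟩

private noncomputable def cwalkExt [Fintype V] (E : V → V → Prop) : List V → Finset (List V)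
  | [] => ∅
  | u :: t => (Finset.univ.filter (fun v => Adj E v u)).image (fun v => v :: u :: t)

private noncomputable def cwalkChains [Fintype V] (E : V → V → Prop) : ℕ → Finset (List V)
  | 0 => Finset.univ.image (fun v : V => [v])
  | k + 1 => (cwalkChains E k).biUnion (cwalkExt E)

private theorem cwalkExt_card [Fintype V] (E : V → V → Prop) (d : ℕ) (hd : DegLE E d)
    (l : List V) : (cwalkExt E l).card ≤ 2 * d := by
  cases l with
  | nil => simp [cwalkExt]
  | cons u t =>
    simp only [cwalkExt]
    refine le_trans Finset.card_image_le ?_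
    have h1 : Finset.univ.filter (fun v => Adj E v u) ⊆
        Finset.univ.filter (fun v => E v u) ∪ Finset.univ.filter (fun v => E u v) := by
      intro v hv
      simp only [Finset.mem_filter, Finset.mem_univ, true_and, Finset.mem_union] at hv ⊢
      exact hv
    refine le_trans (Finset.card_le_card h1) (le_trans (Finset.card_union_le _ _) ?_)
    have h2 := hd.2 u (Finset.univ.filter (fun v => E v u)) (by intro x hx; simpa using hx)
    have h3 := hd.1 u (Finset.univ.filter (fun v => E u v)) (by intro x hx; simpa using hx)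
    omega

private theorem cwalkChains_card [Fintype V] (E : V → V → Prop) (d : ℕ) (hd : DegLE E d)
    (k : ℕ) : (cwalkChains E k).card ≤ Fintype.card V * (2 * d) ^ k := by
  induction k with
  | zero =>
    simp only [cwalkChains, pow_zero, mul_one]
    exact le_trans Finset.card_image_le (le_of_eq Finset.card_univ)
  | succ k ih =>
    simp only [cwalkChains]
    refine le_trans (Finset.card_biUnion_le_card_mul _ _ (2 * d)
      (fun l _ => cwalkExt_card E d hd l)) ?_
    calc (cwalkChains E k).card * (2 * d) ≤ Fintype.card V * (2 * d) ^ k * (2 * d) :=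
          Nat.mul_le_mul_right _ ih
      _ = Fintype.card V * (2 * d) ^ (k + 1) := by rw [pow_succ, mul_assoc]

private theorem cwalkChains_mem [Fintype V] (E : V → V → Prop) (k : ℕ) (l : List V)
    (hl : l.IsChain (Adj E)) (hk : l.length = k + 1) : l ∈ cwalkChains E k := by
  induction k generalizing l with
  | zero =>
    obtain ⟨v, rfl⟩ := List.length_eq_one_iff.1 (by simpa using hk)
    simp [cwalkChains]
  | succ k ih =>
    match l, hl, hk with
    | [], _, hk => simp at hk
    | [_], _, hk => simp at hk
    | v :: u :: t, hl, hk =>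
      rw [List.isChain_cons_cons] at hl
      simp only [cwalkChains, Finset.mem_biUnion]
      refine ⟨u :: t, ih (u :: t) hl.2 (by simpa using hk), ?_⟩
      simp only [cwalkExt, Finset.mem_image, Finset.mem_filter, Finset.mem_univ, true_and]
      exact ⟨v, hl.1, rfl⟩

/-- `W` is determined by the list; there are at most `|V| (2 d)^k` chains of length `k + 1`. -/
theorem count_conn [Fintype V] (E : V → V → Prop) (d : ℕ) (hd1 : 1 ≤ d) (hd : DegLE E d) (m : ℕ) (hm : 1 ≤ m) :
    ((Finset.univ : Finset (Finset V)).filter (fun W => ∃ l : List V, l.IsChain (Adj E) ∧ l.toFinset = W ∧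
      l.length = 2 * m - 1)).card ≤ Fintype.card V * (2 * d) ^ (2 * m) := by
  have h1 : (Finset.univ : Finset (Finset V)).filter (fun W => ∃ l : List V,
      l.IsChain (Adj E) ∧ l.toFinset = W ∧ l.length = 2 * m - 1) ⊆
      (cwalkChains E (2 * m - 2)).image (fun l => l.toFinset) := by
    intro W hW
    simp only [Finset.mem_filter, Finset.mem_univ, true_and] at hW
    obtain ⟨l, hl, hl2, hl3⟩ := hW
    simp only [Finset.mem_image]
    exact ⟨l, cwalkChains_mem E _ l hl (by omega), hl2⟩
  refine le_trans (Finset.card_le_card h1) (le_trans Finset.card_image_le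
    (le_trans (cwalkChains_card E d hd _) ?_))
  exact Nat.mul_le_mul_left _ (Nat.pow_le_pow_right (by omega) (by omega))

end Pool.Agent.BoolWidth
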