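import Pool.Agent.Lib_MP_0cf6e1_b.Defs

/-!
# Piece PI: counting functions with restricted values
-/

set_option autoImplicit false

open scoped Classical

namespace Pool.Agent.BoolWidth

/-- The functions are grouped by their restriction to the complement of `J`; in one group the values on `J` lie in fixed sets of size `≤ b`. -/
theorem pi_count {ι κ : Type} [Fintype ι] [Fintype κ] (J : Finset ι) (S : (ι → κ) → ι → Finset κ)
    (hS : ∀ f g : ι → κ, (∀ i, i ∉ J → f i = g i) → ∀ i ∈ J, S f i = S g i) (b : ℕ) (hb : ∀ f, ∀ i ∈ J, (S f i).card ≤ b) :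
    ((Finset.univ : Finset (ι → κ)).filter (fun f => ∀ i ∈ J, f i ∈ S f i)).card * Fintype.card κ ^ J.card ≤
      b ^ J.card * Fintype.card κ ^ Fintype.card ι := by
  set A := (Finset.univ : Finset (ι → κ)).filter (fun f => ∀ i ∈ J, f i ∈ S f i) with hA
  let r : (ι → κ) → ({i // i ∉ J} → κ) := fun f i => f i.1
  have h1 : A.card ≤ b ^ J.card * (A.image r).card := by
    refine Finset.card_le_mul_card_image A (b ^ J.card) (fun a ha => ?_)
    obtain ⟨f0, hf0, rfl⟩ := Finset.mem_image.mp ha
    let P : Finset ({i // i ∈ J} → κ) := Fintype.piFinset (fun i : {i // i ∈ J} => S f0 i.1)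
    have h2 : (A.filter (fun x => r x = r f0)).card ≤ P.card := by
      refine Finset.card_le_card_of_injOn (fun f (i : {i // i ∈ J}) => f i.1) ?_ ?_
      · intro f hf
        have hf' := Finset.mem_filter.mp (Finset.mem_coe.mp hf)
        have hf1 := (Finset.mem_filter.mp hf'.1).2
        refine Finset.mem_coe.mpr (Fintype.mem_piFinset.mpr (fun i => ?_))
        have h3 : S f i.1 = S f0 i.1 :=
          hS f f0 (fun j hj => congrFun hf'.2 ⟨j, hj⟩) i.1 i.2
        rw [← h3]
        exact hf1 i.1 i.2
      · intro f hf g hg hfg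
        have hf' := (Finset.mem_filter.mp (Finset.mem_coe.mp hf)).2
        have hg' := (Finset.mem_filter.mp (Finset.mem_coe.mp hg)).2
        funext i
        by_cases hi : i ∈ J
        · exact congrFun hfg ⟨i, hi⟩
        · have h4 : r f = r g := hf'.trans hg'.symm
          exact congrFun h4 ⟨i, hi⟩
    have h5 : P.card ≤ b ^ J.card := by
      rw [Fintype.card_piFinset]
      calc ∏ i : {i // i ∈ J}, (S f0 i.1).card ≤ ∏ _i : {i // i ∈ J}, b :=
            Finset.prod_le_prod' (fun i _ => hb f0 i.1 i.2)
        _ = b ^ J.card := by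
            rw [Finset.prod_const, Finset.card_univ, Fintype.card_coe]
    exact h2.trans h5
  have h6 : (A.image r).card ≤ Fintype.card κ ^ Fintype.card {i // i ∉ J} := by
    rw [← Fintype.card_fun]
    exact Finset.card_le_univ _
  have h7 : Fintype.card {i // i ∉ J} + J.card = Fintype.card ι := by
    rw [Fintype.card_subtype_compl, Fintype.card_coe]
    have := Finset.card_le_univ J
    omega
  calc A.card * Fintype.card κ ^ J.card
      ≤ (b ^ J.card * Fintype.card κ ^ Fintype.card {i // i ∉ J}) * Fintype.card κ ^ J.card :=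
        Nat.mul_le_mul_right _ (h1.trans (Nat.mul_le_mul_left _ h6))
    _ = b ^ J.card * Fintype.card κ ^ Fintype.card ι := by
        rw [mul_assoc, ← pow_add, h7]

/-- the number of subsets of size at most `L` of a set of size `D` is at most `(D+1)^L`: image of the maps `Fin L → Option s` -/
theorem count_small {α : Type} [DecidableEq α] (s : Finset α) (L : ℕ) :
    (s.powerset.filter (fun F => F.card ≤ L)).card ≤ (s.card + 1) ^ L := by
  let G : (Fin L → Option {x // x ∈ s}) → Finset α :=
    fun φ => s.filter (fun x => ∃ j, ∃ h : x ∈ s, φ j = some ⟨x, h⟩)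
  have h1 : s.powerset.filter (fun F => F.card ≤ L) ⊆ Finset.univ.image G := by
    intro F hF
    obtain ⟨hF1, hF2⟩ := Finset.mem_filter.mp hF
    have hFs := Finset.mem_powerset.mp hF1
    refine Finset.mem_image.mpr ⟨fun j => if h : (j : ℕ) < F.card then
      some ⟨(F.equivFin.symm ⟨j, h⟩).1, hFs (F.equivFin.symm ⟨j, h⟩).2⟩ else none, Finset.mem_univ _, ?_⟩
    ext x
    constructor
    · intro hx
      obtain ⟨_, j, h, hj⟩ := Finset.mem_filter.mp hx
      by_cases hjF : (j : ℕ) < F.card
      · simp only [hjF, dif_pos] at hj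
        have h3 := congrArg Subtype.val (Option.some.inj hj)
        simp only at h3
        rw [← h3]
        exact (F.equivFin.symm ⟨j, hjF⟩).2
      · simp only [hjF, dif_neg, not_false_eq_true] at hj
        cases hj
    · intro hx
      refine Finset.mem_filter.mpr ⟨hFs hx, ?_⟩
      have hlt := (F.equivFin ⟨x, hx⟩).2
      refine ⟨⟨(F.equivFin ⟨x, hx⟩ : ℕ), lt_of_lt_of_le hlt hF2⟩, hFs hx, ?_⟩
      simp only [hlt, dif_pos, Fin.eta, Equiv.symm_apply_apply]
  calc (s.powerset.filter (fun F => F.card ≤ L)).card ≤ (Finset.univ.image G).card := Finset.card_le_card h1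
    _ ≤ (Finset.univ : Finset (Fin L → Option {x // x ∈ s})).card := Finset.card_image_le
    _ = (s.card + 1) ^ L := by
      rw [Finset.card_univ, Fintype.card_fun, Fintype.card_option, Fintype.card_coe, Fintype.card_fin]

end Pool.Agent.BoolWidth
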