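import Pool.Agent.Lib_MP_0cf6e1_b.Seeds
import Pool.Agent.Lib_MP_0cf6e1_b.Approx
import Pool.Agent.Lib_MP_0cf6e1_b.PiCount

/-!
# Piece COUNTT: few shifts transport thin sets along a given critical set
-/

set_option autoImplicit false

open scoped Classical

namespace Pool.Agent.BoolWidth

variable {V : Type} [Fintype V]

/-- the shifts given by a function to `Fin C` -/
def tt {C : ℕ} (f : V × V → Fin C) (u v : V) : ℕ := (f (u, v) : ℕ)

/-- the functions for which thin sets are transported along all arcs of `A` -/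
noncomputable def BadT (C D L K : ℕ) (W : Finset V) (A : Finset (V × V)) : Finset (V × V → Fin C) :=
  Finset.univ.filter (fun f => ∃ F : V → Finset ℤ,
    (∀ u ∈ W, (F u).Nonempty ∧ F u ⊆ Finset.Ico 0 (D : ℤ) ∧ (F u).card ≤ L) ∧ ∀ p ∈ A, Good (tt f) F K p.1 p.2)

omit [Fintype V] in
/-- the offsets depend only on the values of `f` on the arcs of the forest -/
private theorem countT_off {C : ℕ} (A : Finset (V × V)) (W Z : Finset V) (n : ℕ) (dep : V → ℕ) (par : V → V)
    (hf : ∀ u ∈ W, dep u ≤ n ∧ (dep u = 0 ↔ u ∈ Z) ∧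
      (dep u ≠ 0 → par u ∈ W ∧ dep (par u) + 1 = dep u ∧ Adj (fun u v => (u, v) ∈ A) (par u) u))
    (J : Finset (V × V)) (hJ : ∀ u ∈ W, dep u ≠ 0 → (par u, u) ∈ A → (par u, u) ∉ J)
    (hJ' : ∀ u ∈ W, dep u ≠ 0 → (u, par u) ∈ A → (u, par u) ∉ J)
    (f g : V × V → Fin C) (hfg : ∀ i, i ∉ J → f i = g i) :
    ∀ (i : ℕ) (u : V), u ∈ W → dep u = i →
      off (fun u v => (u, v) ∈ A) (tt f) par i u = off (fun u v => (u, v) ∈ A) (tt g) par i u := by
  intro i
  induction i with
  | zero => intro u _ _; rfl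
  | succ i ih =>
    intro u hu hd
    have hd0 : dep u ≠ 0 := by omega
    obtain ⟨hp, hdp, hadj⟩ := (hf u hu).2.2 hd0
    have h1 := ih (par u) hp (by omega)
    simp only [off]
    rw [h1]
    by_cases h : (par u, u) ∈ A
    · have h2 := hfg _ (hJ u hu hd0 h)
      simp only [h, if_true, tt, h2]
    · have h3 : (u, par u) ∈ A := by
        rcases hadj with h4 | h4
        · exact absurd h4 h
        · exact h4
      have h2 := hfg _ (hJ' u hu hd0 h3)
      simp only [h, if_false, tt, h2]

/-- Let `R u v := (u, v) ∈ A`. Take `Z` (`seeds`) with `M |Z| ≤ |W|`, `dep, par` (`forest`, `n = 2 r0`). Let `Ff` be the set of the pairs `(par u, u), (u, par u)` in `A`, `u ∈ W \ Z`; at most one of the two is in `A`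
(`Asym`), so `|Ff| ≤ |W|` and `J = A \ Ff` has `B |J| ≥ B |A| - B |W| ≥ |W|`. For each family of seeds `G : Z → ` nonempty subsets of `[0, D)` of size `≤ L` the functions `f` in `BadT` with `F = G` on `Z` satisfy
`f p ∈ S p := {x : |B'| ≤ 2 |(A' + x) ∩ B'|}` for `p ∈ J`, where `A', B'` are the translates of `G (root u), G (root v)` by `off R (tt f) par`, which depends only on `f` on `Ff` (`approx`, `good_shift`);
`|S p| ≤ 2 L` (`shifts_card`). `pi_count` gives at most `(2L/C)^|J| C^(|V|^2)` functions, and there are at most `((D+1)^L)^|Z| ≤ 2^(M |Z|) ≤ 2^|W|` families of seeds. Finally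
`2^s (2 L) ≤ C` and `B y ≤ s`, `|W| ≤ B |J|` give the bound. -/
theorem count_t (C D L K B M r0 s y : ℕ) (hC : 0 < C) (hL : 1 ≤ L) (hK : 32 ≤ K) (hK2 : 32 * r0 ≤ K) (hDL : (D + 1) ^ L ≤ 2 ^ M)
    (hs : 2 ^ s * (2 * L) ≤ C) (hy : B * y ≤ s) (W : Finset V) (A : Finset (V × V)) (hAW : ∀ p ∈ A, p.1 ∈ W ∧ p.2 ∈ W)
    (has : ∀ u v, (u, v) ∈ A → (v, u) ∉ A) (hd : (B + 1) * W.card ≤ B * A.card)
    (hb : ∀ z ∈ W, M ≤ (ball (fun u v => (u, v) ∈ A) W {z} r0).card) :
    (BadT C D L K W A).card * 2 ^ (y * W.card) ≤ 2 ^ W.card * C ^ Fintype.card (V × V) := by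
  obtain ⟨Z, hZW, hMZ, hZb⟩ := seeds (fun u v => (u, v) ∈ A) W r0 M hb
  obtain ⟨dep, par, hf⟩ := forest (fun u v => (u, v) ∈ A) W Z hZW (2 * r0) hZb
  -- the arcs of the forest
  set φ : V → V × V := fun u => if (par u, u) ∈ A then (par u, u) else (u, par u) with hφ
  set Ff : Finset (V × V) := (W.filter (fun u => dep u ≠ 0)).image φ with hFf
  have hFc : Ff.card ≤ W.card := Finset.card_image_le.trans (Finset.card_filter_le _ _)
  set J : Finset (V × V) := A \ Ff with hJdef
  have hJ : ∀ u ∈ W, dep u ≠ 0 → (par u, u) ∈ A → (par u, u) ∉ J := by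
    intro u hu hdu h hh
    rw [hJdef, Finset.mem_sdiff] at hh
    refine hh.2 (Finset.mem_image.mpr ⟨u, Finset.mem_filter.mpr ⟨hu, hdu⟩, ?_⟩)
    simp only [hφ, h, if_true]
  have hJ' : ∀ u ∈ W, dep u ≠ 0 → (u, par u) ∈ A → (u, par u) ∉ J := by
    intro u hu hdu h hh
    rw [hJdef, Finset.mem_sdiff] at hh
    refine hh.2 (Finset.mem_image.mpr ⟨u, Finset.mem_filter.mpr ⟨hu, hdu⟩, ?_⟩)
    have h2 := has _ _ h
    simp only [hφ, h2, if_false]
  have hJc : A.card ≤ J.card + W.card := by
    have h1 : A.card ≤ J.card + Ff.card := by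
      rw [hJdef]
      exact Finset.card_le_card_sdiff_add_card
    omega
  have hBJ : W.card ≤ B * J.card := by
    have h1 : B * A.card ≤ B * (J.card + W.card) := Nat.mul_le_mul_left _ hJc
    nlinarith
  -- the seeds
  set Pw : Finset (Finset ℤ) := (Finset.Ico 0 (D : ℤ)).powerset.filter (fun F => F.card ≤ L) with hPw
  have hPc : Pw.card ≤ (D + 1) ^ L := by
    have h1 := count_small (Finset.Ico 0 (D : ℤ)) L
    have h2 : (Finset.Ico 0 (D : ℤ)).card = D := by simp
    rw [h2] at h1
    refine (Finset.card_le_card ?_).trans h1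
    intro F hF
    exact Finset.mem_filter.mpr (Finset.mem_filter.mp hF)
  set Gs : Finset (V → Finset ℤ) := Fintype.piFinset (fun z => if z ∈ Z then Pw else {∅}) with hGs
  have hGc : Gs.card ≤ 2 ^ W.card := by
    have h1 : Gs.card = Pw.card ^ Z.card := by
      rw [hGs, Fintype.card_piFinset]
      have h2 : ∀ z : V, (if z ∈ Z then Pw else ({∅} : Finset (Finset ℤ))).card = if z ∈ Z then Pw.card else 1 := by
        intro z
        split_ifs <;> simp
      rw [Finset.prod_congr rfl (fun z _ => h2 z), Finset.prod_ite_mem]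
      simp
    rw [h1]
    calc Pw.card ^ Z.card ≤ (2 ^ M) ^ Z.card := Nat.pow_le_pow_left (hPc.trans hDL) _
      _ = 2 ^ (M * Z.card) := by rw [pow_mul]
      _ ≤ 2 ^ W.card := Nat.pow_le_pow_right (by norm_num) hMZ
  have hGL : ∀ G ∈ Gs, ∀ z, (G z).card ≤ L := by
    intro G hG z
    have h1 := (Fintype.mem_piFinset.mp hG) z
    by_cases hz : z ∈ Z
    · simp only [hz, if_true] at h1
      exact (Finset.mem_filter.mp h1).2
    · simp only [hz, if_false, Finset.mem_singleton] at h1
      rw [h1]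
      simp
  -- the allowed values
  set X : (V → Finset ℤ) → (V × V → Fin C) → V → Finset ℤ := fun G f u =>
    sh (G (root par (dep u) u)) (off (fun u v => (u, v) ∈ A) (tt f) par (dep u) u) with hX
  set S : (V → Finset ℤ) → (V × V → Fin C) → V × V → Finset (Fin C) := fun G f p =>
    Finset.univ.filter (fun x : Fin C => (X G f p.2).Nonempty ∧
      (X G f p.2).card ≤ 2 * (sh (X G f p.1) ((x : ℕ) : ℤ) ∩ X G f p.2).card) with hS
  have hSeq : ∀ G, ∀ f g : V × V → Fin C, (∀ i, i ∉ J → f i = g i) → ∀ i ∈ J, S G f i = S G g i := by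
    intro G f g hfg p hp
    have hpA : p ∈ A := (Finset.mem_sdiff.mp hp).1
    have h1 : X G f p.1 = X G g p.1 := by
      simp only [hX]
      rw [countT_off A W Z (2 * r0) dep par hf J hJ hJ' f g hfg _ p.1 (hAW p hpA).1 rfl]
    have h2 : X G f p.2 = X G g p.2 := by
      simp only [hX]
      rw [countT_off A W Z (2 * r0) dep par hf J hJ hJ' f g hfg _ p.2 (hAW p hpA).2 rfl]
    simp only [hS, h1, h2]
  have hSb : ∀ G ∈ Gs, ∀ f, ∀ i ∈ J, (S G f i).card ≤ 2 * L := by
    intro G hG f p _
    by_cases hne : (X G f p.2).Nonempty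
    · have h1 := shifts_card (X G f p.1) (X G f p.2) hne C
      have h2 : (X G f p.1).card ≤ L := by
        simp only [hX]
        rw [sh_card]
        exact hGL G hG _
      have h3 : (S G f p).card ≤ 2 * (X G f p.1).card := by
        first
        | exact (Finset.card_le_card (fun x hx => Finset.mem_filter.mpr
            ⟨Finset.mem_univ _, (Finset.mem_filter.mp hx).2.2⟩)).trans h1
        | refine (Finset.card_le_card_of_injOn (fun x : Fin C => ((x : ℕ))) ?_ ?_).trans h1
          · intro x hx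
            have hx2 := (Finset.mem_filter.mp hx).2.2
            refine Finset.mem_coe.mpr (Finset.mem_filter.mpr ⟨?_, hx2⟩)
            simp [Finset.bind_def]
          · intro x _ y _ hxy
            exact Fin.ext hxy
      omega
    · have h1 : S G f p = ∅ := by
        simp only [hS]
        rw [Finset.filter_eq_empty_iff]
        intro x _ hx
        exact hne hx.1
      rw [h1]
      simp
  set T : (V → Finset ℤ) → Finset (V × V → Fin C) := fun G =>
    (Finset.univ : Finset (V × V → Fin C)).filter (fun f => ∀ i ∈ J, f i ∈ S G f i) with hT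
  have hTc : ∀ G ∈ Gs, (T G).card * C ^ J.card ≤ (2 * L) ^ J.card * C ^ Fintype.card (V × V) := by
    intro G hG
    have h1 := pi_count J (S G) (hSeq G) (2 * L) (hSb G hG)
    rw [Fintype.card_fin] at h1
    refine le_trans (Nat.mul_le_mul_right _ (Finset.card_le_card ?_)) h1
    intro f hf
    have h2 := (Finset.mem_filter.mp hf).2
    simp only [Finset.mem_filter, Finset.mem_univ, true_and]
    exact h2
  have hsub : BadT C D L K W A ⊆ Gs.biUnion T := by
    intro f hfB
    obtain ⟨F, hF1, hF2⟩ := (Finset.mem_filter.mp hfB).2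
    rw [Finset.mem_biUnion]
    refine ⟨fun z => if z ∈ Z then F z else ∅, ?_, ?_⟩
    · rw [hGs, Fintype.mem_piFinset]
      intro z
      by_cases hz : z ∈ Z
      · simp only [hz, if_true]
        have h1 := hF1 z (hZW hz)
        exact Finset.mem_filter.mpr ⟨Finset.mem_powerset.mpr h1.2.1, h1.2.2⟩
      · simp only [hz, if_false, Finset.mem_singleton]
    · refine Finset.mem_filter.mpr ⟨Finset.mem_univ _, ?_⟩
      intro p hp
      have hpA : p ∈ A := (Finset.mem_sdiff.mp hp).1
      have hgood : ∀ u ∈ W, ∀ v ∈ W, (fun u v => (u, v) ∈ A) u v → Good (tt f) F K u v := by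
        intro u _ v _ huv
        exact hF2 (u, v) huv
      have hne : ∀ u ∈ W, (F u).Nonempty := fun u hu => (hF1 u hu).1
      have hap := approx (fun u v => (u, v) ∈ A) (tt f) F K (2 * r0) hK (by omega) W Z dep par hf hne hgood
      obtain ⟨ha1, ha2⟩ := hap p.1 (hAW p hpA).1
      obtain ⟨hb1, hb2⟩ := hap p.2 (hAW p hpA).2
      have hXa : X (fun z => if z ∈ Z then F z else ∅) f p.1 =
          sh (F (root par (dep p.1) p.1)) (off (fun u v => (u, v) ∈ A) (tt f) par (dep p.1) p.1) := by
        simp only [hX, ha1, if_true]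
      have hXb : X (fun z => if z ∈ Z then F z else ∅) f p.2 =
          sh (F (root par (dep p.2) p.2)) (off (fun u v => (u, v) ∈ A) (tt f) par (dep p.2) p.2) := by
        simp only [hX, hb1, if_true]
      have h3 := hF2 p hpA
      refine Finset.mem_filter.mpr ⟨Finset.mem_univ _, ?_, ?_⟩
      · rw [hXb]
        rw [← Finset.card_pos, sh_card, Finset.card_pos]
        exact hne _ (hZW hb1)
      · rw [hXa, hXb]
        refine good_shift _ _ (F p.1) (F p.2) ((f p : ℕ) : ℤ) K hK ?_ ?_ h3
        · rw [sh_card]; exact ha2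
        · rw [sh_card]; exact hb2
  have hcount : (BadT C D L K W A).card * C ^ J.card ≤
      2 ^ W.card * ((2 * L) ^ J.card * C ^ Fintype.card (V × V)) := by
    calc (BadT C D L K W A).card * C ^ J.card ≤ (∑ G ∈ Gs, (T G).card) * C ^ J.card :=
          Nat.mul_le_mul_right _ ((Finset.card_le_card hsub).trans Finset.card_biUnion_le)
      _ = ∑ G ∈ Gs, (T G).card * C ^ J.card := by rw [Finset.sum_mul]
      _ ≤ ∑ G ∈ Gs, (2 * L) ^ J.card * C ^ Fintype.card (V × V) := Finset.sum_le_sum hTc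
      _ = Gs.card * ((2 * L) ^ J.card * C ^ Fintype.card (V × V)) := by
          rw [Finset.sum_const, smul_eq_mul]
      _ ≤ _ := Nat.mul_le_mul_right _ hGc
  have hpos : 0 < (2 * L) ^ J.card := pow_pos (by omega) _
  have h1 : (2 ^ s * (2 * L)) ^ J.card ≤ C ^ J.card := Nat.pow_le_pow_left hs _
  have h2 : (BadT C D L K W A).card * (2 ^ (s * J.card)) * (2 * L) ^ J.card ≤
      2 ^ W.card * C ^ Fintype.card (V × V) * (2 * L) ^ J.card := by
    calc (BadT C D L K W A).card * (2 ^ (s * J.card)) * (2 * L) ^ J.card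
        = (BadT C D L K W A).card * (2 ^ s * (2 * L)) ^ J.card := by
          rw [mul_pow (2 ^ s) (2 * L), ← pow_mul, mul_assoc]
      _ ≤ (BadT C D L K W A).card * C ^ J.card := Nat.mul_le_mul_left _ h1
      _ ≤ _ := hcount
      _ = _ := by ring
  have h3 : (BadT C D L K W A).card * (2 ^ (s * J.card)) ≤ 2 ^ W.card * C ^ Fintype.card (V × V) :=
    Nat.le_of_mul_le_mul_right h2 hpos
  refine le_trans (Nat.mul_le_mul_left _ (Nat.pow_le_pow_right (by norm_num) ?_)) h3
  calc y * W.card ≤ y * (B * J.card) := Nat.mul_le_mul_left _ hBJ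
    _ = (B * y) * J.card := by ring
    _ ≤ s * J.card := Nat.mul_le_mul_right _ hy

end Pool.Agent.BoolWidth
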