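import Pool.Agent.Lib_MP_0cf6e1_b.Defs

/-!
# Piece CRIT: critical subsets
-/

set_option autoImplicit false

open scoped Classical

namespace Pool.Agent.BoolWidth

variable {V : Type}

private theorem critp_split (A : V → V → Prop) (W S : Finset V) (hS : S ⊆ W)
    (hno : ∀ u ∈ S, ∀ v ∈ W \ S, ¬ Adj A u v) : eIn A W ≤ eIn A S + eIn A (W \ S) := by
  unfold eIn
  refine le_trans (Finset.card_le_card ?_) (Finset.card_union_le _ _)
  intro p hp
  simp only [Finset.mem_filter, Finset.mem_product, Finset.mem_union] at hp ⊢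
  obtain ⟨⟨h1, h2⟩, h3⟩ := hp
  by_cases h4 : p.1 ∈ S
  · by_cases h5 : p.2 ∈ S
    · exact Or.inl ⟨⟨h4, h5⟩, h3⟩
    · exact absurd (Or.inl h3) (hno _ h4 _ (Finset.mem_sdiff.2 ⟨h2, h5⟩))
  · by_cases h5 : p.2 ∈ S
    · exact absurd (Or.inr h3) (hno _ h5 _ (Finset.mem_sdiff.2 ⟨h1, h4⟩))
    · exact Or.inr ⟨⟨Finset.mem_sdiff.2 ⟨h1, h4⟩, Finset.mem_sdiff.2 ⟨h2, h5⟩⟩, h3⟩

private theorem critp_empty (A : V → V → Prop) : eIn A (∅ : Finset V) = 0 := by
  unfold eIn
  simp

/-- Take a nonempty `W' ⊆ W` of least cardinality with `(B+1) |W'| ≤ B e(W')`. For `∅ ≠ S ≠ W'`: `B e(W' \ S) < (B+1) |W' \ S|`, which gives the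
second condition; `S = ∅` and `S = W'` are trivial. If there is no arc between `S` and `W' \ S` then `e(W') = e(S) + e(W' \ S)` and both are too small. -/
theorem exists_crit (A : V → V → Prop) (W : Finset V) (B : ℕ) (h : (B + 1) * W.card < B * eIn A W) :
    ∃ W' ⊆ W, Crit A W' B := by
  have hWne : W.Nonempty := by
    rw [Finset.nonempty_iff_ne_empty]
    rintro rfl
    rw [critp_empty] at h
    simp at h
  obtain ⟨W', hW', hmin⟩ := Finset.exists_min_image
    (W.powerset.filter fun S => S.Nonempty ∧ (B + 1) * S.card ≤ B * eIn A S) Finset.card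
    ⟨W, by
      simp only [Finset.mem_filter, Finset.mem_powerset]
      exact ⟨Finset.Subset.refl _, hWne, h.le⟩⟩
  simp only [Finset.mem_filter, Finset.mem_powerset] at hW' hmin
  obtain ⟨hsub, hne, hle⟩ := hW'
  have key : ∀ S ⊆ W', S.Nonempty → S ≠ W' → B * eIn A S < (B + 1) * S.card := by
    intro S hS hSne hSW
    by_contra hcon
    push Not at hcon
    have h1 := hmin S ⟨hS.trans hsub, hSne, hcon⟩
    exact hSW (Finset.eq_of_subset_of_card_le hS h1)
  refine ⟨W', hsub, hne, ?_, ?_⟩
  · intro S hS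
    by_cases hS0 : S = ∅
    · subst hS0
      simp
    by_cases hS1 : S = W'
    · subst hS1
      rw [Finset.sdiff_self, critp_empty]
      simpa using hle
    have h2 : (W' \ S).Nonempty := by
      rw [Finset.sdiff_nonempty]
      intro h3
      exact hS1 (Finset.Subset.antisymm hS h3)
    have h3 : W' \ S ≠ W' := by
      intro h4
      obtain ⟨x, hx⟩ := Finset.nonempty_iff_ne_empty.2 hS0
      have : x ∈ W' \ S := by
        rw [h4]
        exact hS hx
      exact (Finset.mem_sdiff.1 this).2 hx
    have h4 := key (W' \ S) Finset.sdiff_subset h2 h3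
    have h5 : (W' \ S).card + S.card = W'.card := Finset.card_sdiff_add_card_eq_card hS
    have h6 : (B + 1) * W'.card = (B + 1) * (W' \ S).card + (B + 1) * S.card := by
      rw [← h5]
      ring
    omega
  · intro S hS hSne hSW
    by_contra hcon
    push Not at hcon
    have hno : ∀ u ∈ S, ∀ v ∈ W' \ S, ¬ Adj A u v := fun u hu v hv => hcon u hu v hv
    have h1 := critp_split A W' S hS hno
    have h2 : (W' \ S).Nonempty := by
      rw [Finset.sdiff_nonempty]
      intro h3
      exact hSW (Finset.Subset.antisymm hS h3)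
    have h3 : W' \ S ≠ W' := by
      intro h4
      obtain ⟨x, hx⟩ := hSne
      have : x ∈ W' \ S := by
        rw [h4]
        exact hS hx
      exact (Finset.mem_sdiff.1 this).2 hx
    have h4 := key (W' \ S) Finset.sdiff_subset h2 h3
    have h5 : (W' \ S).card + S.card = W'.card := Finset.card_sdiff_add_card_eq_card hS
    have h6 : (B + 1) * W'.card = (B + 1) * (W' \ S).card + (B + 1) * S.card := by
      rw [← h5]
      ring
    have h7 := key S hS hSne hSW
    have h8 : B * eIn A W' ≤ B * eIn A S + B * eIn A (W' \ S) := by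
      rw [← Nat.mul_add]
      exact Nat.mul_le_mul_left _ h1
    omega

end Pool.Agent.BoolWidth
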