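import Pool.Agent.Lib_MP_0cf6e1_b.Hol

/-!
# Piece CYC: closed walks with zero flow are long
-/

set_option autoImplicit false

open scoped Classical

namespace Pool.Agent.BoolWidth

variable {V : Type} {E : V → V → Prop}

/-- a step of a walk with zero flow is also walked in the other direction -/
private lemma cyc_rev (c : ℕ → V) (l : ℕ) (hc : ∀ i, i < l → Adj E (c i) (c (i + 1)))
    (hf : ∀ u v, E u v → flow c l u v = 0) (k : ℕ) (hk : k < l) :
    ∃ k', k' < l ∧ c k' = c (k + 1) ∧ c (k' + 1) = c k := by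
  have hfl : flow c l (c k) (c (k + 1)) = 0 := by
    rcases hc k hk with h | h
    · exact hf _ _ h
    · have h1 := hf _ _ h
      have h2 : flow c l (c k) (c (k + 1)) = - flow c l (c (k + 1)) (c k) := by
        unfold flow
        rw [← Finset.sum_neg_distrib]
        exact Finset.sum_congr rfl fun i _ => by ring
      rw [h2, h1, neg_zero]
  by_contra hcon
  push Not at hcon
  have h2 : 0 < flow c l (c k) (c (k + 1)) := by
    unfold flow
    refine Finset.sum_pos' (fun i hi => ?_) ⟨k, Finset.mem_range.2 hk, ?_⟩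
    · have h3 : ¬ (c i = c (k + 1) ∧ c (i + 1) = c k) := fun h =>
        hcon i (Finset.mem_range.1 hi) h.1 h.2
      rw [if_neg h3]
      split_ifs <;> simp
    · have h3 : ¬ (c k = c (k + 1) ∧ c (k + 1) = c k) := fun h => hcon k hk h.1 h.2
      rw [if_neg h3, if_pos ⟨rfl, rfl⟩]
      simp
  omega

/-- Choose `i < j ≤ l` with `c i = c j` and `j - i` minimal (`c 0 = c l`). Then `c i, …, c (j-1)` are distinct and `c i, …, c j` is a closed walk without backtracking, so `γ + 1 ≤ j - i`. For `k ∈ [i, j)` the step from `c k` to `c (k+1)` is an arc in one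
of the two directions with flow `0`, so there is a step `k' < l` with `c k' = c (k+1)`, `c (k'+1) = c k`. It is not in `[i, j)`: otherwise `k' = k + 1` (then `c (k+2) = c k`, backtracking) or `k = j - 1`, `k' = i`, `c (i+1) = c (j-1)`, so `j = i + 2` and `c i = c (i+2)`,
backtracking (`j = i + 1` is impossible, no loops). The map `k ↦ k'` is injective (`c (k'+1) = c k`). So `j - i ≤ l - (j - i)`. -/
theorem cyc (ha : Asym E) (γ : ℕ) (h : Gir E γ) (c : ℕ → V) (l : ℕ) (hl : 1 ≤ l) (hc : RW E c l) (h0 : c 0 = c l)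
    (hf : ∀ u v, E u v → flow c l u v = 0) : 2 * γ + 2 ≤ l := by
  have hex : ∃ d, 1 ≤ d ∧ ∃ i, i + d ≤ l ∧ c i = c (i + d) := ⟨l, hl, 0, by omega, by simpa using h0⟩
  obtain ⟨hd1, i, hil, hci⟩ := Nat.find_spec hex
  have hmin : ∀ d', 1 ≤ d' → d' < Nat.find hex → ∀ i', i' + d' ≤ l → c i' ≠ c (i' + d') := by
    intro d' h1 h2 i' h3 h4
    exact Nat.find_min hex h2 ⟨h1, i', h3, h4⟩
  set d := Nat.find hex with hd
  -- distinctness
  have hdist : ∀ a b, i ≤ a → a < i + d → i ≤ b → b < i + d → c a = c b → a = b := by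
    intro a b ha1 ha2 hb1 hb2 hab
    rcases lt_trichotomy a b with hlt | heq | hgt
    · exact absurd (by rw [Nat.add_sub_cancel' hlt.le]; exact hab)
        (hmin (b - a) (by omega) (by omega) a (by omega))
    · exact heq
    · exact absurd (by rw [Nat.add_sub_cancel' hgt.le]; exact hab.symm)
        (hmin (a - b) (by omega) (by omega) b (by omega))
  have hγ : γ + 1 ≤ d := by
    by_contra hlt
    refine h (fun k => c (i + k)) d hd1 (by omega) ⟨?_, ?_⟩ (by simpa using hci)
    · intro k hk
      have := hc.1 (i + k) (by omega)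
      simpa [add_assoc] using this
    · intro k hk
      have := hc.2 (i + k) (by omega)
      simpa [add_assoc] using this
  have hex2 : ∀ k, ∃ k', i ≤ k → k < i + d → (k' < l ∧ c k' = c (k + 1) ∧ c (k' + 1) = c k) := by
    intro k
    by_cases hk : k < l
    · obtain ⟨k', h1⟩ := cyc_rev c l hc.1 hf k hk
      exact ⟨k', fun _ _ => h1⟩
    · exact ⟨0, fun _ _ => by omega⟩
  choose r hr using hex2
  have hout : ∀ k, i ≤ k → k < i + d → r k < i ∨ i + d ≤ r k := by
    intro k hk1 hk2
    obtain ⟨h1, h2, h3⟩ := hr k hk1 hk2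
    by_contra hcon
    push Not at hcon
    rcases Nat.lt_or_ge (k + 1) (i + d) with hlt | hge
    · have h4 := hdist (r k) (k + 1) hcon.1 hcon.2 (by omega) hlt h2
      rw [h4] at h3
      exact hc.2 k (by omega) h3.symm
    · have hkd : k + 1 = i + d := by omega
      rw [hkd, ← hci] at h2
      have h4 := hdist (r k) i hcon.1 hcon.2 le_rfl (by omega) h2
      rw [h4] at h3
      rcases Nat.lt_or_ge (i + 1) (i + d) with hlt | hge
      · have h5 := hdist (i + 1) k (by omega) hlt hk1 hk2 h3
        have h6 : i + d = i + 2 := by omega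
        rw [h6] at hci
        exact hc.2 i (by omega) hci
      · have hd' : d = 1 := by omega
        rw [hd'] at hci
        have h7 := hc.1 i (by omega)
        rw [← hci] at h7
        rcases h7 with h7 | h7 <;> exact ha _ _ h7 h7
  have hinj : Set.InjOn r (Finset.Ico i (i + d)) := by
    intro a ha1 b hb1 hab
    simp only [Finset.coe_Ico, Set.mem_Ico] at ha1 hb1
    refine hdist a b ha1.1 ha1.2 hb1.1 hb1.2 ?_
    rw [← (hr a ha1.1 ha1.2).2.2, ← (hr b hb1.1 hb1.2).2.2, hab]
  have hsub : (Finset.Ico i (i + d)).image r ⊆ Finset.range l \ Finset.Ico i (i + d) := by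
    intro x hx
    obtain ⟨k, hk, rfl⟩ := Finset.mem_image.1 hx
    rw [Finset.mem_Ico] at hk
    rw [Finset.mem_sdiff, Finset.mem_range, Finset.mem_Ico]
    have h1 := (hr k hk.1 hk.2).1
    have h2 := hout k hk.1 hk.2
    exact ⟨h1, by omega⟩
  have hcard := Finset.card_le_card hsub
  rw [Finset.card_image_of_injOn hinj, Finset.card_sdiff_of_subset (fun x hx => by
    rw [Finset.mem_Ico] at hx; rw [Finset.mem_range]; omega), Nat.card_Ico, Finset.card_range] at hcard
  omega

/-- a closed walk without backtracking of length `l ≤ g` in the lift projects (`RW.proj`) to a closed walk without backtracking with holonomy `0` (`hol_lift`), so its flow is `0` on all arcs and `cyc` gives `2 γ + 2 ≤ l` -/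
theorem gir_double (ha : Asym E) (γ g : ℕ) (h : Gir E γ) (t : V → V → ℕ)
    (ht : ∀ (c : ℕ → V) (l : ℕ), l ≤ g → (∀ i, i < l → Adj E (c i) (c (i + 1))) →
        (∃ u v, E u v ∧ flow c l u v ≠ 0) → hol E t c l ≠ 0) (D : ℕ) : Gir (liftE E t D) (min (2 * γ + 1) g) := by
  intro c l h1 h2 hc h0
  have hp := hc.proj ha
  have hh := hol_lift ha t D c l hc.1
  rw [h0, sub_self] at hh
  have hf : ∀ u v, E u v → flow (fun i => (c i).1) l u v = 0 := by
    intro u v huv
    by_contra hne
    exact ht _ l (h2.trans (min_le_right _ _)) hp.1 ⟨u, v, huv, hne⟩ hh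
  have := cyc ha γ h (fun i => (c i).1) l h1 hp (congrArg Prod.fst h0) hf
  have := h2.trans (min_le_left _ _)
  omega

end Pool.Agent.BoolWidth
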