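import Mathlib

/-!
# MP_0cf6e1_co: B(w) >= w - 1. Definitions

`MG w V`: a poset on `V` covered by `w` chains together with a set `E` of arcs, which are cover
pairs between different chains. `liftE`: the lift of the arcs to `V × [0, D)` with shifts `t`.
-/

set_option autoImplicit false

namespace Pool.Agent.BoolWidth

/-- a strict order on `V`, covered by `w` chains (the fibres of `ch`), with a set of arcs `E`
which are cover pairs between different chains -/
structure MG (w : ℕ) (V : Type) where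
  lt : V → V → Prop
  irr : ∀ a, ¬ lt a a
  tr : ∀ a b c, lt a b → lt b c → lt a c
  ch : V → Fin w
  chain : ∀ a b, ch a = ch b → a ≠ b → lt a b ∨ lt b a
  E : V → V → Prop
  elt : ∀ a b, E a b → lt a b
  ecov : ∀ a b c, E a b → lt a c → ¬ lt c b
  ech : ∀ a b, E a b → ch a ≠ ch b

variable {V : Type}

/-- out-degrees and in-degrees are at most `d` -/
def DegLE (E : V → V → Prop) (d : ℕ) : Prop :=
  (∀ (v : V) (S : Finset V), (∀ u ∈ S, E v u) → S.card ≤ d) ∧
    ∀ (v : V) (S : Finset V), (∀ u ∈ S, E u v) → S.card ≤ d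

/-- `E` is antisymmetric (and irreflexive) -/
def Asym (E : V → V → Prop) : Prop := ∀ u v, E u v → ¬ E v u

/-- adjacency in the underlying graph -/
def Adj (E : V → V → Prop) (u v : V) : Prop := E u v ∨ E v u

open scoped Classical in
/-- number of arcs inside `S` -/
noncomputable def eIn (E : V → V → Prop) (S : Finset V) : ℕ :=
  ((S ×ˢ S).filter fun p => E p.1 p.2).card

/-- `c 0, c 1, …, c l` is a walk without backtracking -/
def RW (E : V → V → Prop) (c : ℕ → V) (l : ℕ) : Prop :=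
  (∀ i, i < l → Adj E (c i) (c (i + 1))) ∧ ∀ i, i + 2 ≤ l → c i ≠ c (i + 2)

/-- no closed walk without backtracking of length `1, …, g` -/
def Gir (E : V → V → Prop) (g : ℕ) : Prop :=
  ∀ (c : ℕ → V) (l : ℕ), 1 ≤ l → l ≤ g → RW E c l → c 0 ≠ c l

/-- the lift of the arcs with shifts `t` -/
def liftE (E : V → V → Prop) (t : V → V → ℕ) (D : ℕ) (p q : V × Fin D) : Prop :=
  E p.1 q.1 ∧ (p.2 : ℕ) + t p.1 q.1 = (q.2 : ℕ)

/-- the strict order of the lift: lexicographic, except that for an arc `E a b` one has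
`(a, x) < (b, y)` iff `x + t a b ≤ y` -/
def liftLt (lt E : V → V → Prop) (t : V → V → ℕ) (D : ℕ) (p q : V × Fin D) : Prop :=
  (p.1 = q.1 ∧ p.2 < q.2) ∨ (lt p.1 q.1 ∧ ¬ E p.1 q.1) ∨
    (E p.1 q.1 ∧ (p.2 : ℕ) + t p.1 q.1 ≤ (q.2 : ℕ))

/-- translate of a finite set of integers -/
def sh (F : Finset ℤ) (a : ℤ) : Finset ℤ := F.image (fun z => z + a)

/-- the sets `F u + t u v` and `F v` agree up to a proportion `1 / K` -/
def Good (t : V → V → ℕ) (F : V → Finset ℤ) (K : ℕ) (u v : V) : Prop :=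
  K * (symmDiff (sh (F u) (t u v)) (F v)).card ≤ max (F u).card (F v).card

/-- there is no dense set of arcs along which thin sets are transported by the shifts -/
def NoBad (E : V → V → Prop) (t : V → V → ℕ) (D L K B : ℕ) : Prop :=
  ∀ (W : Finset V) (F : V → Finset ℤ),
    (∀ u ∈ W, (F u).Nonempty ∧ F u ⊆ Finset.Ico 0 (D : ℤ) ∧ (F u).card ≤ L) →
      B * eIn (fun u v => E u v ∧ Good t F K u v) W ≤ (B + 1) * W.card

open scoped Classical in
/-- the ball of radius `r` around the set `Z` in the graph on `W` with arcs `A` -/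
noncomputable def ball (A : V → V → Prop) (W Z : Finset V) : ℕ → Finset V
  | 0 => Z
  | r + 1 => ball A W Z r ∪ W.filter (fun u => ∃ v ∈ ball A W Z r, Adj A u v)

open scoped Classical in
/-- `W` is critical: every subset `S` of `W` is incident to at least `(1 + 1/B) |S|` arcs, and
`W` is connected -/
def Crit (A : V → V → Prop) (W : Finset V) (B : ℕ) : Prop :=
  W.Nonempty ∧ (∀ S ⊆ W, (B + 1) * S.card + B * eIn A (W \ S) ≤ B * eIn A W) ∧
    ∀ S ⊆ W, S.Nonempty → S ≠ W → ∃ u ∈ S, ∃ v ∈ W \ S, Adj A u v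

variable [Fintype V]

/-- weighted systems: `a` is a weight on the vertices, `N` a weight on the arcs, with critical
density `ρ` -/
structure Sys (E : V → V → Prop) (ρ : ℝ) (a : V → ℝ) (N : V → V → ℝ) : Prop where
  a0 : ∀ p, 0 ≤ a p
  N0 : ∀ p q, 0 ≤ N p q
  supp : ∀ p q, N p q ≠ 0 → E p q
  Nl : ∀ p q, N p q ≤ a p
  Nr : ∀ p q, N p q ≤ a q
  ext : ∀ S : Finset V, ∑ p ∈ S, ∑ q ∈ S, N p q ≤ ρ * ∑ p ∈ S, a p
  tot : ∑ p, ∑ q, N p q = ρ * ∑ p, a p

open scoped Classical in
/-- the potential `∑ √(a p a q)` over the arcs -/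
noncomputable def Phi (E : V → V → Prop) (a : V → ℝ) : ℝ :=
  ∑ p, ∑ q, if E p q then √(a p * a q) else 0

/-- `∑ a log a` -/
noncomputable def Ent (a : V → ℝ) : ℝ := ∑ p, a p * Real.log (a p)

/-- projection of weights of vertices -/
def push {D : ℕ} (a : V × Fin D → ℝ) (u : V) : ℝ := ∑ x, a (u, x)

/-- projection of weights of arcs -/
def pushN {D : ℕ} (N : V × Fin D → V × Fin D → ℝ) (u v : V) : ℝ := ∑ x, ∑ y, N (u, x) (v, y)

/-- conditional weight of the digit `x` above `u` -/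
noncomputable def mu {D : ℕ} (a : V × Fin D → ℝ) (u : V) (x : Fin D) : ℝ := a (u, x) / push a u

/-- overlap of `f` shifted by `k` with `g` -/
noncomputable def ovl {D : ℕ} (k : ℕ) (f g : Fin D → ℝ) : ℝ :=
  ∑ x : Fin D, ∑ y : Fin D, if (x : ℕ) + k = (y : ℕ) then min (f x) (g y) else 0

/-- Bhattacharyya sum of `f` shifted by `k` and `g` -/
noncomputable def bhat {D : ℕ} (k : ℕ) (f g : Fin D → ℝ) : ℝ :=
  ∑ x : Fin D, ∑ y : Fin D, if (x : ℕ) + k = (y : ℕ) then √(f x * g y) else 0

/-- weighted total variation distance along the arc `(u, v)` -/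
noncomputable def dd {D : ℕ} (a : V × Fin D → ℝ) (t : V → V → ℕ) (u v : V) : ℝ :=
  min (push a u) (push a v) * (1 - ovl (t u v) (mu a u) (mu a v))

open scoped Classical in
/-- sum of `dd` over the arcs -/
noncomputable def DD {D : ℕ} (E : V → V → Prop) (t : V → V → ℕ) (a : V × Fin D → ℝ) : ℝ :=
  ∑ u, ∑ v, if E u v then dd a t u v else 0

/-- the thin part `(mu - τ)⁺` -/
noncomputable def thn {D : ℕ} (τ : ℝ) (a : V × Fin D → ℝ) (u : V) (x : Fin D) : ℝ :=
  max (mu a u x - τ) 0

/-- total mass of the thin part -/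
noncomputable def PP {D : ℕ} (τ : ℝ) (a : V × Fin D → ℝ) : ℝ :=
  ∑ u, push a u * ∑ x, thn τ a u x

end Pool.Agent.BoolWidth
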