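import Pool.Agent.Lib_MP_0cf6e1_b.Defs

/-!
# Piece DEG: degrees of the arcs
-/

set_option autoImplicit false

open scoped Classical

namespace Pool.Agent.BoolWidth

variable {w : ℕ} {V : Type}

/-- if `E u v` and `E v u` then `u < v < u` -/
theorem MG.asym (M : MG w V) : Asym M.E := by
  intro u v h1 h2
  exact M.irr u (M.tr u v u (M.elt u v h1) (M.elt v u h2))

private theorem deg_card_le {w : ℕ} (S : Finset V) (f : V → Fin w) (v : V)
    (hinj : Set.InjOn f (S : Set V)) (hne : ∀ u ∈ S, f u ≠ f v) : S.card ≤ w - 1 := by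
  have h1 : (S.image f) ⊆ Finset.univ.erase (f v) := by
    intro x hx
    rw [Finset.mem_image] at hx
    obtain ⟨u, hu, rfl⟩ := hx
    exact Finset.mem_erase.2 ⟨hne u hu, Finset.mem_univ _⟩
  have h2 := Finset.card_le_card h1
  rw [Finset.card_image_of_injOn hinj, Finset.card_erase_of_mem (Finset.mem_univ _),
    Finset.card_univ, Fintype.card_fin] at h2
  exact h2

/-- Out-degree: let `E v u` for all `u ∈ S`. The map `ch` is injective on `S`: if `ch a = ch b`, `a ≠ b`, then say `a < b` (`chain`),
and `v < a < b` contradicts `ecov v b a`. By `ech` it does not take the value `ch v`. So `|S| ≤ w - 1` (`S.image ch ⊆ univ.erase (ch v)`).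
In-degree: the same with `a < b < v`. -/
theorem MG.deg (M : MG w V) : DegLE M.E (w - 1) := by
  refine ⟨fun v S hS => ?_, fun v S hS => ?_⟩
  · refine deg_card_le S M.ch v ?_ (fun u hu h => M.ech v u (hS u hu) h.symm)
    intro a ha b hb hab
    by_contra hne
    rcases M.chain a b hab hne with h | h
    · exact M.ecov v b a (hS b hb) (M.elt v a (hS a ha)) h
    · exact M.ecov v a b (hS a ha) (M.elt v b (hS b hb)) h
  · refine deg_card_le S M.ch v ?_ (fun u hu h => M.ech u v (hS u hu) h)
    intro a ha b hb hab
    by_contra hne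
    rcases M.chain a b hab hne with h | h
    · exact M.ecov a v b (hS a ha) h (M.elt b v (hS b hb))
    · exact M.ecov b v a (hS b hb) h (M.elt a v (hS a ha))

end Pool.Agent.BoolWidth
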