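import Pool.Agent.Lib_MP_0cf6e1_b.PDefs

/-!
# Piece PARAMA: parameters, part 1
-/

set_option autoImplicit false

namespace Pool.Agent.BoolWidth

theorem parama_pow4 (q : ℕ) (h : 16 ≤ q) : q ^ 4 ≤ 2 ^ q := by
  induction q, h using Nat.le_induction with
  | base => norm_num
  | succ n hn ih =>
    have h1 : (n + 1) ^ 4 ≤ 2 * n ^ 4 := by
      have e : (n + 1) ^ 4 = n ^ 4 + 4 * n ^ 3 + 6 * n ^ 2 + 4 * n + 1 := by ring
      have a1 : 16 * n ^ 3 ≤ n ^ 4 := by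
        calc 16 * n ^ 3 ≤ n * n ^ 3 := Nat.mul_le_mul_right _ hn
          _ = n ^ 4 := by ring
      have a2 : 16 * n ^ 2 ≤ n ^ 3 := by
        calc 16 * n ^ 2 ≤ n * n ^ 2 := Nat.mul_le_mul_right _ hn
          _ = n ^ 3 := by ring
      have a3 : 16 * n ≤ n ^ 2 := by
        calc 16 * n ≤ n * n := Nat.mul_le_mul_right _ hn
          _ = n ^ 2 := by ring
      omega
    calc (n + 1) ^ 4 ≤ 2 * n ^ 4 := h1
      _ ≤ 2 * 2 ^ n := Nat.mul_le_mul_left _ ih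
      _ = 2 ^ (n + 1) := by ring

theorem parama_sq (a q : ℕ) (h : 16 ≤ q) (ha : a ≤ q) : a * q ^ 2 ≤ 2 ^ q := by
  have h1 : a * q ^ 2 ≤ q ^ 4 := by
    calc a * q ^ 2 ≤ q * q ^ 2 := Nat.mul_le_mul_right _ ha
      _ = q ^ 3 := by ring
      _ ≤ q ^ 4 := Nat.pow_le_pow_right (by omega) (by norm_num)
  exact h1.trans (parama_pow4 q h)

/-- `n` is a polynomial in `q` (`pn w q ≤ 2^70 w^20 q^2` for `q ≥ 1`), so for large `q` all four hold. -/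
theorem exists_q (w : ℕ) : ∃ q : ℕ, 32 * w ^ 2 + 10 ≤ q ∧ 16 * w * pn w q ≤ 2 ^ q ∧ 20 * w * q + w ≤ 2 ^ q := by
  obtain ⟨K, hK⟩ : ∃ K : ℕ, K = 64 * (2 * (w - 1) * (8 * w) * (32 * w)) := ⟨_, rfl⟩
  obtain ⟨a, ha⟩ : ∃ a : ℕ, a = 16 * w * (32 * w * (w - 1) *
    (8 * (w - 1) * (8 * w) ^ 2 * (2 + K) ^ 2 * (32 * w))) := ⟨_, rfl⟩
  refine ⟨32 * w ^ 2 + 16 + a + 21 * w, by omega, ?_, ?_⟩
  · obtain ⟨q, hq⟩ : ∃ q : ℕ, q = 32 * w ^ 2 + 16 + a + 21 * w := ⟨_, rfl⟩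
    rw [← hq]
    have hq16 : 16 ≤ q := by omega
    have hqa : a ≤ q := by omega
    refine le_trans ?_ (parama_sq a q hq16 hqa)
    have e1 : pK w q = K * q := by
      unfold pK pr
      rw [hK]
      ring
    have e2 : 2 + pK w q ≤ (2 + K) * q := by
      rw [e1, Nat.add_mul]
      omega
    have e3 : (2 + pK w q) ^ 2 ≤ (2 + K) ^ 2 * q ^ 2 := by
      rw [← Nat.mul_pow]
      exact Nat.pow_le_pow_left e2 2
    unfold pn pA
    rw [ha]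
    calc 16 * w * (32 * w * (w - 1) * (8 * (w - 1) * (8 * w) ^ 2 * (2 + pK w q) ^ 2 * (32 * w)))
        ≤ 16 * w * (32 * w * (w - 1) * (8 * (w - 1) * (8 * w) ^ 2 * ((2 + K) ^ 2 * q ^ 2) * (32 * w))) := by
          gcongr
      _ = 16 * w * (32 * w * (w - 1) * (8 * (w - 1) * (8 * w) ^ 2 * (2 + K) ^ 2 * (32 * w))) * q ^ 2 := by
          ring
  · obtain ⟨q, hq⟩ : ∃ q : ℕ, q = 32 * w ^ 2 + 16 + a + 21 * w := ⟨_, rfl⟩
    rw [← hq]
    have hq16 : 16 ≤ q := by omega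
    refine le_trans ?_ (parama_sq (21 * w) q hq16 (by omega))
    have h1 : w * q ≤ w * q ^ 2 := by
      apply Nat.mul_le_mul_left
      nlinarith
    have h2 : w ≤ w * q := Nat.le_mul_of_pos_right _ (by omega)
    have h3 : 20 * w * q = 20 * (w * q) := by ring
    have h4 : 21 * w * q ^ 2 = 21 * (w * q ^ 2) := by ring
    rw [h3, h4]
    omega

theorem parama_bern (X : ℕ) (hX : 1 ≤ X) : 2 * X ^ X ≤ (X + 1) ^ X := by
  obtain ⟨m, rfl⟩ : ∃ m, X = m + 1 := ⟨X - 1, by omega⟩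
  have key : ∀ n : ℕ, (m + 1) ^ (n + 1) + (n + 1) * (m + 1) ^ n ≤ (m + 1 + 1) ^ (n + 1) := by
    intro n
    induction n with
    | zero => simp
    | succ n ih =>
      have e1 : (m + 1 + 1) ^ (n + 1 + 1) = (m + 1 + 1) * (m + 1 + 1) ^ (n + 1) := by ring
      rw [e1]
      calc (m + 1) ^ (n + 1 + 1) + (n + 1 + 1) * (m + 1) ^ (n + 1)
          ≤ (m + 1 + 1) * ((m + 1) ^ (n + 1) + (n + 1) * (m + 1) ^ n) := by
            have : (m + 1 + 1) * ((m + 1) ^ (n + 1) + (n + 1) * (m + 1) ^ n) =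
              (m + 1) ^ (n + 1 + 1) + (n + 1 + 1) * (m + 1) ^ (n + 1) + (n + 1) * (m + 1) ^ n := by
              ring
            omega
        _ ≤ (m + 1 + 1) * (m + 1 + 1) ^ (n + 1) := Nat.mul_le_mul_left _ ih
  have := key m
  have e2 : (m + 1) * (m + 1) ^ m = (m + 1) ^ (m + 1) := by ring
  omega

/-- Bernoulli: `(1 + 1/x)^x ≥ 2` with `x = 2 (w-1) (8 w)`, power `32 w q` -/
theorem p_grow (w q : ℕ) (hw : 3 ≤ w) :
    pM w q * (2 * (w - 1) * (8 * w)) ^ pr w q ≤ (2 * (w - 1) * (8 * w) + 1) ^ pr w q := by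
  unfold pM pr
  obtain ⟨X, hX⟩ : ∃ X : ℕ, X = 2 * (w - 1) * (8 * w) := ⟨_, rfl⟩
  rw [← hX]
  have hX1 : 1 ≤ X := by
    rw [hX]
    apply Nat.mul_pos
    · apply Nat.mul_pos
      · norm_num
      · omega
    · omega
  obtain ⟨N, hN⟩ : ∃ N : ℕ, N = 32 * w * q := ⟨_, rfl⟩
  rw [← hN, pow_mul X, pow_mul (X + 1), ← Nat.mul_pow]
  exact Nat.pow_le_pow_left (parama_bern X hX1) _

/-- `D + 1 ≤ 2^(16 w q + q)`, `L (16 w q + q) ≤ 2^(32 w q)` -/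
theorem p_DL (w q : ℕ) (hw : 3 ≤ w) (h1 : 32 * w ^ 2 + 10 ≤ q) (h2 : 16 * w * pn w q ≤ 2 ^ q) (h3 : 20 * w * q + w ≤ 2 ^ q) :
    (pD w q + 1) ^ pL w q ≤ 2 ^ pM w q := by
  have hD : pD w q + 1 ≤ 2 ^ (q + 16 * w * q) := by
    unfold pD pC
    have e1 : 2 * (8 * w * pn w q * 2 ^ (16 * w * q)) ≤ 2 ^ (q + 16 * w * q) := by
      calc 2 * (8 * w * pn w q * 2 ^ (16 * w * q)) = 16 * w * pn w q * 2 ^ (16 * w * q) := by ring
        _ ≤ 2 ^ q * 2 ^ (16 * w * q) := Nat.mul_le_mul_right _ h2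
        _ = 2 ^ (q + 16 * w * q) := by rw [pow_add]
    have e2 : 2 ≤ 2 ^ (q + 16 * w * q) := by
      calc 2 = 2 ^ 1 := by norm_num
        _ ≤ 2 ^ (q + 16 * w * q) := Nat.pow_le_pow_right (by norm_num) (by omega)
    omega
  have hL : (q + 16 * w * q) * pL w q ≤ pM w q := by
    unfold pL pM
    calc (q + 16 * w * q) * 2 ^ ((16 * w - 1) * q)
        ≤ 2 ^ (q + 16 * w * q) * 2 ^ ((16 * w - 1) * q) :=
          Nat.mul_le_mul_right _ (Nat.lt_two_pow_self).le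
      _ = 2 ^ (32 * w * q) := by
          rw [← pow_add]
          congr 1
          rw [Nat.sub_mul]
          have : q ≤ 16 * w * q := Nat.le_mul_of_pos_left _ (by omega)
          have e : 32 * w * q = 16 * w * q + 16 * w * q := by ring
          omega
  calc (pD w q + 1) ^ pL w q ≤ (2 ^ (q + 16 * w * q)) ^ pL w q := Nat.pow_le_pow_left hD _
    _ = 2 ^ ((q + 16 * w * q) * pL w q) := by rw [← pow_mul]
    _ ≤ 2 ^ pM w q := Nat.pow_le_pow_right (by norm_num) hL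

/-- `2^(q-1) (2 L) = 2^(16 w q)` -/
theorem p_s (w q : ℕ) (hw : 3 ≤ w) (hq : 1 ≤ q) : 2 ^ (q - 1) * (2 * pL w q) ≤ pC w q := by
  unfold pL pC
  have : 2 ^ (q - 1) * (2 * 2 ^ ((16 * w - 1) * q)) = 2 ^ (16 * w * q) := by
    have e : 2 ^ (q - 1) * (2 * 2 ^ ((16 * w - 1) * q)) = 2 ^ (q - 1 + 1 + (16 * w - 1) * q) := by
      rw [pow_add, pow_add]
      ring
    rw [e]
    congr 1
    rw [Nat.sub_mul]
    have : q ≤ 16 * w * q := Nat.le_mul_of_pos_left _ (by omega)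
    omega
  exact this.le

/-- `16 (w-1)^2 2^(w-1) ≤ 2^(4 w)` -/
theorem p_y (w : ℕ) (hw : 3 ≤ w) : (2 * (w - 1)) ^ 2 * 2 ^ (w - 1) * 4 ≤ 2 ^ (4 * w) := by
  have h1 : w - 1 ≤ 2 ^ (w - 1) := (Nat.lt_two_pow_self).le
  calc (2 * (w - 1)) ^ 2 * 2 ^ (w - 1) * 4
      ≤ (2 * 2 ^ (w - 1)) ^ 2 * 2 ^ (w - 1) * 4 := by gcongr
    _ = 2 ^ ((w - 1) * 2 + (w - 1) + 4) := by
        rw [pow_add, pow_add, pow_mul]
        ring
    _ ≤ 2 ^ (4 * w) := Nat.pow_le_pow_right (by norm_num) (by omega)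

end Pool.Agent.BoolWidth
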