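import Pool.Agent.Lib_MP_0cf6e1_b.PDefs

/-!
# Piece PARAMB: parameters, part 2
-/

set_option autoImplicit false

namespace Pool.Agent.BoolWidth

private lemma paramb_lt (x : ℕ) : x + 1 ≤ 2 ^ x := Nat.lt_two_pow_self

private lemma paramb_w1 (w : ℕ) (hw : 3 ≤ w) : ∃ u : ℕ, 2 ≤ u ∧ w = u + 1 :=
  ⟨w - 1, by omega, by omega⟩

private lemma paramb_A_pos (w q : ℕ) (hw : 3 ≤ w) : 1 ≤ pA w q := by
  unfold pA
  have h1 : 1 ≤ w - 1 := by omega
  have h2 : 1 ≤ w := by omega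
  have : 0 < 8 * (w - 1) * (8 * w) ^ 2 * (2 + pK w q) ^ 2 * (32 * w) := by positivity
  exact this

private lemma paramb_n_pos (w q : ℕ) (hw : 3 ≤ w) : 1 ≤ pn w q := by
  unfold pn
  have h1 : 1 ≤ w - 1 := by omega
  have h2 : 1 ≤ w := by omega
  have h3 := paramb_A_pos w q hw
  have : 0 < 32 * w * (w - 1) * pA w q := by positivity
  exact this

/-- The base has at most `2^(n q)` vertices: with `g = 2 pr`, `T ≤ 2^(16 w g)`, `w ≤ 2^w`, `Cb ≤ 2^(2 (g+1) + 2 w g + 1)` (from `x ≤ 2^x`): `w T (T Cb)^g ≤ 2^(w + 16 w g + g (16 w g + 4 g + 2 w g + 1)) ≤ 2^(60 w g^2)` and `60 w g^2 ≤ n` (`pK = 32 g`). -/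
theorem p_base (w q : ℕ) (hw : 3 ≤ w) (hq : 1 ≤ q) :
    w * pT w q * (pT w q * pCb w q) ^ (2 * pr w q) ≤ 2 ^ (pn w q * q) := by
  have hn : pn w q = 32 * w * (w - 1) * (8 * (w - 1) * (8 * w) ^ 2 * (2 + 64 * pr w q) ^ 2 * (32 * w)) := rfl
  have hT : pT w q = 8 * w * (2 * pr w q + 1) := rfl
  have hCb : pCb w q = (2 * pr w q + 1) ^ 2 * (2 * (w - 1)) ^ (2 * pr w q) + 1 := rfl
  generalize pr w q = R at *
  have hw2 : w ≤ 2 ^ w := (Nat.le_succ w).trans (paramb_lt w)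
  have hR : 2 * R + 1 ≤ 2 ^ (2 * R) := paramb_lt (2 * R)
  have hTle : pT w q ≤ 2 ^ (3 + w + 2 * R) := by
    rw [hT, pow_add, pow_add]
    have : (8 : ℕ) = 2 ^ 3 := by norm_num
    rw [this]
    gcongr
  have h2w : 2 * (w - 1) ≤ 2 ^ w := by
    obtain ⟨u, hu, rfl⟩ := paramb_w1 w hw
    have := paramb_lt u
    simp only [Nat.add_sub_cancel]
    rw [pow_succ]
    omega
  have hCle : pCb w q ≤ 2 ^ (1 + 4 * R + 2 * R * w) := by
    rw [hCb]
    have h1 : (2 * R + 1) ^ 2 * (2 * (w - 1)) ^ (2 * R) ≤ (2 ^ (2 * R)) ^ 2 * (2 ^ w) ^ (2 * R) := by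
      gcongr
    have h2 : (2 ^ (2 * R)) ^ 2 * (2 ^ w) ^ (2 * R) = 2 ^ (4 * R + 2 * R * w) := by
      rw [← pow_mul, ← pow_mul, ← pow_add]
      congr 1
      ring
    rw [h2] at h1
    have h3 : 1 ≤ 2 ^ (4 * R + 2 * R * w) := Nat.one_le_two_pow
    have h4 : 2 ^ (1 + 4 * R + 2 * R * w) = 2 * 2 ^ (4 * R + 2 * R * w) := by
      rw [add_assoc, pow_add]
      norm_num
    omega
  have hTC : (pT w q * pCb w q) ^ (2 * R) ≤ 2 ^ ((4 + w + 6 * R + 2 * R * w) * (2 * R)) := by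
    have h1 : pT w q * pCb w q ≤ 2 ^ (4 + w + 6 * R + 2 * R * w) := by
      refine (Nat.mul_le_mul hTle hCle).trans (le_of_eq ?_)
      rw [← pow_add]
      congr 1
      ring
    rw [pow_mul 2]
    exact Nat.pow_le_pow_left h1 _
  have hall : w * pT w q * (pT w q * pCb w q) ^ (2 * R) ≤
      2 ^ (w + (3 + w + 2 * R) + (4 + w + 6 * R + 2 * R * w) * (2 * R)) := by
    rw [pow_add, pow_add 2 w]
    gcongr
  refine hall.trans (Nat.pow_le_pow_right (by norm_num) ?_)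
  have hnq : pn w q ≤ pn w q * q := Nat.le_mul_of_pos_right _ hq
  refine le_trans ?_ hnq
  rw [hn]
  obtain ⟨u, hu, rfl⟩ := paramb_w1 w hw
  simp only [Nat.add_sub_cancel]
  have e1 : 32 * (u + 1) * u * (8 * u * (8 * (u + 1)) ^ 2 * (2 + 64 * R) ^ 2 * (32 * (u + 1))) =
      (524288 * u * u * (u + 1) * (u + 1) * (u + 1)) * ((u + 1) * (2 + 64 * R) ^ 2) := by ring
  rw [e1]
  have e2 : 2 ≤ 524288 * u * u * (u + 1) * (u + 1) * (u + 1) := by
    have : 1 ≤ u * u * (u + 1) * (u + 1) * (u + 1) := by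
      have : 0 < u * u * (u + 1) * (u + 1) * (u + 1) := by positivity
      exact this
    nlinarith
  refine le_trans ?_ (Nat.mul_le_mul_right _ e2)
  nlinarith [Nat.zero_le (u * R), Nat.zero_le (u * R ^ 2), Nat.zero_le (R ^ 2)]

private lemma paramb_Dn (w q : ℕ) (h2 : 16 * w * pn w q ≤ 2 ^ q) :
    pD w q ^ pn w q ≤ 2 ^ ((16 * w + 1) * q * pn w q) := by
  have hD : pD w q ≤ 2 ^ ((16 * w + 1) * q) := by
    have h1 : pD w q = 8 * w * pn w q * 2 ^ (16 * w * q) := rfl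
    rw [h1, show (16 * w + 1) * q = q + 16 * w * q by ring, pow_add]
    apply Nat.mul_le_mul_right
    have : 8 * w * pn w q ≤ 16 * w * pn w q := by
      apply Nat.mul_le_mul_right
      omega
    omega
  calc pD w q ^ pn w q ≤ (2 ^ ((16 * w + 1) * q)) ^ pn w q := Nat.pow_le_pow_left hD _
    _ = _ := by rw [← pow_mul]

/-- `D ≤ 2^(16 w q + q)`, so `pV ≤ 2^((16 w + 2) q n)`, and `(16 w + 2) q n + 2 ≤ 2^(32 w q)` -/
theorem p_V (w q : ℕ) (hw : 3 ≤ w) (h1 : 32 * w ^ 2 + 10 ≤ q) (h2 : 16 * w * pn w q ≤ 2 ^ q) (h3 : 20 * w * q + w ≤ 2 ^ q)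
    (hb : w * pT w q * (pT w q * pCb w q) ^ (2 * pr w q) ≤ 2 ^ (pn w q * q)) :
    pV w q ≤ 2 ^ ((16 * w + 2) * q * pn w q) ∧ pV w q < 2 ^ (pM w q - 1) := by
  have hV : pV w q ≤ 2 ^ ((16 * w + 2) * q * pn w q) := by
    have e : pV w q = w * pT w q * (pT w q * pCb w q) ^ (2 * pr w q) * pD w q ^ pn w q := rfl
    rw [e]
    refine (Nat.mul_le_mul hb (paramb_Dn w q h2)).trans (le_of_eq ?_)
    rw [← pow_add]
    congr 1
    ring
  refine ⟨hV, lt_of_le_of_lt hV ?_⟩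
  apply Nat.pow_lt_pow_right (by norm_num)
  have hq : 10 ≤ q := by omega
  have hn : pn w q ≤ 2 ^ q := by
    have : 1 * pn w q ≤ 16 * w * pn w q := by
      apply Nat.mul_le_mul_right
      omega
    omega
  have ha : (16 * w + 2) * q ≤ 2 ^ q := by
    have : (16 * w + 2) * q ≤ 20 * w * q := by
      apply Nat.mul_le_mul_right
      omega
    omega
  have hb2 : (16 * w + 2) * q * pn w q ≤ 2 ^ (2 * q) := by
    rw [two_mul, pow_add]
    exact Nat.mul_le_mul ha hn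
  have hc : 2 ^ (2 * q + 1) ≤ pM w q := by
    unfold pM
    apply Nat.pow_le_pow_right (by norm_num)
    nlinarith
  have hd : 2 ^ 2 ≤ 2 ^ (2 * q) := Nat.pow_le_pow_right (by norm_num) (by omega)
  rw [pow_succ] at hc
  omega

private lemma paramb_bern (x : ℝ) (n : ℕ) (_h0 : 0 ≤ x) (h1 : x ≤ 1) :
    1 - (n : ℝ) * x ≤ (1 - x) ^ n := by
  have := one_add_mul_le_pow (a := -x) (by linarith) n
  have e : (1 : ℝ) + -x = 1 - x := by ring
  rw [e] at this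
  linarith

/-- `(1 - 1/T)^(2 pr + 1) ≥ 1 - (2 pr + 1)/T = 1 - 1/(8 w)`, `(1 - C/D)^n ≥ 1 - 1/(8 w)` (Bernoulli), `(w-1)(1 - 1/(8 w))^2 ≥ w - 5/4` -/
theorem p_arcs (w q : ℕ) (hw : 3 ≤ w) (hq : 1 ≤ q) :
    (4 * w - 5) * pV w q ≤ 4 * ((pT w q - 1) * (w * (w - 1)) * ((pT w q - 1) * pCb w q) ^ (2 * pr w q) *
      (pD w q - pC w q) ^ pn w q) := by
  have hT : pT w q = 8 * w * (2 * pr w q + 1) := rfl
  have hD : pD w q = 8 * w * pn w q * pC w q := rfl
  have hV : pV w q = w * pT w q * (pT w q * pCb w q) ^ (2 * pr w q) * pD w q ^ pn w q := rfl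
  have hn1 := paramb_n_pos w q hw
  have hC1 : 1 ≤ pC w q := Nat.one_le_two_pow
  rw [hV]
  generalize pV w q = V at *
  generalize pr w q = R at *
  generalize pCb w q = Cb at *
  generalize pn w q = n at *
  generalize pC w q = C at *
  generalize pT w q = T at *
  generalize pD w q = D at *
  have hT1 : 1 ≤ T := by
    rw [hT]
    have : 0 < 8 * w * (2 * R + 1) := by positivity
    exact this
  have hDC : C ≤ D := by
    rw [hD]
    have h1 : 1 * C ≤ 8 * w * n * C := by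
      apply Nat.mul_le_mul_right
      have : 0 < 8 * w * n := by positivity
      exact this
    omega
  have hwR : (3 : ℝ) ≤ w := by exact_mod_cast hw
  have hTR : (T : ℝ) = 8 * w * (2 * R + 1) := by rw [hT]; push_cast; ring
  have hDR : (D : ℝ) = 8 * w * n * C := by rw [hD]; push_cast; ring
  have hT0 : (0 : ℝ) < T := by exact_mod_cast hT1
  have hC0 : (0 : ℝ) < C := by exact_mod_cast hC1
  have hn0 : (0 : ℝ) < n := by exact_mod_cast hn1
  have hD0 : (0 : ℝ) < D := by rw [hDR]; positivity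
  have key : (((4 * w - 5) * (w * T * (T * Cb) ^ (2 * R) * D ^ n) : ℕ) : ℝ) ≤
      ((4 * ((T - 1) * (w * (w - 1)) * ((T - 1) * Cb) ^ (2 * R) * (D - C) ^ n) : ℕ) : ℝ) := by
    push_cast [Nat.cast_sub hT1, Nat.cast_sub hDC, Nat.cast_sub (by omega : 5 ≤ 4 * w), Nat.cast_sub (by omega : 1 ≤ w)]
    -- Bernoulli for T
    have b1 : (1 - 1 / (8 * (w : ℝ))) * (T : ℝ) ^ (2 * R + 1) ≤ ((T : ℝ) - 1) ^ (2 * R + 1) := by
      have h1 := paramb_bern (1 / T) (2 * R + 1) (by positivity)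
        (by rw [div_le_one hT0]; exact_mod_cast hT1)
      have e1 : ((2 * R + 1 : ℕ) : ℝ) * (1 / T) = 1 / (8 * (w : ℝ)) := by
        rw [hTR]
        push_cast
        field_simp
      rw [e1] at h1
      have e2 : ((T : ℝ) - 1) ^ (2 * R + 1) = (1 - 1 / (T : ℝ)) ^ (2 * R + 1) * (T : ℝ) ^ (2 * R + 1) := by
        rw [← mul_pow]
        congr 1
        field_simp
      rw [e2]
      exact mul_le_mul_of_nonneg_right h1 (by positivity)
    have b2 : (1 - 1 / (8 * (w : ℝ))) * (D : ℝ) ^ n ≤ ((D : ℝ) - C) ^ n := by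
      have h1 := paramb_bern (C / D) n (by positivity)
        (by rw [div_le_one hD0]; exact_mod_cast hDC)
      have e1 : (n : ℝ) * (C / D) = 1 / (8 * (w : ℝ)) := by
        rw [hDR]
        field_simp
      rw [e1] at h1
      have e2 : ((D : ℝ) - C) ^ n = (1 - (C : ℝ) / (D : ℝ)) ^ n * (D : ℝ) ^ n := by
        rw [← mul_pow]
        congr 1
        field_simp
      rw [e2]
      exact mul_le_mul_of_nonneg_right h1 (by positivity)
    have hx0 : 0 ≤ 1 - 1 / (8 * (w : ℝ)) := by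
      have : 1 / (8 * (w : ℝ)) ≤ 1 := by
        rw [div_le_one (by positivity)]
        linarith
      linarith
    have hsc : 4 * (w : ℝ) - 5 ≤ 4 * ((w : ℝ) - 1) * ((1 - 1 / (8 * (w : ℝ))) * (1 - 1 / (8 * (w : ℝ)))) := by
      have h1 : (1 - 1 / (4 * (w : ℝ))) ≤ (1 - 1 / (8 * (w : ℝ))) * (1 - 1 / (8 * (w : ℝ))) := by
        have e : (1 - 1 / (8 * (w : ℝ))) * (1 - 1 / (8 * (w : ℝ))) =
            1 - 1 / (4 * (w : ℝ)) + (1 / (8 * (w : ℝ))) ^ 2 := by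
          field_simp
          ring
        rw [e]
        have := sq_nonneg (1 / (8 * (w : ℝ)))
        linarith
      have h2 : 4 * ((w : ℝ) - 1) * (1 - 1 / (4 * (w : ℝ))) ≤
          4 * ((w : ℝ) - 1) * ((1 - 1 / (8 * (w : ℝ))) * (1 - 1 / (8 * (w : ℝ)))) :=
        mul_le_mul_of_nonneg_left h1 (by linarith)
      refine le_trans ?_ h2
      have e : 4 * ((w : ℝ) - 1) * (1 - 1 / (4 * (w : ℝ))) = 4 * w - 5 + 1 / w := by
        field_simp
        ring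
      rw [e]
      have : 0 ≤ 1 / (w : ℝ) := by positivity
      linarith
    have hprod : ((1 - 1 / (8 * (w : ℝ))) * (T : ℝ) ^ (2 * R + 1)) * ((1 - 1 / (8 * (w : ℝ))) * (D : ℝ) ^ n) ≤
        ((T : ℝ) - 1) ^ (2 * R + 1) * ((D : ℝ) - C) ^ n := by
      apply mul_le_mul b1 b2 (by positivity)
      apply pow_nonneg
      have : (1 : ℝ) ≤ T := by exact_mod_cast hT1
      linarith
    have hw1 : 0 ≤ (w : ℝ) - 1 := by linarith
    calc (4 * (w : ℝ) - 5) * (w * T * (T * Cb) ^ (2 * R) * D ^ n)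
        = (4 * (w : ℝ) - 5) * (w * (Cb : ℝ) ^ (2 * R) * ((T : ℝ) ^ (2 * R + 1) * D ^ n)) := by
          rw [mul_pow]; ring
      _ ≤ (4 * ((w : ℝ) - 1) * ((1 - 1 / (8 * (w : ℝ))) * (1 - 1 / (8 * (w : ℝ))))) *
          (w * (Cb : ℝ) ^ (2 * R) * ((T : ℝ) ^ (2 * R + 1) * D ^ n)) :=
          mul_le_mul_of_nonneg_right hsc (by positivity)
      _ = 4 * ((w : ℝ) - 1) * (w * (Cb : ℝ) ^ (2 * R)) *
          (((1 - 1 / (8 * (w : ℝ))) * (T : ℝ) ^ (2 * R + 1)) * ((1 - 1 / (8 * (w : ℝ))) * (D : ℝ) ^ n)) := by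
          ring
      _ ≤ 4 * ((w : ℝ) - 1) * (w * (Cb : ℝ) ^ (2 * R)) *
          (((T : ℝ) - 1) ^ (2 * R + 1) * ((D : ℝ) - C) ^ n) :=
          mul_le_mul_of_nonneg_left hprod (by positivity)
      _ = 4 * (((T : ℝ) - 1) * (w * ((w : ℝ) - 1)) * (((T : ℝ) - 1) * Cb) ^ (2 * R) * ((D : ℝ) - C) ^ n) := by
          rw [mul_pow]; ring
  exact_mod_cast key

private lemma paramb_B (w q : ℕ) (hw : 3 ≤ w) : ∃ B : ℕ, 1 ≤ B ∧ pA w q * (w - 1) = B ∧
    pn w q = 32 * w * B ∧ pm w q = (32 * w - 2) * B := by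
  refine ⟨pA w q * (w - 1), ?_, rfl, ?_, ?_⟩
  · have h1 := paramb_A_pos w q hw
    have h2 : 1 ≤ w - 1 := by omega
    exact Nat.mul_le_mul h1 h2
  · unfold pn; ring
  · have h1 : pm w q = pn w q - 2 * pA w q * (w - 1) := rfl
    have h2 : pn w q = 32 * w * (pA w q * (w - 1)) := by unfold pn; ring
    rw [h1, h2, Nat.sub_mul]
    congr 1
    ring

/-- `n = 32 w (w-1) A'`, `m = n - 2 A' (w-1)` -/
theorem p_m (w q : ℕ) (hw : 3 ≤ w) : 32 * w * pm w q + 32 * w * (pA w q * (w - 1)) + pn w q ≤ 32 * w * pn w q ∧ 1 ≤ pm w q := by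
  obtain ⟨B, hB, h1, h2, h3⟩ := paramb_B w q hw
  rw [h1, h2, h3]
  obtain ⟨u, hu⟩ : ∃ u, 32 * w = u + 2 := ⟨32 * w - 2, by omega⟩
  have hu1 : 1 ≤ u := by omega
  rw [hu]
  simp only [Nat.add_sub_cancel]
  constructor
  · nlinarith
  · exact Nat.mul_le_mul hu1 hB

theorem p_sz (w q : ℕ) (hw : 3 ≤ w) (hq : 1 ≤ q) (hm : 1 ≤ pm w q) : 1 ≤ ps w q ∧ ps w q * 2 ^ pm w q < pL w q ^ pm w q := by
  refine ⟨Nat.one_le_two_pow, ?_⟩
  unfold ps pL
  rw [← pow_add, ← pow_mul]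
  apply Nat.pow_lt_pow_right (by norm_num)
  have h1 : 2 ≤ (16 * w - 1) * q := by
    have : 2 * 1 ≤ (16 * w - 1) * q := Nat.mul_le_mul (by omega) hq
    omega
  generalize (16 * w - 1) * q = a at *
  generalize pm w q = m at *
  obtain ⟨b, rfl⟩ : ∃ b, a = b + 1 := ⟨a - 1, by omega⟩
  simp only [Nat.add_sub_cancel]
  have hb : 1 ≤ b * m := Nat.mul_le_mul (by omega : 1 ≤ b) hm
  have e : (b + 1) * m = b * m + m := by ring
  omega

/-- `pV / ps ≤ 2^(5 q n)`: `((16 w - 1) q - 1) m - 1 ≥ ((16 w - 1) q - 1) (n - n/(16 w)) - 1 ≥ (16 w - 3) q n` (with `n = 16 w * (2 (w-1) A')`, `m = (16 w - 1) * (2 (w-1) A')`). So `(2 (pV / ps) + 2)^(w-2) ≤ 2^((5 q n + 2) (w - 2))`, and `pV ≥ D^n ≥ 2^(16 w q n)`. -/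
theorem p_final (w q : ℕ) (hw : 3 ≤ w) (h1 : 32 * w ^ 2 + 10 ≤ q) (hV : pV w q ≤ 2 ^ ((16 * w + 2) * q * pn w q)) :
    8 * w ^ 3 * (2 * (pV w q / ps w q) + 2) ^ (w - 2) < (4 * w + 4) * pV w q := by
  have hq : 10 ≤ q := by omega
  have hn1 := paramb_n_pos w q hw
  obtain ⟨B, hB, hAB, hn, hm⟩ := paramb_B w q hw
  -- lower bound of pV
  have hVlow : 2 ^ (16 * w * q * pn w q) ≤ pV w q := by
    have e : pV w q = w * pT w q * (pT w q * pCb w q) ^ (2 * pr w q) * pD w q ^ pn w q := rfl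
    rw [e]
    have hD : 2 ^ (16 * w * q) ≤ pD w q := by
      have e : pD w q = 8 * w * pn w q * 2 ^ (16 * w * q) := rfl
      rw [e]
      apply Nat.le_mul_of_pos_left
      positivity
    have h2 : 2 ^ (16 * w * q * pn w q) ≤ pD w q ^ pn w q := by
      rw [pow_mul]
      exact Nat.pow_le_pow_left hD _
    refine h2.trans (Nat.le_mul_of_pos_left _ ?_)
    have hT0 : 0 < pT w q := by unfold pT; positivity
    have hC0 : 0 < pCb w q := by unfold pCb; positivity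
    positivity
  -- the exponent of ps
  have hexp : (16 * w + 2) * q * pn w q ≤ (((16 * w - 1) * q - 1) * pm w q - 1) + (5 * q * pn w q + 1) := by
    rw [hn, hm]
    obtain ⟨u, hu⟩ : ∃ u, 16 * w = u + 1 := ⟨16 * w - 1, by omega⟩
    have hu1 : 1 ≤ u := by omega
    have e1 : 32 * w = 2 * u + 2 := by omega
    rw [e1, hu]
    simp only [Nat.add_sub_cancel]
    have huq : 1 ≤ u * q := Nat.mul_pos hu1 (by omega : 0 < q)
    obtain ⟨v, hv⟩ : ∃ v, u * q = v + 1 := ⟨u * q - 1, by omega⟩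
    rw [hv]
    simp only [Nat.add_sub_cancel]
    have h5 : (u + 1 + 2) * q * ((2 * u + 2) * B) ≤ v * (2 * u * B) + 5 * q * ((2 * u + 2) * B) := by
      have e2 : v * (2 * u * B) + 2 * u * B = (u * q) * (2 * u * B) := by rw [hv]; ring
      have e3 : 2 * u * B ≤ q * (2 * u * B) := Nat.le_mul_of_pos_left _ (by omega)
      nlinarith [Nat.zero_le (u * q * B), Nat.zero_le (q * B)]
    omega
  have hdiv : pV w q / ps w q ≤ 2 ^ (5 * q * pn w q + 1) := by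
    have hps : ps w q = 2 ^ (((16 * w - 1) * q - 1) * pm w q - 1) := rfl
    have h2 : pV w q ≤ ps w q * 2 ^ (5 * q * pn w q + 1) := by
      rw [hps, ← pow_add]
      exact hV.trans (Nat.pow_le_pow_right (by norm_num) hexp)
    exact Nat.div_le_of_le_mul h2
  have hbase : 2 * (pV w q / ps w q) + 2 ≤ 2 ^ (5 * q * pn w q + 3) := by
    have h3 : 1 ≤ 2 ^ (5 * q * pn w q + 1) := Nat.one_le_two_pow
    have e : 2 ^ (5 * q * pn w q + 3) = 4 * 2 ^ (5 * q * pn w q + 1) := by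
      rw [show 5 * q * pn w q + 3 = (5 * q * pn w q + 1) + 2 by ring, pow_add _ _ 2]
      ring
    omega
  have hpow : (2 * (pV w q / ps w q) + 2) ^ (w - 2) ≤ 2 ^ ((5 * q * pn w q + 3) * (w - 2)) := by
    rw [pow_mul]
    exact Nat.pow_le_pow_left hbase _
  have hw3 : 8 * w ^ 3 ≤ 2 ^ (3 + 3 * w) := by
    have hw2 : w ≤ 2 ^ w := (Nat.le_succ w).trans (paramb_lt w)
    rw [pow_add, mul_comm 3 w, pow_mul]
    exact Nat.mul_le_mul (by norm_num) (Nat.pow_le_pow_left hw2 3)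
  have hlt : 8 * w ^ 3 * (2 * (pV w q / ps w q) + 2) ^ (w - 2) < 2 ^ (16 * w * q * pn w q) := by
    refine lt_of_le_of_lt (Nat.mul_le_mul hw3 hpow) ?_
    rw [← pow_add]
    apply Nat.pow_lt_pow_right (by norm_num)
    have h10 : 10 * 1 ≤ q * pn w q := Nat.mul_le_mul hq hn1
    have e1 : 16 * w * q * pn w q = 16 * w * (q * pn w q) := by ring
    have e2 : 5 * q * pn w q = 5 * (q * pn w q) := by ring
    rw [e1, e2]
    generalize q * pn w q = x at *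
    obtain ⟨u, rfl⟩ : ∃ u, w = u + 2 := ⟨w - 2, by omega⟩
    simp only [Nat.add_sub_cancel]
    nlinarith [Nat.zero_le (u * x)]
  refine lt_of_lt_of_le hlt (hVlow.trans ?_)
  exact Nat.le_mul_of_pos_left _ (by omega)

end Pool.Agent.BoolWidth
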