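import Pool.Agent.Lib_MP_0cf6e1_b.PhiL

/-!
# Piece SPARSE: small sets are sparse
-/

set_option autoImplicit false

open scoped Classical

namespace Pool.Agent.BoolWidth

theorem sum_eIn {V : Type} (E : V → V → Prop) (X S' : Finset V) :
    ∑ p ∈ X, ∑ q ∈ X, (if E p q ∧ p ∈ S' ∧ q ∈ S' then (1 : ℝ) else 0) = (eIn E (X ∩ S') : ℝ) := by
  rw [← Finset.sum_product']
  rw [Finset.sum_ite, Finset.sum_const_zero, add_zero, Finset.sum_const, nsmul_eq_mul, mul_one]
  unfold eIn
  congr 2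
  ext ⟨p, q⟩
  simp only [Finset.mem_filter, Finset.mem_product, Finset.mem_inter]
  tauto

/-- a set `S` with `(B+2) |S| < B e(S)`: take the densest nonempty `S' ⊆ S`, `ρ = e(S') / |S'| ≥ e(S)/|S| > 1 + 2/B`, `a = 1` on `S'` and `0` elsewhere, `N = 1` on the arcs inside `S'` -/
theorem dense_sys {V : Type} [Fintype V] (E : V → V → Prop) (B : ℕ) (hB : 1 ≤ B) (S : Finset V) (h : (B + 2) * S.card < B * eIn E S) :
    ∃ S' ⊆ S, S'.Nonempty ∧ ∃ (ρ : ℝ) (N : V → V → ℝ), 1 + 2 / (B : ℝ) ≤ ρ ∧ Sys E ρ (fun p => if p ∈ S' then 1 else 0) N := by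
  have hBpos : (0 : ℝ) < B := by exact_mod_cast hB
  have hSne : S.Nonempty := by
    rw [Finset.nonempty_iff_ne_empty]
    rintro rfl
    simp [eIn] at h
  obtain ⟨S', hS', hmax⟩ := Finset.exists_max_image (S.powerset.filter (fun X => X.Nonempty))
    (fun X => (eIn E X : ℝ) / X.card) ⟨S, by simpa using hSne⟩
  rw [Finset.mem_filter, Finset.mem_powerset] at hS'
  obtain ⟨hsub, hne⟩ := hS'
  have hc' : (0 : ℝ) < S'.card := by exact_mod_cast hne.card_pos
  have hc : (0 : ℝ) < S.card := by exact_mod_cast hSne.card_pos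
  have hext : ∀ X ⊆ S', (eIn E X : ℝ) ≤ (eIn E S' : ℝ) / S'.card * X.card := by
    intro X hX
    rcases X.eq_empty_or_nonempty with rfl | hXne
    · simp [eIn]
    · have h1 := hmax X (by
        rw [Finset.mem_filter, Finset.mem_powerset]
        exact ⟨hX.trans hsub, hXne⟩)
      have h2 : (0 : ℝ) < X.card := by exact_mod_cast hXne.card_pos
      rwa [div_le_iff₀ h2] at h1
  refine ⟨S', hsub, hne, (eIn E S' : ℝ) / S'.card, fun p q => if E p q ∧ p ∈ S' ∧ q ∈ S' then 1 else 0, ?_, ?_⟩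
  · have h1 := hmax S (by
      rw [Finset.mem_filter, Finset.mem_powerset]
      exact ⟨Finset.Subset.refl _, hSne⟩)
    have h2 : 1 + 2 / (B : ℝ) ≤ (eIn E S : ℝ) / S.card := by
      rw [le_div_iff₀ hc]
      have h3 : ((B : ℝ) + 2) * S.card < B * eIn E S := by exact_mod_cast h
      have h4 : (1 + 2 / (B : ℝ)) * S.card = ((B : ℝ) + 2) * S.card / B := by
        field_simp
      rw [h4, div_le_iff₀ hBpos]
      linarith
    exact h2.trans h1
  · refine ⟨?_, ?_, ?_, ?_, ?_, ?_, ?_⟩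
    · intro p
      split_ifs
      · exact zero_le_one
      · exact le_rfl
    · intro p q
      split_ifs
      · exact zero_le_one
      · exact le_rfl
    · intro p q hpq
      by_contra hE
      exact hpq (if_neg (fun h => hE h.1))
    · intro p q
      by_cases hc1 : E p q ∧ p ∈ S' ∧ q ∈ S'
      · rw [if_pos hc1, if_pos hc1.2.1]
      · rw [if_neg hc1]
        split_ifs
        · exact zero_le_one
        · exact le_rfl
    · intro p q
      by_cases hc1 : E p q ∧ p ∈ S' ∧ q ∈ S'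
      · rw [if_pos hc1, if_pos hc1.2.2]
      · rw [if_neg hc1]
        split_ifs
        · exact zero_le_one
        · exact le_rfl
    · intro X
      rw [sum_eIn]
      refine (hext (X ∩ S') Finset.inter_subset_right).trans (le_of_eq ?_)
      congr 1
      rw [Finset.sum_ite, Finset.sum_const_zero, add_zero, Finset.sum_const, nsmul_eq_mul, mul_one,
        Finset.filter_mem_eq_inter]
    · rw [sum_eIn, Finset.univ_inter, Finset.sum_ite, Finset.sum_const_zero, add_zero, Finset.sum_const,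
        nsmul_eq_mul, mul_one, Finset.filter_mem_eq_inter, Finset.univ_inter]
      field_simp

/-- `a u ≤ T = ∑ a`, so `a u log (a u) ≤ a u log T` -/
theorem ent_le {V : Type} [Fintype V] (a : V → ℝ) (ha : ∀ p, 0 ≤ a p) : Ent a ≤ (∑ p, a p) * Real.log (∑ p, a p) := by
  unfold Ent
  rw [Finset.sum_mul]
  apply Finset.sum_le_sum
  intro p _
  rcases (ha p).eq_or_lt with h0 | h0
  · rw [← h0]
    simp
  · apply mul_le_mul_of_nonneg_left _ h0.le
    apply Real.log_le_log h0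
    exact Finset.single_le_sum (fun i _ => ha i) (Finset.mem_univ p)

/-- Suppose the conclusion fails for `S`. `dense_sys` gives `S'`, `T = |S'| ≥ 1`; `hbase` gives `a'` with `∑ a' = T` and `n (1 - ξ) T ≤ A' Phi E0 a' + T log T / log (L/2)` (`Ent a = 0`, `Phi ≥ 0`), and `Phi E0 a' ≤ d T` (`phi_le`), so `log T ≥ (n (1 - ξ) - A' d) log (L/2) ≥ m log (L/2)`, `T ≥ (L/2)^m > |S|`. -/
theorem sparse {V V0 : Type} [Fintype V] [Fintype V0] (E : V → V → Prop) (E0 : V0 → V0 → Prop) (d : ℕ) (hd : DegLE E0 d) (B L n m : ℕ) (hB : 1 ≤ B)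
    (hL : 2 < L) (ξ A' : ℝ) (hA : 0 ≤ A') (hm : (m : ℝ) + A' * d ≤ n * (1 - ξ))
    (hbase : ∀ (ρ : ℝ), 1 + 2 / (B : ℝ) ≤ ρ → ∀ (a : V → ℝ) (N : V → V → ℝ), Sys E ρ a N →
        ∃ (a' : V0 → ℝ) (N' : V0 → V0 → ℝ), Sys E0 ρ a' N' ∧ ∑ p, a' p = ∑ p, a p ∧
          (n : ℝ) * (1 - ξ) * ∑ p, a p ≤ A' * (Phi E0 a' - Phi E a) + (Ent a' - Ent a) / Real.log ((L : ℝ) / 2))
    (S : Finset V) (hS : (S.card : ℝ) < ((L : ℝ) / 2) ^ m) : B * eIn E S ≤ (B + 2) * S.card := by
  by_contra hcon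
  push Not at hcon
  have hL2 : (2 : ℝ) < L := by exact_mod_cast hL
  have hΛ : 0 < Real.log ((L : ℝ) / 2) := Real.log_pos (by linarith)
  obtain ⟨S', hsub, hne, ρ, N, hρ, hsys⟩ := dense_sys E B hB S hcon
  obtain ⟨a', N', hsys', hsum, hineq⟩ := hbase ρ hρ _ N hsys
  have hT : ∑ p, (if p ∈ S' then (1 : ℝ) else 0) = S'.card := by
    rw [Finset.sum_ite, Finset.sum_const_zero, add_zero, Finset.sum_const, nsmul_eq_mul, mul_one,
      Finset.filter_mem_eq_inter, Finset.univ_inter]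
  have hE0 : Ent (fun p => if p ∈ S' then (1 : ℝ) else 0) = 0 := by
    unfold Ent
    apply Finset.sum_eq_zero
    intro p _
    dsimp only
    split_ifs <;> simp
  have hPhi := phi_nonneg E (fun p => if p ∈ S' then (1 : ℝ) else 0)
  have h1 := phi_le E0 d hd a' hsys'.a0
  have h2 := ent_le a' hsys'.a0
  rw [hT] at hsum hineq
  rw [hsum] at h1 h2
  rw [hE0, sub_zero] at hineq
  have hTpos : (0 : ℝ) < S'.card := by exact_mod_cast hne.card_pos
  have h3 : A' * (Phi E0 a' - Phi E (fun p => if p ∈ S' then (1 : ℝ) else 0)) ≤ A' * (d * S'.card) :=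
    mul_le_mul_of_nonneg_left (by linarith) hA
  have h4 : Ent a' / Real.log ((L : ℝ) / 2) ≤ S'.card * Real.log S'.card / Real.log ((L : ℝ) / 2) :=
    div_le_div_of_nonneg_right h2 hΛ.le
  have h5 : (n : ℝ) * (1 - ξ) * S'.card ≤ A' * (d * S'.card) + S'.card * Real.log S'.card / Real.log ((L : ℝ) / 2) := by
    linarith
  have h6 : (m : ℝ) * S'.card ≤ S'.card * Real.log S'.card / Real.log ((L : ℝ) / 2) := by
    have : ((m : ℝ) + A' * d) * S'.card ≤ n * (1 - ξ) * S'.card := mul_le_mul_of_nonneg_right hm hTpos.le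
    nlinarith
  have h7 : (m : ℝ) * Real.log ((L : ℝ) / 2) ≤ Real.log S'.card := by
    rw [le_div_iff₀ hΛ] at h6
    have h8 : S'.card * ((m : ℝ) * Real.log ((L : ℝ) / 2)) ≤ S'.card * Real.log S'.card := by
      calc S'.card * ((m : ℝ) * Real.log ((L : ℝ) / 2)) = (m : ℝ) * S'.card * Real.log ((L : ℝ) / 2) := by ring
        _ ≤ _ := h6
    exact le_of_mul_le_mul_left h8 hTpos
  have h9 : ((L : ℝ) / 2) ^ m ≤ S'.card := by
    have hb : (0 : ℝ) < (L : ℝ) / 2 := by linarith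
    rw [← Real.log_le_log_iff (by positivity) hTpos, Real.log_pow]
    exact h7
  have h10 : (S'.card : ℝ) ≤ S.card := by exact_mod_cast Finset.card_le_card hsub
  linarith

end Pool.Agent.BoolWidth
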