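import Pool.Agent.Lib_MP_0cf6e1_b.Defs

/-!
# Piece GIRL: girth and asymmetry of lifts
-/

set_option autoImplicit false

open scoped Classical

namespace Pool.Agent.BoolWidth

variable {V : Type} {E E' : V → V → Prop} {g g' : ℕ}

theorem Gir.mono (h : Gir E g) (hs : ∀ u v, E' u v → E u v) (hg : g' ≤ g) : Gir E' g' := by
  intro c l h1 h2 hc
  refine h c l h1 (h2.trans hg) ⟨fun i hi => ?_, hc.2⟩
  rcases hc.1 i hi with h | h
  · exact Or.inl (hs _ _ h)
  · exact Or.inr (hs _ _ h)

theorem Asym.lift (h : Asym E) (t : V → V → ℕ) (D : ℕ) : Asym (liftE E t D) :=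
  fun p q h1 h2 => h p.1 q.1 h1.1 h2.1

/-- Two neighbours of `p` in the lift with the same first component are equal (by `Asym` the arcs have the same direction and the
second component is determined). -/
theorem lift_nbr (h : Asym E) (t : V → V → ℕ) (D : ℕ) (p q r : V × Fin D) (hq : Adj (liftE E t D) q p)
    (hr : Adj (liftE E t D) p r) (he : q.1 = r.1) : q = r := by
  refine Prod.ext he (Fin.ext ?_)
  rcases hq with ⟨h1, h2⟩ | ⟨h1, h2⟩ <;> rcases hr with ⟨h3, h4⟩ | ⟨h3, h4⟩
  · rw [he] at h1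
    exact absurd h3 (h _ _ h1)
  · rw [he] at h2
    omega
  · rw [he] at h2
    omega
  · rw [he] at h1
    exact absurd h3 (h _ _ h1)

/-- the projection of a walk without backtracking is a walk without backtracking -/
theorem RW.proj (h : Asym E) (t : V → V → ℕ) (D : ℕ) (c : ℕ → V × Fin D) (l : ℕ) (hc : RW (liftE E t D) c l) :
    RW E (fun i => (c i).1) l := by
  refine ⟨fun i hi => ?_, fun i hi he => ?_⟩
  · rcases hc.1 i hi with h | h
    · exact Or.inl h.1
    · exact Or.inr h.1
  · exact hc.2 i hi (lift_nbr h t D (c (i + 1)) (c i) (c (i + 2)) (hc.1 i (by omega))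
      (hc.1 (i + 1) (by omega)) he)

theorem Gir.lift (ha : Asym E) (h : Gir E g) (t : V → V → ℕ) (D : ℕ) : Gir (liftE E t D) g := by
  intro c l h1 h2 hc h0
  exact h _ l h1 h2 (hc.proj ha) (congrArg Prod.fst h0)

end Pool.Agent.BoolWidth
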