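import Pool.Agent.Lib_MP_0cf6e1_b.Defs

/-!
# Piece LIFT: the lift is a monotone graph
-/

set_option autoImplicit false

open scoped Classical

namespace Pool.Agent.BoolWidth

variable {w : ℕ} {V : Type} (M : MG w V) (E1 : V → V → Prop) (h1 : ∀ a b, E1 a b → M.E a b)
  (t : V → V → ℕ) (D : ℕ)

include h1

theorem lift_irr (p : V × Fin D) : ¬ liftLt M.lt E1 t D p p := by
  rintro (⟨-, h⟩ | ⟨h, -⟩ | ⟨h, -⟩)
  · exact lt_irrefl _ h
  · exact M.irr _ h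
  · exact M.irr _ (M.elt _ _ (h1 _ _ h))

/-- cases. If both relations are of the second or third kind then `p.1 < q.1 < r.1`, so `p.1 < r.1` and `(p.1, r.1)` is not an arc
(`ecov`), second kind. If one of them is of the first kind: direct. -/
theorem lift_tr (p q r : V × Fin D) (hpq : liftLt M.lt E1 t D p q) (hqr : liftLt M.lt E1 t D q r) :
    liftLt M.lt E1 t D p r := by
  have key : M.lt p.1 q.1 → M.lt q.1 r.1 → liftLt M.lt E1 t D p r := by
    intro ha hb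
    refine Or.inr (Or.inl ⟨M.tr _ _ _ ha hb, fun hE => ?_⟩)
    exact M.ecov _ _ _ (h1 _ _ hE) ha hb
  rcases hpq with ⟨ha, hb⟩ | ⟨ha, hb⟩ | ⟨ha, hb⟩
  · rcases hqr with ⟨hc, hd⟩ | ⟨hc, hd⟩ | ⟨hc, hd⟩
    · exact Or.inl ⟨ha.trans hc, lt_trans hb hd⟩
    · exact Or.inr (Or.inl (by rw [ha]; exact ⟨hc, hd⟩))
    · refine Or.inr (Or.inr ?_)
      rw [ha]
      refine ⟨hc, ?_⟩
      have : (p.2 : ℕ) < (q.2 : ℕ) := hb
      omega
  · rcases hqr with ⟨hc, hd⟩ | ⟨hc, hd⟩ | ⟨hc, hd⟩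
    · exact Or.inr (Or.inl (by rw [← hc]; exact ⟨ha, hb⟩))
    · exact key ha hc
    · exact key ha (M.elt _ _ (h1 _ _ hc))
  · rcases hqr with ⟨hc, hd⟩ | ⟨hc, hd⟩ | ⟨hc, hd⟩
    · refine Or.inr (Or.inr ?_)
      rw [← hc]
      refine ⟨ha, ?_⟩
      have : (q.2 : ℕ) < (r.2 : ℕ) := hd
      omega
    · exact key (M.elt _ _ (h1 _ _ ha)) hc
    · exact key (M.elt _ _ (h1 _ _ ha)) (M.elt _ _ (h1 _ _ hc))

/-- if `p.1 = q.1` compare `p.2, q.2`; otherwise `M.chain`, and arcs join different chains -/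
theorem lift_chain (p q : V × Fin D) (hc : M.ch p.1 = M.ch q.1) (hne : p ≠ q) :
    liftLt M.lt E1 t D p q ∨ liftLt M.lt E1 t D q p := by
  by_cases hpq : p.1 = q.1
  · have h2 : p.2 ≠ q.2 := fun h => hne (Prod.ext hpq h)
    rcases lt_or_gt_of_ne h2 with h | h
    · exact Or.inl (Or.inl ⟨hpq, h⟩)
    · exact Or.inr (Or.inl ⟨hpq.symm, h⟩)
  · rcases M.chain _ _ hc hpq with h | h
    · exact Or.inl (Or.inr (Or.inl ⟨h, fun hE => M.ech _ _ (h1 _ _ hE) hc⟩))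
    · exact Or.inr (Or.inr (Or.inl ⟨h, fun hE => M.ech _ _ (h1 _ _ hE) hc.symm⟩))

theorem lift_elt (p q : V × Fin D) (h : liftE E1 t D p q) : liftLt M.lt E1 t D p q :=
  Or.inr (Or.inr ⟨h.1, h.2.le⟩)

/-- Let `p < r < q`, `E1 p.1 q.1`, `p.2 + t = q.2`. If `r.1 = p.1` then `p.2 < r.2` and `r < q` must be of the third kind: `r.2 + t ≤ q.2`.
If `r.1 = q.1` then `r.2 < q.2` and `p < r` must be of the third kind. Otherwise `p.1 < r.1 < q.1` contradicts `ecov`. -/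
theorem lift_ecov (p q r : V × Fin D) (h : liftE E1 t D p q) (hpr : liftLt M.lt E1 t D p r) :
    ¬ liftLt M.lt E1 t D r q := by
  intro hrq
  obtain ⟨hE, ht⟩ := h
  have hlt : M.lt p.1 q.1 := M.elt _ _ (h1 _ _ hE)
  have hcov := M.ecov _ _ r.1 (h1 _ _ hE)
  rcases hpr with ⟨ha, hb⟩ | ⟨ha, hb⟩ | ⟨ha, hb⟩
  · have hb' : (p.2 : ℕ) < (r.2 : ℕ) := hb
    rcases hrq with ⟨hc, hd⟩ | ⟨hc, hd⟩ | ⟨hc, hd⟩
    · rw [← ha] at hc
      rw [hc] at hlt
      exact M.irr _ hlt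
    · rw [← ha] at hd
      exact hd hE
    · rw [← ha] at hd
      omega
  · rcases hrq with ⟨hc, hd⟩ | ⟨hc, hd⟩ | ⟨hc, hd⟩
    · rw [hc] at hb
      exact hb hE
    · exact hcov ha hc
    · exact hcov ha (M.elt _ _ (h1 _ _ hc))
  · rcases hrq with ⟨hc, hd⟩ | ⟨hc, hd⟩ | ⟨hc, hd⟩
    · have hd' : (r.2 : ℕ) < (q.2 : ℕ) := hd
      rw [hc] at hb
      omega
    · exact hcov (M.elt _ _ (h1 _ _ ha)) hc
    · exact hcov (M.elt _ _ (h1 _ _ ha)) (M.elt _ _ (h1 _ _ hc))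

/-- the lift of a monotone graph (with a subset `E1` of the arcs) -/
def liftMG : MG w (V × Fin D) where
  lt := liftLt M.lt E1 t D
  irr := lift_irr M E1 h1 t D
  tr := lift_tr M E1 h1 t D
  ch p := M.ch p.1
  chain := lift_chain M E1 h1 t D
  E := liftE E1 t D
  elt := lift_elt M E1 h1 t D
  ecov := lift_ecov M E1 h1 t D
  ech p q h := M.ech _ _ (h1 _ _ h.1)

omit h1

/-- inject (arc `(u, v)`, `x < D - C`) to `((u, x), (v, x + t u v))` -/
theorem eIn_lift [Fintype V] (E : V → V → Prop) (C : ℕ) (ht : ∀ u v, t u v ≤ C) (hC : C ≤ D) :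
    eIn E Finset.univ * (D - C) ≤ eIn (liftE E t D) Finset.univ := by
  unfold eIn
  rw [← Finset.card_range (D - C), ← Finset.card_product]
  by_cases hD : D = 0
  · subst hD
    simp
  have hDpos : 0 < D := Nat.pos_of_ne_zero hD
  refine Finset.card_le_card_of_injOn
    (fun p : (V × V) × ℕ =>
      (((p.1.1, (⟨p.2 % D, Nat.mod_lt _ hDpos⟩ : Fin D)),
        (p.1.2, (⟨(p.2 + t p.1.1 p.1.2) % D, Nat.mod_lt _ hDpos⟩ : Fin D))) :
        (V × Fin D) × (V × Fin D))) ?_ ?_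
  · intro p hp
    simp only [Finset.coe_product, Set.mem_prod, Finset.mem_coe, Finset.mem_filter,
      Finset.mem_range, Finset.mem_product, Finset.mem_univ, true_and] at hp ⊢
    obtain ⟨hE, hx⟩ := hp
    have h2 := ht p.1.1 p.1.2
    have e1 : p.2 % D = p.2 := Nat.mod_eq_of_lt (by omega)
    have e2 : (p.2 + t p.1.1 p.1.2) % D = p.2 + t p.1.1 p.1.2 := Nat.mod_eq_of_lt (by omega)
    refine ⟨hE, ?_⟩
    change (p.2 % D) + t p.1.1 p.1.2 = (p.2 + t p.1.1 p.1.2) % D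
    rw [e1, e2]
  · intro p hp q hq hpq
    simp only [Finset.coe_product, Set.mem_prod, Finset.mem_coe, Finset.mem_filter,
      Finset.mem_range, Finset.mem_product, Finset.mem_univ, true_and] at hp hq
    simp only [Prod.mk.injEq, Fin.mk.injEq] at hpq
    obtain ⟨⟨ha, hb⟩, hc, -⟩ := hpq
    rw [Nat.mod_eq_of_lt (by omega), Nat.mod_eq_of_lt (by omega)] at hb
    exact Prod.ext (Prod.ext ha hc) hb

end Pool.Agent.BoolWidth
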