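import Pool.Agent.Lib_MP_0cf6e1_b.Defs

/-!
# Piece OVLA: elementary facts on mu and overlaps
-/

set_option autoImplicit false

open scoped Classical

namespace Pool.Agent.BoolWidth

variable {V : Type} {D : ℕ} {a : V × Fin D → ℝ}

theorem push_nonneg (ha : ∀ p, 0 ≤ a p) (u : V) : 0 ≤ push a u := by
  unfold push
  exact Finset.sum_nonneg fun x _ => ha _

theorem mu_nonneg (ha : ∀ p, 0 ≤ a p) (u : V) (x : Fin D) : 0 ≤ mu a u x := by
  unfold mu
  exact div_nonneg (ha _) (push_nonneg ha u)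

theorem mu_mul (ha : ∀ p, 0 ≤ a p) (u : V) (x : Fin D) : push a u * mu a u x = a (u, x) := by
  by_cases h : push a u = 0
  · have h1 : a (u, x) = 0 := by
      unfold push at h
      rw [Finset.sum_eq_zero_iff_of_nonneg fun x _ => ha _] at h
      exact h x (Finset.mem_univ _)
    rw [h, h1, zero_mul]
  · unfold mu
    rw [mul_div_cancel₀ _ h]

private theorem ovlA_mu_sum (u : V) : ∑ x, mu a u x = push a u / push a u := by
  unfold mu
  rw [← Finset.sum_div]
  rfl

theorem mu_sum (ha : ∀ p, 0 ≤ a p) (u : V) : ∑ x, mu a u x ≤ 1 := by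
  rw [ovlA_mu_sum]
  exact div_self_le_one _

/-- if `push a u ≠ 0` -/
theorem mu_sum_eq (ha : ∀ p, 0 ≤ a p) (u : V) (h : push a u ≠ 0) : ∑ x, mu a u x = 1 := by
  rw [ovlA_mu_sum, div_self h]

theorem sum_push [Fintype V] (a : V × Fin D → ℝ) : ∑ u, push a u = ∑ p, a p := by
  unfold push
  rw [Fintype.sum_prod_type]

/-- the sum over the matched second entries -/
theorem ovlA_row (k : ℕ) (x : Fin D) (h : Fin D → ℝ) (c : ℝ) (hc : 0 ≤ c) (hh : ∀ y, h y ≤ c) :
    ∑ y : Fin D, (if (x : ℕ) + k = (y : ℕ) then h y else 0) ≤ c := by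
  by_cases hx : (x : ℕ) + k < D
  · rw [Finset.sum_eq_single (⟨(x : ℕ) + k, hx⟩ : Fin D)]
    · simp only [if_true]
      exact hh _
    · intro y _ hy
      rw [if_neg]
      intro h1
      exact hy (Fin.ext h1.symm)
    · intro h1
      exact absurd (Finset.mem_univ _) h1
  · rw [Finset.sum_eq_zero]
    · exact hc
    · intro y _
      rw [if_neg]
      intro h1
      exact hx (h1 ▸ y.2)

/-- the sum over the matched first entries -/
theorem ovlA_col (k : ℕ) (y : Fin D) (h : Fin D → ℝ) (c : ℝ) (hc : 0 ≤ c) (hh : ∀ x, h x ≤ c) :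
    ∑ x : Fin D, (if (x : ℕ) + k = (y : ℕ) then h x else 0) ≤ c := by
  by_cases hy : ∃ x : Fin D, (x : ℕ) + k = (y : ℕ)
  · obtain ⟨x, hx⟩ := hy
    rw [Finset.sum_eq_single x]
    · rw [if_pos hx]
      exact hh _
    · intro x' _ hx'
      rw [if_neg]
      intro h1
      exact hx' (Fin.ext (by omega))
    · intro h1
      exact absurd (Finset.mem_univ _) h1
  · rw [Finset.sum_eq_zero]
    · exact hc
    · intro x _
      rw [if_neg]
      intro h1
      exact hy ⟨x, h1⟩

/-- for every `x` there is at most one `y` with `x + k = y` -/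
theorem ovl_le_left (k : ℕ) (f g : Fin D → ℝ) (hf : ∀ x, 0 ≤ f x) : ovl k f g ≤ ∑ x, f x := by
  unfold ovl
  apply Finset.sum_le_sum
  intro x _
  exact ovlA_row k x (fun y => min (f x) (g y)) (f x) (hf x) fun y => min_le_left _ _

theorem ovl_le_right (k : ℕ) (f g : Fin D → ℝ) (hg : ∀ x, 0 ≤ g x) : ovl k f g ≤ ∑ x, g x := by
  unfold ovl
  rw [Finset.sum_comm]
  apply Finset.sum_le_sum
  intro y _
  exact ovlA_col k y (fun x => min (f x) (g y)) (g y) (hg y) fun x => min_le_right _ _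

theorem ovl_nonneg (k : ℕ) (f g : Fin D → ℝ) (hf : ∀ x, 0 ≤ f x) (hg : ∀ x, 0 ≤ g x) : 0 ≤ ovl k f g := by
  unfold ovl
  refine Finset.sum_nonneg fun x _ => Finset.sum_nonneg fun y _ => ?_
  split_ifs
  · exact le_min (hf x) (hg y)
  · exact le_rfl

theorem dd_nonneg (ha : ∀ p, 0 ≤ a p) (t : V → V → ℕ) (u v : V) : 0 ≤ dd a t u v := by
  unfold dd
  apply mul_nonneg
  · exact le_min (push_nonneg ha u) (push_nonneg ha v)
  · have h := ovl_le_left (t u v) (mu a u) (mu a v) (mu_nonneg ha u)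
    have h2 := mu_sum ha u
    linarith

/-- `∑ f + ∑ g - 2 ovl` as a sum of nonnegative terms -/
private theorem ovlA_split (k : ℕ) (f g : Fin D → ℝ) :
    ∑ x, f x + ∑ x, g x - 2 * ovl k f g =
      (∑ x : Fin D, ∑ y : Fin D, (if (x : ℕ) + k = (y : ℕ) then |f x - g y| else 0)) +
        (∑ x : Fin D, f x * (1 - ∑ y : Fin D, (if (x : ℕ) + k = (y : ℕ) then (1 : ℝ) else 0))) +
          ∑ y : Fin D, g y * (1 - ∑ x : Fin D, (if (x : ℕ) + k = (y : ℕ) then (1 : ℝ) else 0)) := by
  have h1 : ∑ x : Fin D, f x * (1 - ∑ y : Fin D, (if (x : ℕ) + k = (y : ℕ) then (1 : ℝ) else 0)) =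
      ∑ x, f x - ∑ x : Fin D, ∑ y : Fin D, (if (x : ℕ) + k = (y : ℕ) then f x else 0) := by
    rw [← Finset.sum_sub_distrib]
    apply Finset.sum_congr rfl
    intro x _
    rw [mul_sub, mul_one, Finset.mul_sum]
    congr 1
    apply Finset.sum_congr rfl
    intro y _
    rw [mul_ite, mul_one, mul_zero]
  have h2 : ∑ y : Fin D, g y * (1 - ∑ x : Fin D, (if (x : ℕ) + k = (y : ℕ) then (1 : ℝ) else 0)) =
      ∑ x, g x - ∑ x : Fin D, ∑ y : Fin D, (if (x : ℕ) + k = (y : ℕ) then g y else 0) := by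
    rw [Finset.sum_comm, ← Finset.sum_sub_distrib]
    apply Finset.sum_congr rfl
    intro x _
    rw [mul_sub, mul_one, Finset.mul_sum]
    congr 1
    apply Finset.sum_congr rfl
    intro y _
    rw [mul_ite, mul_one, mul_zero]
  have h3 : ∑ x : Fin D, ∑ y : Fin D, (if (x : ℕ) + k = (y : ℕ) then |f x - g y| else 0) =
      ∑ x : Fin D, ∑ y : Fin D, (if (x : ℕ) + k = (y : ℕ) then f x else 0) +
        ∑ x : Fin D, ∑ y : Fin D, (if (x : ℕ) + k = (y : ℕ) then g y else 0) - 2 * ovl k f g := by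
    unfold ovl
    rw [Finset.mul_sum, ← Finset.sum_add_distrib, ← Finset.sum_sub_distrib]
    apply Finset.sum_congr rfl
    intro x _
    rw [Finset.mul_sum, ← Finset.sum_add_distrib, ← Finset.sum_sub_distrib]
    apply Finset.sum_congr rfl
    intro y _
    split_ifs
    · rcases le_total (f x) (g y) with h | h
      · rw [min_eq_left h, abs_of_nonpos (by linarith)]
        ring
      · rw [min_eq_right h, abs_of_nonneg (by linarith)]
        ring
    · ring
  rw [h1, h2, h3]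
  ring

/-- `∑ |f x - g y|` over the matched pairs plus the unmatched masses is `∑ f + ∑ g - 2 ovl`; so over the matched pairs it is at most that -/
theorem matched_abs (k : ℕ) (f g : Fin D → ℝ) (hf : ∀ x, 0 ≤ f x) (hg : ∀ x, 0 ≤ g x) :
    ∑ x : Fin D, ∑ y : Fin D, (if (x : ℕ) + k = (y : ℕ) then |f x - g y| else 0) ≤
      ∑ x, f x + ∑ x, g x - 2 * ovl k f g := by
  rw [ovlA_split]
  have h1 : 0 ≤ ∑ x : Fin D, f x * (1 - ∑ y : Fin D, (if (x : ℕ) + k = (y : ℕ) then (1 : ℝ) else 0)) := by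
    refine Finset.sum_nonneg fun x _ => mul_nonneg (hf x) ?_
    have h := ovlA_row k x (fun _ => (1 : ℝ)) 1 zero_le_one fun _ => le_rfl
    linarith
  have h2 : 0 ≤ ∑ y : Fin D, g y * (1 - ∑ x : Fin D, (if (x : ℕ) + k = (y : ℕ) then (1 : ℝ) else 0)) := by
    refine Finset.sum_nonneg fun y _ => mul_nonneg (hg y) ?_
    have h := ovlA_col k y (fun _ => (1 : ℝ)) 1 zero_le_one fun _ => le_rfl
    linarith
  linarith

/-- `x ↦ max (x - τ) 0` is nondecreasing, `1`-Lipschitz: matched pairs: `|f' - g'| ≤ |f - g|`, unmatched: `f' ≤ f` (`τ ≥ 0`) -/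
theorem thin_mismatch (k : ℕ) (f g : Fin D → ℝ) (hf : ∀ x, 0 ≤ f x) (hg : ∀ x, 0 ≤ g x) (τ : ℝ) (hτ : 0 ≤ τ) :
    ∑ x, max (f x - τ) 0 + ∑ x, max (g x - τ) 0 -
        2 * ovl k (fun x => max (f x - τ) 0) (fun x => max (g x - τ) 0) ≤ ∑ x, f x + ∑ x, g x - 2 * ovl k f g := by
  rw [ovlA_split k f g, ovlA_split k (fun x => max (f x - τ) 0) (fun x => max (g x - τ) 0)]
  refine add_le_add (add_le_add ?_ ?_) ?_
  · refine Finset.sum_le_sum fun x _ => Finset.sum_le_sum fun y _ => ?_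
    split_ifs
    · have h := abs_max_sub_max_le_abs (f x - τ) (g y - τ) 0
      have h2 : f x - τ - (g y - τ) = f x - g y := by ring
      rw [h2] at h
      exact h
    · exact le_rfl
  · refine Finset.sum_le_sum fun x _ => ?_
    apply mul_le_mul_of_nonneg_right
    · exact max_le (by linarith) (hf x)
    · have h := ovlA_row k x (fun _ => (1 : ℝ)) 1 zero_le_one fun _ => le_rfl
      linarith
  · refine Finset.sum_le_sum fun y _ => ?_
    apply mul_le_mul_of_nonneg_right
    · exact max_le (by linarith) (hg y)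
    · have h := ovlA_col k y (fun _ => (1 : ℝ)) 1 zero_le_one fun _ => le_rfl
      linarith

end Pool.Agent.BoolWidth
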