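import Pool.Agent.Lib_MP_0cf6e1_b.Ext
import Pool.Agent.Lib_MP_0cf6e1_b.OvlA

/-!
# Piece MAINL: lower bound for the overlap of the thin parts
-/

set_option autoImplicit false

open scoped Classical

namespace Pool.Agent.BoolWidth

variable {V : Type} [Fintype V] {D : ℕ}

theorem frac_lip_aux (τ m m' : ℝ) (hτ : 0 < τ) (hm : 0 ≤ m) (hmm : m ≤ m') :
    |max (1 - τ / m) 0 - max (1 - τ / m') 0| * m' ≤ m' - m := by
  rcases hm.eq_or_lt with h0 | h0
  · subst h0
    rcases hmm.eq_or_lt with h1 | h1
    · subst h1; simp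
    · have h2 : 0 < τ / m' := by positivity
      have h3 : max (1 - τ / (0:ℝ)) 0 = 1 := by simp
      rw [h3]
      have h4 : max (1 - τ / m') 0 ≤ 1 := by
        apply max_le <;> linarith
      have h5 : 0 ≤ max (1 - τ / m') 0 := le_max_right _ _
      rw [abs_of_nonneg (by linarith)]
      nlinarith
  · have h1 : 0 < m' := lt_of_lt_of_le h0 hmm
    have h2 : τ / m' ≤ τ / m := div_le_div_of_nonneg_left hτ.le h0 hmm
    have hle : max (1 - τ / m) 0 ≤ max (1 - τ / m') 0 := max_le_max (by linarith) le_rfl
    rw [abs_of_nonpos (by linarith)]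
    rcases le_or_gt m' τ with h3 | h3
    · have h4 : 1 ≤ τ / m' := by rw [le_div_iff₀ h1]; linarith
      rw [max_eq_right (by linarith), max_eq_right (by linarith)]
      simp; linarith
    · have h4 : τ / m' < 1 := by rw [div_lt_one h1]; exact h3
      rw [max_eq_left (by linarith : (0:ℝ) ≤ 1 - τ / m')]
      have h5 : (1 - τ / m') * m' = m' - τ := by field_simp
      rcases le_or_gt m τ with h6 | h6
      · have h7 : 0 ≤ max (1 - τ / m) 0 := le_max_right _ _
        nlinarith [mul_nonneg h7 h1.le]
      · have h7 : 1 - τ / m ≤ max (1 - τ / m) 0 := le_max_left _ _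
        have h8 : (1 - τ / m) * m' = m' - τ * m' / m := by field_simp
        have h9 : τ * m' / m - τ ≤ m' - m := by
          have : τ * m' / m - τ = τ * (m' - m) / m := by field_simp
          rw [this, div_le_iff₀ h0]
          nlinarith
        nlinarith [mul_le_mul_of_nonneg_right h7 h1.le]

/-- for `0 ≤ m, m'`: `|(1 - τ/m)⁺ - (1 - τ/m')⁺| max(m, m') ≤ |m - m'|` -/
theorem frac_lip (τ m m' : ℝ) (hτ : 0 < τ) (hm : 0 ≤ m) (hm' : 0 ≤ m') :
    |max (1 - τ / m) 0 - max (1 - τ / m') 0| * max m m' ≤ |m - m'| := by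
  rcases le_total m m' with h | h
  · rw [max_eq_right h, abs_of_nonpos (by linarith : m - m' ≤ 0)]
    have := frac_lip_aux τ m m' hτ hm h
    linarith
  · rw [max_eq_left h, abs_of_nonneg (by linarith : 0 ≤ m - m'), abs_sub_comm]
    exact frac_lip_aux τ m' m hτ hm' h

/-- the fraction function -/
noncomputable def gfr (τ : ℝ) (a : V × Fin D → ℝ) (p : V × Fin D) : ℝ :=
  if mu a p.1 p.2 = 0 then 0 else max (1 - τ / mu a p.1 p.2) 0

omit [Fintype V] in
theorem gfr_nonneg (τ : ℝ) (a : V × Fin D → ℝ) (p : V × Fin D) : 0 ≤ gfr τ a p := by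
  unfold gfr
  split_ifs
  · exact le_rfl
  · exact le_max_right _ _

omit [Fintype V] in
theorem gfr_le_one (τ : ℝ) (hτ : 0 < τ) (a : V × Fin D → ℝ) (ha : ∀ p, 0 ≤ a p) (p : V × Fin D) :
    gfr τ a p ≤ 1 := by
  unfold gfr
  split_ifs
  · exact zero_le_one
  · have h1 := mu_nonneg ha p.1 p.2
    have : 0 ≤ τ / mu a p.1 p.2 := div_nonneg hτ.le h1
    apply max_le <;> linarith

omit [Fintype V] in
theorem mu_mul_gfr (τ : ℝ) (hτ : 0 < τ) (a : V × Fin D → ℝ) (ha : ∀ p, 0 ≤ a p) (p : V × Fin D) :
    mu a p.1 p.2 * gfr τ a p = thn τ a p.1 p.2 := by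
  unfold gfr thn
  split_ifs with h
  · rw [h]; simp; exact hτ.le
  · have h1 : 0 < mu a p.1 p.2 := lt_of_le_of_ne (mu_nonneg ha p.1 p.2) (Ne.symm h)
    rw [mul_max_of_nonneg _ _ h1.le, mul_zero]
    congr 1
    field_simp

omit [Fintype V] in
theorem pair_bound (E : V → V → Prop) (t : V → V → ℕ) (ρ τ : ℝ) (hτ : 0 < τ) [Fintype V]
    (a : V × Fin D → ℝ)
    (N : V × Fin D → V × Fin D → ℝ) (h : Sys (liftE E t D) ρ a N) (p q : V × Fin D) :
    N p q * max (gfr τ a p) (gfr τ a q) ≤
      if E p.1 q.1 then (if (p.2 : ℕ) + t p.1 q.1 = (q.2 : ℕ) then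
        min (push a p.1) (push a q.1) * (min (thn τ a p.1 p.2) (thn τ a q.1 q.2) +
          2 * |mu a p.1 p.2 - mu a q.1 q.2|) else 0) else 0 := by
  have ha := h.a0
  have hα := push_nonneg ha p.1
  have hβ := push_nonneg ha q.1
  have hm := mu_nonneg ha p.1 p.2
  have hm' := mu_nonneg ha q.1 q.2
  have hthn : 0 ≤ thn τ a p.1 p.2 := le_max_right _ _
  have hthn' : 0 ≤ thn τ a q.1 q.2 := le_max_right _ _
  by_cases hN : N p q = 0
  · rw [hN, zero_mul]
    split_ifs
    · have := le_min hα hβ
      have := le_min hthn hthn'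
      positivity
    · exact le_rfl
    · exact le_rfl
  · obtain ⟨hE, ht⟩ := h.supp p q hN
    rw [if_pos hE, if_pos ht]
    have hNpos : 0 < N p q := lt_of_le_of_ne (h.N0 p q) (Ne.symm hN)
    have e1 : push a p.1 * mu a p.1 p.2 = a p := mu_mul ha p.1 p.2
    have e2 : push a q.1 * mu a q.1 q.2 = a q := mu_mul ha q.1 q.2
    have hNl := h.Nl p q
    have hNr := h.Nr p q
    have hmne : mu a p.1 p.2 ≠ 0 := by
      intro h0; rw [h0, mul_zero] at e1; linarith
    have hmne' : mu a q.1 q.2 ≠ 0 := by
      intro h0; rw [h0, mul_zero] at e2; linarith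
    have k1 := mu_mul_gfr τ hτ a ha p
    have k2 := mu_mul_gfr τ hτ a ha q
    have g0 := gfr_nonneg τ a p
    have g0' := gfr_nonneg τ a q
    have g1 := gfr_le_one τ hτ a ha p
    have g1' := gfr_le_one τ hτ a ha q
    have hfl : |gfr τ a p - gfr τ a q| * max (mu a p.1 p.2) (mu a q.1 q.2) ≤
        |mu a p.1 p.2 - mu a q.1 q.2| := by
      have := frac_lip τ _ _ hτ hm hm'
      unfold gfr
      rw [if_neg hmne, if_neg hmne']
      exact this
    set α := push a p.1 with hα_def
    set β := push a q.1 with hβ_def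
    set m := mu a p.1 p.2 with hm_def
    set m' := mu a q.1 q.2 with hm'_def
    set g := gfr τ a p with hg_def
    set g' := gfr τ a q with hg'_def
    have hNle : N p q ≤ min α β * max m m' := by
      rcases le_total α β with hab | hab
      · rw [min_eq_left hab]
        calc N p q ≤ a p := hNl
          _ = α * m := e1.symm
          _ ≤ α * max m m' := mul_le_mul_of_nonneg_left (le_max_left _ _) hα
      · rw [min_eq_right hab]
        calc N p q ≤ a q := hNr
          _ = β * m' := e2.symm
          _ ≤ β * max m m' := mul_le_mul_of_nonneg_left (le_max_right _ _) hβ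
    have hab0 : 0 ≤ min α β := le_min hα hβ
    have hmax : max g g' = min g g' + |g - g'| := by
      rcases le_total g g' with hh | hh
      · rw [max_eq_right hh, min_eq_left hh, abs_of_nonpos (by linarith)]; ring
      · rw [max_eq_left hh, min_eq_right hh, abs_of_nonneg (by linarith)]; ring
    have hmaxm : max m m' = min m m' + |m - m'| := by
      rcases le_total m m' with hh | hh
      · rw [max_eq_right hh, min_eq_left hh, abs_of_nonpos (by linarith)]; ring
      · rw [max_eq_left hh, min_eq_right hh, abs_of_nonneg (by linarith)]; ring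
    have hmin0 : 0 ≤ min g g' := le_min g0 g0'
    have hmin1 : min g g' ≤ 1 := (min_le_left _ _).trans g1
    have hprod : min m m' * min g g' ≤ min (thn τ a p.1 p.2) (thn τ a q.1 q.2) := by
      apply le_min
      · rw [← k1]
        exact mul_le_mul (min_le_left _ _) (min_le_left _ _) hmin0 hm
      · rw [← k2]
        exact mul_le_mul (min_le_right _ _) (min_le_right _ _) hmin0 hm'
    have hA : max m m' * min g g' ≤ min (thn τ a p.1 p.2) (thn τ a q.1 q.2) + |m - m'| := by
      rw [hmaxm, add_mul]
      have : |m - m'| * min g g' ≤ |m - m'| := mul_le_of_le_one_right (abs_nonneg _) hmin1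
      linarith
    have hB : max m m' * max g g' ≤ min (thn τ a p.1 p.2) (thn τ a q.1 q.2) + 2 * |m - m'| := by
      rw [hmax, mul_add]
      nlinarith [hfl, hA]
    have hg0 : 0 ≤ max g g' := le_trans g0 (le_max_left _ _)
    calc N p q * max g g' ≤ (min α β * max m m') * max g g' :=
          mul_le_mul_of_nonneg_right hNle hg0
      _ = min α β * (max m m' * max g g') := by ring
      _ ≤ _ := mul_le_mul_of_nonneg_left hB hab0

/-- Let `g (u, x) = (1 - τ / mu a u x)⁺` if `mu a u x > 0` and `0` otherwise, so that `a (u, x) g (u, x) = push a u * thn τ a u x` and `∑ a g = PP τ a`. By `Sys.max_ge`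
`ρ PP ≤ ∑ N max(g, g') = ∑ N min(g, g') + ∑ N |g - g'|`. For an arc `(u, x) → (v, y)` with `m = mu a u x`, `m' = mu a v y`: `N ≤ min(a (u,x), a (v,y)) ≤ min(α, β) max(m, m')` (`α = push a u`, `β = push a v`), so
`N |g - g'| ≤ min(α, β) |m - m'|` and, with `m0 = min(m, m')`, `N min(g, g') ≤ min(α, β) (m0 g0 + |m - m'|) = min(α, β) (min(thn u x, thn v y) + |m - m'|)`. Summing over the matched pairs (`matched_abs`, `∑ mu ≤ 1`)
`∑ |m - m'| ≤ 2 - 2 ovl (mu a u) (mu a v)`; `N` vanishes outside the arcs of the lift. -/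
theorem main_lower (E : V → V → Prop) (t : V → V → ℕ) (ρ τ : ℝ) (hτ : 0 < τ) (a : V × Fin D → ℝ)
    (N : V × Fin D → V × Fin D → ℝ) (h : Sys (liftE E t D) ρ a N) :
    ρ * PP τ a - 4 * DD E t a ≤
      ∑ u, ∑ v, if E u v then min (push a u) (push a v) * ovl (t u v) (thn τ a u) (thn τ a v) else 0 := by
  have ha := h.a0
  have hPP : ∑ p, a p * gfr τ a p = PP τ a := by
    rw [Fintype.sum_prod_type]
    unfold PP
    apply Finset.sum_congr rfl
    intro u _
    rw [Finset.mul_sum]
    apply Finset.sum_congr rfl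
    intro x _
    rw [← mu_mul_gfr τ hτ a ha (u, x), ← mul_assoc, mu_mul ha]
  have h1 := h.max_ge (gfr τ a) (gfr_nonneg τ a) (gfr_le_one τ hτ a ha)
  rw [hPP] at h1
  have h2 : ∑ p, ∑ q, N p q * max (gfr τ a p) (gfr τ a q) ≤
      ∑ u, ∑ v, if E u v then (min (push a u) (push a v) * ovl (t u v) (thn τ a u) (thn τ a v)
        + 4 * dd a t u v) else 0 := by
    calc ∑ p, ∑ q, N p q * max (gfr τ a p) (gfr τ a q)
        ≤ ∑ p : V × Fin D, ∑ q : V × Fin D, (if E p.1 q.1 then (if (p.2 : ℕ) + t p.1 q.1 = (q.2 : ℕ) then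
        min (push a p.1) (push a q.1) * (min (thn τ a p.1 p.2) (thn τ a q.1 q.2) +
          2 * |mu a p.1 p.2 - mu a q.1 q.2|) else 0) else 0) :=
          Finset.sum_le_sum fun p _ => Finset.sum_le_sum fun q _ =>
            pair_bound E t ρ τ hτ a N h p q
      _ = ∑ u : V, ∑ v : V, ∑ x : Fin D, ∑ y : Fin D, (if E u v then (if (x : ℕ) + t u v = (y : ℕ) then
        min (push a u) (push a v) * (min (thn τ a u x) (thn τ a v y) +
          2 * |mu a u x - mu a v y|) else 0) else 0) := by
          rw [Fintype.sum_prod_type]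
          apply Finset.sum_congr rfl
          intro u _
          rw [Finset.sum_comm]
          rw [Fintype.sum_prod_type]
          apply Finset.sum_congr rfl
          intro v _
          rw [Finset.sum_comm]
      _ ≤ _ := by
          apply Finset.sum_le_sum
          intro u _
          apply Finset.sum_le_sum
          intro v _
          split_ifs with hE
          · have hab0 : 0 ≤ min (push a u) (push a v) := le_min (push_nonneg ha u) (push_nonneg ha v)
            have e1 : ∑ x : Fin D, ∑ y : Fin D, (if (x : ℕ) + t u v = (y : ℕ) then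
                min (push a u) (push a v) * (min (thn τ a u x) (thn τ a v y) +
                2 * |mu a u x - mu a v y|) else 0) =
                min (push a u) (push a v) * (ovl (t u v) (thn τ a u) (thn τ a v) +
                2 * ∑ x : Fin D, ∑ y : Fin D, (if (x : ℕ) + t u v = (y : ℕ) then |mu a u x - mu a v y| else 0)) := by
              unfold ovl
              rw [Finset.mul_sum, ← Finset.sum_add_distrib, Finset.mul_sum]
              apply Finset.sum_congr rfl
              intro x _
              rw [Finset.mul_sum, ← Finset.sum_add_distrib, Finset.mul_sum]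
              apply Finset.sum_congr rfl
              intro y _
              split_ifs
              · rfl
              · simp
            rw [e1]
            have e2 := matched_abs (t u v) (mu a u) (mu a v) (mu_nonneg ha u) (mu_nonneg ha v)
            have e3 := mu_sum ha u
            have e4 := mu_sum ha v
            unfold dd
            have e5 : ∑ x : Fin D, ∑ y : Fin D, (if (x : ℕ) + t u v = (y : ℕ) then |mu a u x - mu a v y| else 0)
              ≤ 2 * (1 - ovl (t u v) (mu a u) (mu a v)) := by linarith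
            nlinarith [mul_le_mul_of_nonneg_left e5 hab0]
          · simp
  have h3 : ∑ u, ∑ v, (if E u v then (min (push a u) (push a v) * ovl (t u v) (thn τ a u) (thn τ a v)
        + 4 * dd a t u v) else 0) =
      (∑ u, ∑ v, if E u v then min (push a u) (push a v) * ovl (t u v) (thn τ a u) (thn τ a v) else 0)
      + 4 * DD E t a := by
    unfold DD
    rw [Finset.mul_sum, ← Finset.sum_add_distrib]
    apply Finset.sum_congr rfl
    intro u _
    rw [Finset.mul_sum, ← Finset.sum_add_distrib]
    apply Finset.sum_congr rfl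
    intro v _
    split_ifs
    · rfl
    · simp
  linarith

end Pool.Agent.BoolWidth
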