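import Pool.Agent.Lib_MP_0cf6e1_b.Defs

/-!
# Piece SHIFT: translates of finite sets of integers
-/

set_option autoImplicit false

open scoped Classical

namespace Pool.Agent.BoolWidth

private theorem mem_sh (F : Finset ℤ) (a z : ℤ) : z ∈ sh F a ↔ z - a ∈ F := by
  unfold sh
  rw [Finset.mem_image]
  constructor
  · rintro ⟨y, hy, rfl⟩
    simpa using hy
  · intro h
    exact ⟨z - a, h, by ring⟩

theorem sh_card (F : Finset ℤ) (a : ℤ) : (sh F a).card = F.card := by
  unfold sh
  exact Finset.card_image_of_injective _ (add_left_injective a)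

theorem sh_sh (F : Finset ℤ) (a b : ℤ) : sh (sh F a) b = sh F (a + b) := by
  ext z
  rw [mem_sh, mem_sh, mem_sh]
  have h : z - b - a = z - (a + b) := by ring
  rw [h]

theorem sh_zero (F : Finset ℤ) : sh F 0 = F := by
  ext z
  rw [mem_sh, sub_zero]

private theorem sh_symmDiff (F G : Finset ℤ) (a : ℤ) :
    symmDiff (sh F a) (sh G a) = sh (symmDiff F G) a := by
  ext z
  simp only [Finset.mem_symmDiff, mem_sh]

theorem sh_symm (F G : Finset ℤ) (a : ℤ) : (symmDiff (sh F a) (sh G a)).card = (symmDiff F G).card := by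
  rw [sh_symmDiff, sh_card]

theorem sh_symm_neg (F G : Finset ℤ) (a : ℤ) : (symmDiff (sh F (-a)) G).card = (symmDiff F (sh G a)).card := by
  have h := sh_symm (sh F (-a)) G a
  rw [sh_sh, neg_add_cancel, sh_zero] at h
  exact h.symm

theorem symm_tri (F G H : Finset ℤ) : (symmDiff F H).card ≤ (symmDiff F G).card + (symmDiff G H).card := by
  refine le_trans (Finset.card_le_card ?_) (Finset.card_union_le _ _)
  intro z hz
  simp only [Finset.mem_symmDiff, Finset.mem_union] at hz ⊢
  tauto

theorem card_le_symm (F G : Finset ℤ) : F.card ≤ G.card + (symmDiff F G).card := by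
  refine le_trans (Finset.card_le_card ?_) (Finset.card_union_le _ _)
  intro z hz
  simp only [Finset.mem_symmDiff, Finset.mem_union]
  tauto

theorem symm_inter (F G : Finset ℤ) : (symmDiff F G).card + 2 * (F ∩ G).card = F.card + G.card := by
  have h1 : (symmDiff F G).card = (F \ G).card + (G \ F).card := by
    rw [symmDiff_def, Finset.sup_eq_union]
    exact Finset.card_union_of_disjoint disjoint_sdiff_sdiff
  have h2 := Finset.card_sdiff_add_card_inter F G
  have h3 := Finset.card_sdiff_add_card_inter G F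
  rw [Finset.inter_comm G F] at h3
  omega

/-- `∑_x |(A + x) ∩ B| ≤ |A| |B|` (the pairs `(a, b)` determine `x = b - a`), form over `Fin C` -/
theorem shifts_card_fin (A B : Finset ℤ) (hB : B.Nonempty) (C : ℕ) :
    ((Finset.univ : Finset (Fin C)).filter
      (fun x : Fin C => B.card ≤ 2 * (sh A ((x : ℕ) : ℤ) ∩ B).card)).card ≤ 2 * A.card := by
  generalize hT : ((Finset.univ : Finset (Fin C)).filter
    (fun x : Fin C => B.card ≤ 2 * (sh A ((x : ℕ) : ℤ) ∩ B).card)) = T
  have h1 : T.card * B.card ≤ ∑ x ∈ T, 2 * (sh A ((x : ℕ) : ℤ) ∩ B).card := by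
    rw [← smul_eq_mul]
    apply Finset.card_nsmul_le_sum
    intro x hx
    rw [← hT, Finset.mem_filter] at hx
    exact hx.2
  have h2 : ∑ x ∈ T, (sh A ((x : ℕ) : ℤ) ∩ B).card ≤ (A ×ˢ B).card := by
    rw [← Finset.card_sigma]
    apply Finset.card_le_card_of_injOn (fun p => (p.2 - ((p.1 : ℕ) : ℤ), p.2))
    · intro p hp
      simp only [Finset.coe_sigma, Set.mem_sigma_iff, Finset.mem_coe, Finset.mem_inter, mem_sh] at hp
      simp only [Finset.mem_coe, Finset.mem_product]
      exact ⟨hp.2.1, hp.2.2⟩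
    · rintro ⟨x, z⟩ _ ⟨x', z'⟩ _ h
      simp only [Prod.mk.injEq] at h
      obtain ⟨h3, h4⟩ := h
      subst h4
      have h5 : ((x : ℕ) : ℤ) = ((x' : ℕ) : ℤ) := by linarith
      have h6 : (x : ℕ) = (x' : ℕ) := by exact_mod_cast h5
      have h7 : x = x' := Fin.ext h6
      subst h7
      rfl
  rw [← Finset.mul_sum] at h1
  rw [Finset.card_product] at h2
  have hBp : 0 < B.card := Finset.card_pos.mpr hB
  have h3 : T.card * B.card ≤ (2 * A.card) * B.card := by
    calc T.card * B.card ≤ 2 * ∑ x ∈ T, (sh A ((x : ℕ) : ℤ) ∩ B).card := h1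
      _ ≤ 2 * (A.card * B.card) := Nat.mul_le_mul_left _ h2
      _ = (2 * A.card) * B.card := by ring
  exact Nat.le_of_mul_le_mul_right h3 hBp

/-- `∑_x |(A + x) ∩ B| ≤ |A| |B|` (the pairs `(a, b)` determine `x = b - a`) -/
theorem shifts_card (A B : Finset ℤ) (hB : B.Nonempty) (C : ℕ) :
    ((Finset.univ : Finset (Fin C)).filter (fun x => B.card ≤ 2 * (sh A ((x : ℕ) : ℤ) ∩ B).card)).card ≤ 2 * A.card := by
  refine le_trans ?_ (shifts_card_fin A B hB C)
  refine le_trans (Finset.card_le_card (t := ((Finset.univ : Finset (Fin C)).filter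
    (fun x : Fin C => B.card ≤ 2 * (sh A ((x : ℕ) : ℤ) ∩ B).card)).image (fun x : Fin C => (x : ℕ))) ?_)
    Finset.card_image_le
  intro z hz
  rw [Finset.mem_filter] at hz
  obtain ⟨hz1, hz2⟩ := hz
  simp only [Finset.bind_def, Finset.pure_def, Finset.mem_sup, Finset.mem_singleton, Finset.mem_univ,
    true_and] at hz1
  obtain ⟨x, hx⟩ := hz1
  rw [Finset.mem_image]
  refine ⟨x, ?_, hx.symm⟩
  rw [Finset.mem_filter]
  refine ⟨Finset.mem_univ _, ?_⟩
  rw [← hx]
  exact hz2

end Pool.Agent.BoolWidth
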