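import Pool.Agent.Lib_MP_0cf6e1_b.Thr
import Pool.Agent.Lib_MP_0cf6e1_b.Shift

/-!
# Piece NOBADI: from sets to weights
-/

set_option autoImplicit false

open scoped Classical

namespace Pool.Agent.BoolWidth

variable {V : Type} [Fintype V] {D : ℕ}

/-- the set `{x : s < f x}` as a set of integers -/
noncomputable def upS (f : Fin D → ℝ) (s : ℝ) : Finset ℤ :=
  (Finset.univ.filter (fun x => s < f x)).image (fun x : Fin D => ((x : ℕ) : ℤ))

theorem upS_card (f : Fin D → ℝ) (s : ℝ) : (upS f s).card = (Finset.univ.filter (fun x => s < f x)).card := by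
  unfold upS
  apply Finset.card_image_of_injective
  intro x y hxy
  have h : ((x : ℕ) : ℤ) = ((y : ℕ) : ℤ) := hxy
  exact Fin.ext (by exact_mod_cast h)

theorem upS_subset (f : Fin D → ℝ) (s : ℝ) : upS f s ⊆ Finset.Ico 0 (D : ℤ) := by
  intro z hz
  unfold upS at hz
  rw [Finset.mem_image] at hz
  obtain ⟨x, _, rfl⟩ := hz
  rw [Finset.mem_Ico]
  have := x.isLt
  omega

theorem upS_inter (f g : Fin D → ℝ) (s : ℝ) (k : ℕ) :
    ((sh (upS f s) k ∩ upS g s).card : ℝ) =
      ∑ x : Fin D, ∑ y : Fin D, if (x : ℕ) + k = (y : ℕ) ∧ s < f x ∧ s < g y then (1 : ℝ) else 0 := by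
  have h1 : sh (upS f s) k ∩ upS g s =
      ((Finset.univ : Finset (Fin D × Fin D)).filter
        (fun p => (p.1 : ℕ) + k = (p.2 : ℕ) ∧ s < f p.1 ∧ s < g p.2)).image
        (fun p => ((p.2 : ℕ) : ℤ)) := by
    ext z
    rw [Finset.mem_inter, Finset.mem_image]
    unfold sh upS
    rw [Finset.mem_image, Finset.mem_image]
    constructor
    · rintro ⟨⟨a, ha, haz⟩, y, hy, hyz⟩
      rw [Finset.mem_image] at ha
      obtain ⟨x, hx, rfl⟩ := ha
      rw [Finset.mem_filter] at hx hy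
      refine ⟨(x, y), ?_, hyz⟩
      rw [Finset.mem_filter]
      refine ⟨Finset.mem_univ _, ?_, hx.2, hy.2⟩
      show (x : ℕ) + k = (y : ℕ)
      omega
    · rintro ⟨⟨x, y⟩, hp, hz⟩
      rw [Finset.mem_filter] at hp
      obtain ⟨_, hp1, hp2, hp3⟩ := hp
      refine ⟨⟨((x : ℕ) : ℤ), ?_, ?_⟩, y, ?_, hz⟩
      · rw [Finset.mem_image]
        exact ⟨x, Finset.mem_filter.2 ⟨Finset.mem_univ _, hp2⟩, rfl⟩
      · rw [← hz]
        show ((x : ℕ) : ℤ) + (k : ℤ) = ((y : ℕ) : ℤ)
        have : (x : ℕ) + k = (y : ℕ) := hp1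
        omega
      · exact Finset.mem_filter.2 ⟨Finset.mem_univ _, hp3⟩
  rw [h1, Finset.card_image_of_injOn, Finset.card_filter, Nat.cast_sum, Fintype.sum_prod_type]
  · apply Finset.sum_congr rfl
    intro x _
    apply Finset.sum_congr rfl
    intro y _
    split_ifs <;> simp
  · rintro ⟨x, y⟩ hp ⟨x', y'⟩ hp' h
    rw [Finset.mem_coe, Finset.mem_filter] at hp hp'
    have h2 : ((y : ℕ) : ℤ) = ((y' : ℕ) : ℤ) := h
    have h3 : (x : ℕ) + k = (y : ℕ) := hp.2.1
    have h4 : (x' : ℕ) + k = (y' : ℕ) := hp'.2.1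
    have h5 : x = x' := Fin.ext (by omega)
    have h6 : y = y' := Fin.ext (by omega)
    rw [h5, h6]

/-- Stage C. From `Good` for sets to the inequality for the cardinalities `c u = |F u|`. Suppose `∑_{(u,v) arc in W0} (|I| - K |Δ|) > (1 + 1/B) ∑_{u ∈ W0} |F u|` with `I = (F u + t) ∩ F v`, `Δ` the symmetric difference. With
`r = |Δ| / max(|F u|, |F v|)`: `|I| - K |Δ| ≤ min(|F u|, |F v|) (1 - K r)` (`|I| ≤ min ≤ max`). `threshold` with `f = |F u|` on `W0` (extended by `0`), `b (u,v) = 1 - K r` on the arcs, gives `z ≥ 0` and `W = {u ∈ W0 : |F u| > z}` with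
`∑_{arcs in W} (1 - K r) > (1 + 1/B) |W|`; an arc which is not `Good` has `K r > 1`, so contributes `< 0`; the others contribute `≤ 1`. So `B eIn (E ∧ Good) W > (B + 1) |W|`, contradiction with `NoBad`. -/
theorem stageC (E : V → V → Prop) (t : V → V → ℕ) (L K B : ℕ) (hB : 1 ≤ B) (hN : NoBad E t D L K B) (W0 : Finset V)
    (F : V → Finset ℤ) (hF : ∀ u ∈ W0, F u ⊆ Finset.Ico 0 (D : ℤ) ∧ (F u).card ≤ L) :
    ∑ u ∈ W0, ∑ v ∈ W0, (if E u v then ((sh (F u) (t u v) ∩ F v).card : ℝ) -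
        K * ((symmDiff (sh (F u) (t u v)) (F v)).card : ℝ) else 0) ≤ (1 + 1 / (B : ℝ)) * ∑ u ∈ W0, ((F u).card : ℝ) := by
  by_contra hcon
  push Not at hcon
  have hB0 : (0 : ℝ) < B := by exact_mod_cast hB
  set f : V → ℝ := fun u => if u ∈ W0 then ((F u).card : ℝ) else 0 with hf
  set b : V → V → ℝ := fun u v => if u ∈ W0 ∧ v ∈ W0 ∧ E u v then
    1 - K * (((symmDiff (sh (F u) (t u v)) (F v)).card : ℝ) / max ((F u).card : ℝ) ((F v).card : ℝ))
    else 0 with hb
  have hf0 : ∀ u, 0 ≤ f u := by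
    intro u
    simp only [hf]
    split_ifs
    · exact Nat.cast_nonneg _
    · exact le_refl _
  have hlt : ∑ u, (fun _ => 1 + 1 / (B : ℝ)) u * f u < ∑ u, ∑ v, b u v * min (f u) (f v) := by
    have h1 : ∑ u, (fun _ => 1 + 1 / (B : ℝ)) u * f u =
        (1 + 1 / (B : ℝ)) * ∑ u ∈ W0, ((F u).card : ℝ) := by
      rw [← Finset.mul_sum]
      congr 1
      simp only [hf]
      rw [← Finset.sum_filter]
      congr 1
      ext u
      simp
    rw [h1]
    refine lt_of_lt_of_le hcon ?_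
    have h2 : ∑ u, ∑ v, b u v * min (f u) (f v) = ∑ u ∈ W0, ∑ v ∈ W0, b u v * min (f u) (f v) := by
      symm
      rw [← Finset.sum_subset (Finset.subset_univ W0)]
      · apply Finset.sum_congr rfl
        intro u hu
        apply Finset.sum_subset (Finset.subset_univ W0)
        intro v _ hv
        simp only [hb]
        rw [if_neg (fun h => hv h.2.1), zero_mul]
      · intro u _ hu
        apply Finset.sum_eq_zero
        intro v _
        simp only [hb]
        rw [if_neg (fun h => hu h.1), zero_mul]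
    rw [h2]
    apply Finset.sum_le_sum
    intro u hu
    apply Finset.sum_le_sum
    intro v hv
    by_cases hE : E u v
    · simp only [hf, hb]
      rw [if_pos hE, if_pos ⟨hu, hv, hE⟩, if_pos hu, if_pos hv]
      set Δ : ℝ := ((symmDiff (sh (F u) (t u v)) (F v)).card : ℝ) with hΔ
      set I : ℝ := ((sh (F u) (t u v) ∩ F v).card : ℝ) with hI
      have hI1 : I ≤ (F u).card := by
        rw [hI, ← sh_card (F u) (t u v)]
        exact_mod_cast Finset.card_le_card Finset.inter_subset_left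
      have hI2 : I ≤ (F v).card := by
        rw [hI]
        exact_mod_cast Finset.card_le_card Finset.inter_subset_right
      have hΔ0 : 0 ≤ Δ := Nat.cast_nonneg _
      have hK0 : (0 : ℝ) ≤ K := Nat.cast_nonneg _
      have hx0 : (0 : ℝ) ≤ (F u).card := Nat.cast_nonneg _
      have hy0 : (0 : ℝ) ≤ (F v).card := Nat.cast_nonneg _
      have hmin : I ≤ min ((F u).card : ℝ) ((F v).card : ℝ) := le_min hI1 hI2
      have hmm : Δ / max ((F u).card : ℝ) ((F v).card : ℝ) * min ((F u).card : ℝ) ((F v).card : ℝ)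
          ≤ Δ := by
        rcases (le_max_of_le_left hx0 : (0 : ℝ) ≤ max ((F u).card : ℝ) ((F v).card : ℝ)).eq_or_lt
          with h | h
        · rw [← h, div_zero, zero_mul]
          exact hΔ0
        · rw [div_mul_eq_mul_div, div_le_iff₀ h]
          apply mul_le_mul_of_nonneg_left _ hΔ0
          exact min_le_max
      nlinarith [mul_le_mul_of_nonneg_left hmm hK0]
    · simp only [hb]
      rw [if_neg hE, if_neg (fun h => hE h.2.2), zero_mul]
  obtain ⟨s, hs, hlt2⟩ := threshold b (fun _ => 1 + 1 / (B : ℝ)) f hf0 hlt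
  set W := Finset.univ.filter (fun i => s < f i) with hW
  have hWmem : ∀ u ∈ W, u ∈ W0 ∧ s < ((F u).card : ℝ) := by
    intro u hu
    rw [hW, Finset.mem_filter] at hu
    by_cases h : u ∈ W0
    · refine ⟨h, ?_⟩
      have := hu.2
      simp only [hf] at this
      rwa [if_pos h] at this
    · exfalso
      have := hu.2
      simp only [hf] at this
      rw [if_neg h] at this
      linarith
  have hsum : ∑ u ∈ W, ∑ v ∈ W, b u v ≤ (eIn (fun u v => E u v ∧ Good t F K u v) W : ℝ) := by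
    unfold eIn
    rw [Finset.card_filter, Nat.cast_sum, Finset.sum_product]
    apply Finset.sum_le_sum
    intro u hu
    apply Finset.sum_le_sum
    intro v hv
    obtain ⟨hu1, hu2⟩ := hWmem u hu
    obtain ⟨hv1, hv2⟩ := hWmem v hv
    by_cases hE : E u v
    · simp only [hb]
      rw [if_pos ⟨hu1, hv1, hE⟩]
      have hpos : (0 : ℝ) < max ((F u).card : ℝ) ((F v).card : ℝ) :=
        lt_of_lt_of_le (lt_of_le_of_lt hs hu2) (le_max_left _ _)
      have hΔ0 : (0 : ℝ) ≤ ((symmDiff (sh (F u) (t u v)) (F v)).card : ℝ) := Nat.cast_nonneg _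
      have hK0 : (0 : ℝ) ≤ K := Nat.cast_nonneg _
      by_cases hg : Good t F K u v
      · rw [if_pos ⟨hE, hg⟩]
        have : 0 ≤ K * (((symmDiff (sh (F u) (t u v)) (F v)).card : ℝ) /
            max ((F u).card : ℝ) ((F v).card : ℝ)) :=
          mul_nonneg hK0 (div_nonneg hΔ0 hpos.le)
        push_cast
        linarith
      · rw [if_neg (fun h => hg h.2)]
        unfold Good at hg
        push Not at hg
        have hg' : max ((F u).card : ℝ) ((F v).card : ℝ) <
            K * ((symmDiff (sh (F u) (t u v)) (F v)).card : ℝ) := by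
          exact_mod_cast hg
        have h3 : 1 < K * (((symmDiff (sh (F u) (t u v)) (F v)).card : ℝ) /
            max ((F u).card : ℝ) ((F v).card : ℝ)) := by
          rw [← mul_div_assoc, lt_div_iff₀ hpos, one_mul]
          exact hg'
        push_cast
        linarith
    · simp only [hb]
      rw [if_neg (fun h => hE h.2.2), if_neg (fun h => hE h.1)]
      simp
  have hNB := hN W F (by
    intro u hu
    obtain ⟨h1, h2⟩ := hWmem u hu
    refine ⟨?_, hF u h1⟩
    rw [← Finset.card_pos]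
    have : (0 : ℝ) < ((F u).card : ℝ) := lt_of_le_of_lt hs h2
    exact_mod_cast this)
  rw [Finset.sum_const, nsmul_eq_mul] at hlt2
  have h4 : (B : ℝ) * (eIn (fun u v => E u v ∧ Good t F K u v) W : ℝ) ≤ (B + 1) * (W.card : ℝ) := by
    exact_mod_cast hNB
  have h5 : (W.card : ℝ) * (1 + 1 / (B : ℝ)) < (eIn (fun u v => E u v ∧ Good t F K u v) W : ℝ) :=
    lt_of_lt_of_le hlt2 hsum
  have h6 : (B : ℝ) * ((W.card : ℝ) * (1 + 1 / (B : ℝ))) <
      (B : ℝ) * (eIn (fun u v => E u v ∧ Good t F K u v) W : ℝ) :=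
    mul_lt_mul_of_pos_left h5 hB0
  have h7 : (B : ℝ) * ((W.card : ℝ) * (1 + 1 / (B : ℝ))) = (B + 1) * (W.card : ℝ) := by
    field_simp
  linarith

/-- sum over the arcs of a function of the ends -/
lemma nobadi_deg (E : V → V → Prop) (W0 : Finset V) (α : V → ℝ) :
    ∑ u ∈ W0, ∑ v ∈ W0, (if E u v then α u + α v else 0) =
      ∑ u ∈ W0, (∑ v ∈ W0, ((if E u v then (1 : ℝ) else 0) + (if E v u then (1 : ℝ) else 0))) *
        α u := by
  have h1 : ∑ u ∈ W0, ∑ v ∈ W0, (if E u v then α u + α v else 0) =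
      ∑ u ∈ W0, ∑ v ∈ W0, (if E u v then α u else 0) +
        ∑ u ∈ W0, ∑ v ∈ W0, (if E v u then α u else 0) := by
    rw [Finset.sum_comm (f := fun u v => if E v u then α u else 0), ← Finset.sum_add_distrib]
    apply Finset.sum_congr rfl
    intro u _
    rw [← Finset.sum_add_distrib]
    apply Finset.sum_congr rfl
    intro v _
    split_ifs <;> ring
  rw [h1, ← Finset.sum_add_distrib]
  apply Finset.sum_congr rfl
  intro u _
  rw [← Finset.sum_add_distrib, Finset.sum_mul]
  apply Finset.sum_congr rfl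
  intro v _
  split_ifs <;> ring

/-- reduction of a double sum over `V × Fin D` -/
lemma nobadi_sum (W0 : Finset V) (g : V → Fin D → ℝ) :
    ∑ p : V × Fin D, (if p.1 ∈ W0 then g p.1 p.2 else 0) = ∑ u ∈ W0, ∑ x, g u x := by
  rw [Fintype.sum_prod_type, ← Finset.sum_subset (Finset.subset_univ W0)]
  · apply Finset.sum_congr rfl
    intro u hu
    apply Finset.sum_congr rfl
    intro x _
    rw [if_pos hu]
  · intro u _ hu
    apply Finset.sum_eq_zero
    intro x _
    rw [if_neg hu]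

/-- Stage B. `threshold` on `V × Fin D` with `f (u, x) = φ u x` for `u ∈ W0` (else `0`), `b ((u,x),(v,y)) = 1 + 2 K` if `E u v`, `x + t u v = y`, `c (u, x) = 1 + 1/B + K deg(u)`, `deg(u)` = number of arcs in `W0` at `u` (both directions), using
`∑_{arcs in W0} K (∑ φ u + ∑ φ v) = ∑_{u ∈ W0} K deg(u) ∑ φ u` and the same for the sets `F u = upS (φ u) s`, with `|Δ| = |F u| + |F v| - 2 |I|`. Contradiction with `stageC`. -/
theorem stageB (E : V → V → Prop) (t : V → V → ℕ) (L K B : ℕ) (hB : 1 ≤ B) (hN : NoBad E t D L K B) (W0 : Finset V)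
    (φ : V → Fin D → ℝ) (hφ : ∀ u x, 0 ≤ φ u x)
    (hthin : ∀ (u : V) (s : ℝ), 0 ≤ s → (Finset.univ.filter (fun x => s < φ u x)).card ≤ L) :
    ∑ u ∈ W0, ∑ v ∈ W0, (if E u v then ovl (t u v) (φ u) (φ v) -
        K * (∑ x, φ u x + ∑ x, φ v x - 2 * ovl (t u v) (φ u) (φ v)) else 0) ≤
      (1 + 1 / (B : ℝ)) * ∑ u ∈ W0, ∑ x, φ u x := by
  by_contra hcon
  push Not at hcon
  have hK0 : (0 : ℝ) ≤ K := Nat.cast_nonneg _
  set deg : V → ℝ := fun u =>
    ∑ v ∈ W0, ((if E u v then (1 : ℝ) else 0) + (if E v u then (1 : ℝ) else 0)) with hdeg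
  set f : V × Fin D → ℝ := fun p => if p.1 ∈ W0 then φ p.1 p.2 else 0 with hf
  set b : V × Fin D → V × Fin D → ℝ := fun p q =>
    if p.1 ∈ W0 ∧ q.1 ∈ W0 ∧ E p.1 q.1 ∧ (p.2 : ℕ) + t p.1 q.1 = (q.2 : ℕ) then 1 + 2 * (K : ℝ)
    else 0 with hb
  set c : V × Fin D → ℝ := fun p => 1 + 1 / (B : ℝ) + K * deg p.1 with hc
  have hf0 : ∀ p, 0 ≤ f p := by
    intro p
    simp only [hf]
    split_ifs
    · exact hφ _ _
    · exact le_refl _
  -- the two sides of the threshold inequality
  have hL : ∑ p, c p * f p = ∑ u ∈ W0, (1 + 1 / (B : ℝ) + K * deg u) * ∑ x, φ u x := by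
    have h1 : ∑ p, c p * f p = ∑ p : V × Fin D,
        (if p.1 ∈ W0 then (1 + 1 / (B : ℝ) + K * deg p.1) * φ p.1 p.2 else 0) := by
      apply Finset.sum_congr rfl
      intro p _
      simp only [hf, hc]
      split_ifs <;> simp
    rw [h1, nobadi_sum W0 (fun u x => (1 + 1 / (B : ℝ) + K * deg u) * φ u x)]
    apply Finset.sum_congr rfl
    intro u _
    exact (Finset.mul_sum _ _ _).symm
  have hR : ∑ p, ∑ q, b p q * min (f p) (f q) =
      ∑ u ∈ W0, ∑ v ∈ W0, (if E u v then (1 + 2 * (K : ℝ)) * ovl (t u v) (φ u) (φ v) else 0) := by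
    have h1 : ∀ p : V × Fin D, ∑ q, b p q * min (f p) (f q) =
        if p.1 ∈ W0 then ∑ v ∈ W0, ∑ y : Fin D, (if E p.1 v ∧ (p.2 : ℕ) + t p.1 v = (y : ℕ) then
          (1 + 2 * (K : ℝ)) * min (φ p.1 p.2) (φ v y) else 0) else 0 := by
      intro p
      by_cases hp : p.1 ∈ W0
      · rw [if_pos hp, ← nobadi_sum W0 (fun v y => if E p.1 v ∧ (p.2 : ℕ) + t p.1 v = (y : ℕ) then
          (1 + 2 * (K : ℝ)) * min (φ p.1 p.2) (φ v y) else 0)]
        apply Finset.sum_congr rfl
        intro q _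
        simp only [hb, hf]
        by_cases hq : q.1 ∈ W0
        · by_cases h2 : E p.1 q.1 ∧ (p.2 : ℕ) + t p.1 q.1 = (q.2 : ℕ)
          · rw [if_pos ⟨hp, hq, h2.1, h2.2⟩, if_pos hp, if_pos hq, if_pos hq, if_pos h2]
          · rw [if_neg (fun h => h2 ⟨h.2.2.1, h.2.2.2⟩), zero_mul, if_pos hq, if_neg h2]
        · rw [if_neg (fun h => hq h.2.1), if_neg hq, zero_mul]
          rw [if_neg hq]
      · rw [if_neg hp]
        apply Finset.sum_eq_zero
        intro q _
        simp only [hb]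
        rw [if_neg (fun h => hp h.1), zero_mul]
    rw [Finset.sum_congr rfl (fun p _ => h1 p), nobadi_sum W0 (fun u x => ∑ v ∈ W0, ∑ y : Fin D,
      (if E u v ∧ (x : ℕ) + t u v = (y : ℕ) then
          (1 + 2 * (K : ℝ)) * min (φ u x) (φ v y) else 0))]
    apply Finset.sum_congr rfl
    intro u _
    rw [Finset.sum_comm]
    apply Finset.sum_congr rfl
    intro v _
    by_cases hE : E u v
    · rw [if_pos hE]
      unfold ovl
      rw [Finset.mul_sum]
      apply Finset.sum_congr rfl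
      intro x _
      rw [Finset.mul_sum]
      apply Finset.sum_congr rfl
      intro y _
      by_cases h2 : (x : ℕ) + t u v = (y : ℕ)
      · rw [if_pos ⟨hE, h2⟩, if_pos h2]
      · rw [if_neg (fun h => h2 h.2), if_neg h2, mul_zero]
    · rw [if_neg hE]
      apply Finset.sum_eq_zero
      intro x _
      apply Finset.sum_eq_zero
      intro y _
      rw [if_neg (fun h => hE h.1)]
  have hlt : ∑ p, c p * f p < ∑ p, ∑ q, b p q * min (f p) (f q) := by
    rw [hL, hR]
    have h1 : ∑ u ∈ W0, ∑ v ∈ W0, (if E u v then ovl (t u v) (φ u) (φ v) -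
        K * (∑ x, φ u x + ∑ x, φ v x - 2 * ovl (t u v) (φ u) (φ v)) else 0) =
        ∑ u ∈ W0, ∑ v ∈ W0, (if E u v then (1 + 2 * (K : ℝ)) * ovl (t u v) (φ u) (φ v) else 0) -
        K * ∑ u ∈ W0, ∑ v ∈ W0, (if E u v then ∑ x, φ u x + ∑ x, φ v x else 0) := by
      rw [Finset.mul_sum, ← Finset.sum_sub_distrib]
      apply Finset.sum_congr rfl
      intro u _
      rw [Finset.mul_sum, ← Finset.sum_sub_distrib]
      apply Finset.sum_congr rfl
      intro v _
      split_ifs
      · ring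
      · ring
    rw [h1, nobadi_deg E W0 (fun u => ∑ x, φ u x)] at hcon
    have h2 : ∑ u ∈ W0, (1 + 1 / (B : ℝ) + K * deg u) * ∑ x, φ u x =
        (1 + 1 / (B : ℝ)) * ∑ u ∈ W0, ∑ x, φ u x + K * ∑ u ∈ W0, deg u * ∑ x, φ u x := by
      rw [Finset.mul_sum, Finset.mul_sum, ← Finset.sum_add_distrib]
      apply Finset.sum_congr rfl
      intro u _
      ring
    rw [h2]
    linarith
  obtain ⟨s, hs, hlt2⟩ := threshold b c f hf0 hlt
  -- translate to sets
  have hfil : ∀ g : V × Fin D → ℝ, ∑ p ∈ Finset.univ.filter (fun p => s < f p), g p =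
      ∑ u ∈ W0, ∑ x, if s < φ u x then g (u, x) else 0 := by
    intro g
    rw [Finset.sum_filter, ← nobadi_sum W0 (fun u x => if s < φ u x then g (u, x) else 0)]
    apply Finset.sum_congr rfl
    intro p _
    simp only [hf]
    by_cases hp : p.1 ∈ W0
    · rw [if_pos hp, if_pos hp]
    · rw [if_neg hp, if_neg hp, if_neg (not_lt.2 hs)]
  have hcard : ∀ u, ((upS (φ u) s).card : ℝ) = ∑ x, if s < φ u x then (1 : ℝ) else 0 := by
    intro u
    rw [upS_card, Finset.card_filter, Nat.cast_sum]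
    apply Finset.sum_congr rfl
    intro x _
    split_ifs <;> simp
  have hL2 : ∑ p ∈ Finset.univ.filter (fun p => s < f p), c p =
      ∑ u ∈ W0, (1 + 1 / (B : ℝ) + K * deg u) * ((upS (φ u) s).card : ℝ) := by
    rw [hfil]
    apply Finset.sum_congr rfl
    intro u _
    rw [hcard, Finset.mul_sum]
    apply Finset.sum_congr rfl
    intro x _
    simp only [hc]
    split_ifs <;> simp
  have hR2 : ∑ p ∈ Finset.univ.filter (fun p => s < f p),
      ∑ q ∈ Finset.univ.filter (fun p => s < f p), b p q =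
      ∑ u ∈ W0, ∑ v ∈ W0, (if E u v then (1 + 2 * (K : ℝ)) *
        ((sh (upS (φ u) s) (t u v) ∩ upS (φ v) s).card : ℝ) else 0) := by
    rw [hfil]
    apply Finset.sum_congr rfl
    intro u hu
    have h1 : ∀ x : Fin D, (if s < φ u x then
        ∑ q ∈ Finset.univ.filter (fun p => s < f p), b (u, x) q else 0) =
        ∑ v ∈ W0, ∑ y : Fin D, (if E u v ∧ ((x : ℕ) + t u v = (y : ℕ) ∧ s < φ u x ∧ s < φ v y) then
          (1 + 2 * (K : ℝ)) else 0) := by
      intro x
      by_cases hx : s < φ u x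
      · rw [if_pos hx, hfil]
        apply Finset.sum_congr rfl
        intro v hv
        apply Finset.sum_congr rfl
        intro y _
        simp only [hb]
        by_cases hy : s < φ v y
        · rw [if_pos hy]
          by_cases h2 : E u v ∧ (x : ℕ) + t u v = (y : ℕ)
          · rw [if_pos ⟨hu, hv, h2.1, h2.2⟩, if_pos ⟨h2.1, h2.2, hx, hy⟩]
          · rw [if_neg (fun h => h2 ⟨h.2.2.1, h.2.2.2⟩), if_neg (fun h => h2 ⟨h.1, h.2.1⟩)]
        · rw [if_neg hy, if_neg (fun h => hy h.2.2.2)]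
      · rw [if_neg hx]
        symm
        apply Finset.sum_eq_zero
        intro v _
        apply Finset.sum_eq_zero
        intro y _
        rw [if_neg (fun h => hx h.2.2.1)]
    rw [Finset.sum_congr rfl (fun x _ => h1 x), Finset.sum_comm]
    apply Finset.sum_congr rfl
    intro v _
    by_cases hE : E u v
    · rw [if_pos hE, upS_inter, Finset.mul_sum]
      apply Finset.sum_congr rfl
      intro x _
      rw [Finset.mul_sum]
      apply Finset.sum_congr rfl
      intro y _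
      by_cases h2 : (x : ℕ) + t u v = (y : ℕ) ∧ s < φ u x ∧ s < φ v y
      · rw [if_pos ⟨hE, h2⟩, if_pos h2, mul_one]
      · rw [if_neg (fun h => h2 h.2), if_neg h2, mul_zero]
    · rw [if_neg hE]
      apply Finset.sum_eq_zero
      intro x _
      apply Finset.sum_eq_zero
      intro y _
      rw [if_neg (fun h => hE h.1)]
  rw [hL2, hR2] at hlt2
  have hC := stageC E t L K B hB hN W0 (fun u => upS (φ u) s) (by
    intro u _
    refine ⟨upS_subset _ _, ?_⟩
    show (upS (φ u) s).card ≤ L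
    rw [upS_card]
    exact hthin u s hs)
  have h1 : ∑ u ∈ W0, ∑ v ∈ W0, (if E u v then
        ((sh (upS (φ u) s) (t u v) ∩ upS (φ v) s).card : ℝ) -
        K * ((symmDiff (sh (upS (φ u) s) (t u v)) (upS (φ v) s)).card : ℝ) else 0) =
      ∑ u ∈ W0, ∑ v ∈ W0, (if E u v then (1 + 2 * (K : ℝ)) *
        ((sh (upS (φ u) s) (t u v) ∩ upS (φ v) s).card : ℝ) else 0) -
      K * ∑ u ∈ W0, ∑ v ∈ W0, (if E u v then
        ((upS (φ u) s).card : ℝ) + ((upS (φ v) s).card : ℝ) else 0) := by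
    rw [Finset.mul_sum, ← Finset.sum_sub_distrib]
    apply Finset.sum_congr rfl
    intro u _
    rw [Finset.mul_sum, ← Finset.sum_sub_distrib]
    apply Finset.sum_congr rfl
    intro v _
    by_cases hE : E u v
    · rw [if_pos hE, if_pos hE, if_pos hE]
      have h2 := symm_inter (sh (upS (φ u) s) (t u v)) (upS (φ v) s)
      rw [sh_card] at h2
      have h3 : ((symmDiff (sh (upS (φ u) s) (t u v)) (upS (φ v) s)).card : ℝ) +
          2 * ((sh (upS (φ u) s) (t u v) ∩ upS (φ v) s).card : ℝ) =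
          ((upS (φ u) s).card : ℝ) + ((upS (φ v) s).card : ℝ) := by exact_mod_cast h2
      rw [← h3]
      ring
    · rw [if_neg hE, if_neg hE, if_neg hE]
      ring
  have hC' : ∑ u ∈ W0, ∑ v ∈ W0, (if E u v then
        ((sh (upS (φ u) s) (t u v) ∩ upS (φ v) s).card : ℝ) -
        K * ((symmDiff (sh (upS (φ u) s) (t u v)) (upS (φ v) s)).card : ℝ) else 0) ≤
      (1 + 1 / (B : ℝ)) * ∑ u ∈ W0, ((upS (φ u) s).card : ℝ) := hC
  rw [h1, nobadi_deg E W0 (fun u => ((upS (φ u) s).card : ℝ))] at hC'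
  have h2 : ∑ u ∈ W0, (1 + 1 / (B : ℝ) + K * deg u) * ((upS (φ u) s).card : ℝ) =
      (1 + 1 / (B : ℝ)) * ∑ u ∈ W0, ((upS (φ u) s).card : ℝ) +
        K * ∑ u ∈ W0, deg u * ((upS (φ u) s).card : ℝ) := by
    rw [Finset.mul_sum, Finset.mul_sum, ← Finset.sum_add_distrib]
    apply Finset.sum_congr rfl
    intro u _
    ring
  rw [h2] at hlt2
  linarith

/-- Stage A. `threshold` with `f = A`, and `stageB` for `W0 = {A > s}`. -/
theorem stageA (E : V → V → Prop) (t : V → V → ℕ) (L K B : ℕ) (hB : 1 ≤ B) (hN : NoBad E t D L K B) (A : V → ℝ)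
    (hA : ∀ u, 0 ≤ A u) (φ : V → Fin D → ℝ) (hφ : ∀ u x, 0 ≤ φ u x)
    (hthin : ∀ (u : V) (s : ℝ), 0 ≤ s → (Finset.univ.filter (fun x => s < φ u x)).card ≤ L) :
    ∑ u, ∑ v, (if E u v then min (A u) (A v) * (ovl (t u v) (φ u) (φ v) -
        K * (∑ x, φ u x + ∑ x, φ v x - 2 * ovl (t u v) (φ u) (φ v))) else 0) ≤
      (1 + 1 / (B : ℝ)) * ∑ u, A u * ∑ x, φ u x := by
  by_contra hcon
  push Not at hcon
  set b : V → V → ℝ := fun u v => if E u v then ovl (t u v) (φ u) (φ v) -
        K * (∑ x, φ u x + ∑ x, φ v x - 2 * ovl (t u v) (φ u) (φ v)) else 0 with hb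
  have hlt : ∑ u, (fun u => (1 + 1 / (B : ℝ)) * ∑ x, φ u x) u * A u <
      ∑ u, ∑ v, b u v * min (A u) (A v) := by
    have h1 : ∑ u, (fun u => (1 + 1 / (B : ℝ)) * ∑ x, φ u x) u * A u =
        (1 + 1 / (B : ℝ)) * ∑ u, A u * ∑ x, φ u x := by
      rw [Finset.mul_sum]
      apply Finset.sum_congr rfl
      intro u _
      show ((1 + 1 / (B : ℝ)) * ∑ x, φ u x) * A u = _
      ring
    have h2 : ∑ u, ∑ v, b u v * min (A u) (A v) =
        ∑ u, ∑ v, (if E u v then min (A u) (A v) * (ovl (t u v) (φ u) (φ v) -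
        K * (∑ x, φ u x + ∑ x, φ v x - 2 * ovl (t u v) (φ u) (φ v))) else 0) := by
      apply Finset.sum_congr rfl
      intro u _
      apply Finset.sum_congr rfl
      intro v _
      simp only [hb]
      split_ifs
      · ring
      · ring
    rw [h1, h2]
    exact hcon
  obtain ⟨s, hs, hlt2⟩ := threshold b _ A hA hlt
  have h3 := stageB E t L K B hB hN (Finset.univ.filter (fun i => s < A i)) φ hφ hthin
  rw [← Finset.mul_sum] at hlt2
  exact absurd hlt2 (not_lt.2 h3)

end Pool.Agent.BoolWidth
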