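import Pool.Agent.Lib_MP_0cf6e1_b.Defs

/-!
# Piece PUSHS: projection of systems
-/

set_option autoImplicit false

open scoped Classical

namespace Pool.Agent.BoolWidth

variable {V : Type} [Fintype V] {D : ℕ}

private theorem pushs_row (E : V → V → Prop) (t : V → V → ℕ) (ρ : ℝ) (a : V × Fin D → ℝ)
    (N : V × Fin D → V × Fin D → ℝ) (h : Sys (liftE E t D) ρ a N) (u v : V) (x : Fin D) :
    ∑ y, N (u, x) (v, y) ≤ a (u, x) := by
  by_cases hx : (x : ℕ) + t u v < D
  · rw [Finset.sum_eq_single (⟨(x : ℕ) + t u v, hx⟩ : Fin D)]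
    · exact h.Nl _ _
    · intro y _ hy
      by_contra hne
      have h1 := (h.supp _ _ hne).2
      exact hy (Fin.ext h1.symm)
    · intro hn
      exact absurd (Finset.mem_univ _) hn
  · rw [Finset.sum_eq_zero]
    · exact h.a0 _
    · intro y _
      by_contra hne
      have h1 := (h.supp _ _ hne).2
      have h2 := y.2
      simp only at h1
      omega

private theorem pushs_col (E : V → V → Prop) (t : V → V → ℕ) (ρ : ℝ) (a : V × Fin D → ℝ)
    (N : V × Fin D → V × Fin D → ℝ) (h : Sys (liftE E t D) ρ a N) (u v : V) (y : Fin D) :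
    ∑ x, N (u, x) (v, y) ≤ a (v, y) := by
  by_cases hy : t u v ≤ (y : ℕ)
  · rw [Finset.sum_eq_single (⟨(y : ℕ) - t u v, by have := y.2; omega⟩ : Fin D)]
    · exact h.Nr _ _
    · intro x _ hx
      by_contra hne
      have h1 := (h.supp _ _ hne).2
      refine hx (Fin.ext ?_)
      simp only at h1 ⊢
      omega
    · intro hn
      exact absurd (Finset.mem_univ _) hn
  · rw [Finset.sum_eq_zero]
    · exact h.a0 _
    · intro x _
      by_contra hne
      have h1 := (h.supp _ _ hne).2
      simp only at h1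
      omega

omit [Fintype V] in
private theorem pushs_sum (N : V × Fin D → V × Fin D → ℝ) (S : Finset V) :
    ∑ u ∈ S, ∑ v ∈ S, pushN N u v =
      ∑ p ∈ S ×ˢ (Finset.univ : Finset (Fin D)), ∑ q ∈ S ×ˢ (Finset.univ : Finset (Fin D)), N p q := by
  rw [Finset.sum_product]
  refine Finset.sum_congr rfl (fun u _ => ?_)
  unfold pushN
  rw [Finset.sum_comm]
  refine Finset.sum_congr rfl (fun x _ => ?_)
  rw [Finset.sum_product]

omit [Fintype V] in
private theorem pushs_suma (a : V × Fin D → ℝ) (S : Finset V) :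
    ∑ u ∈ S, push a u = ∑ p ∈ S ×ˢ (Finset.univ : Finset (Fin D)), a p := by
  rw [Finset.sum_product]
  rfl

theorem sys_push (E : V → V → Prop) (t : V → V → ℕ) (ρ : ℝ) (a : V × Fin D → ℝ)
    (N : V × Fin D → V × Fin D → ℝ) (h : Sys (liftE E t D) ρ a N) : Sys E ρ (push a) (pushN N) := by
  refine ⟨?_, ?_, ?_, ?_, ?_, ?_, ?_⟩
  · intro p
    exact Finset.sum_nonneg (fun x _ => h.a0 _)
  · intro p q
    exact Finset.sum_nonneg (fun x _ => Finset.sum_nonneg (fun y _ => h.N0 _ _))
  · intro p q hne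
    obtain ⟨x, _, hx⟩ := Finset.exists_ne_zero_of_sum_ne_zero hne
    obtain ⟨y, _, hy⟩ := Finset.exists_ne_zero_of_sum_ne_zero hx
    exact (h.supp _ _ hy).1
  · intro p q
    exact Finset.sum_le_sum (fun x _ => pushs_row E t ρ a N h p q x)
  · intro p q
    unfold pushN
    rw [Finset.sum_comm]
    exact Finset.sum_le_sum (fun y _ => pushs_col E t ρ a N h p q y)
  · intro S
    rw [pushs_sum, pushs_suma]
    exact h.ext _
  · rw [pushs_sum, pushs_suma]
    rw [Finset.univ_product_univ]
    exact h.tot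

end Pool.Agent.BoolWidth
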