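import Pool.Agent.Lib_MP_0cf6e1_b.PhiL
import Pool.Agent.Lib_MP_0cf6e1_b.MainL
import Pool.Agent.Lib_MP_0cf6e1_b.NoBadI
import Pool.Agent.Lib_MP_0cf6e1_b.PushS

/-!
# Piece ONEL: one level of the tower
-/

set_option autoImplicit false

open scoped Classical

namespace Pool.Agent.BoolWidth

variable {V : Type} [Fintype V] {D : ℕ}

omit [Fintype V] in
theorem oneL_thin (L : ℕ) (hL : 1 ≤ L) (a : V × Fin D → ℝ) (ha : ∀ p, 0 ≤ a p) (u : V) (s : ℝ) (hs : 0 ≤ s) :
    (Finset.univ.filter (fun x => s < thn (1 / (L : ℝ)) a u x)).card ≤ L := by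
  have hLpos : (0 : ℝ) < L := by exact_mod_cast hL
  have h1 : ∀ x ∈ Finset.univ.filter (fun x => s < thn (1 / (L : ℝ)) a u x), 1 / (L : ℝ) ≤ mu a u x := by
    intro x hx
    have h2 := (Finset.mem_filter.1 hx).2
    unfold thn at h2
    have h3 : 0 < max (mu a u x - 1 / (L : ℝ)) 0 := lt_of_le_of_lt hs h2
    rcases lt_max_iff.1 h3 with h4 | h4
    · linarith
    · exact absurd h4 (lt_irrefl _)
  have h2 := Finset.card_nsmul_le_sum _ _ _ h1
  have h3 : ∑ x ∈ Finset.univ.filter (fun x => s < thn (1 / (L : ℝ)) a u x), mu a u x ≤ ∑ x, mu a u x :=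
    Finset.sum_le_sum_of_subset_of_nonneg (Finset.filter_subset _ _) (fun x _ _ => mu_nonneg ha u x)
  have h4 := mu_sum ha u
  rw [nsmul_eq_mul, mul_one_div] at h2
  have h5 : ((Finset.univ.filter (fun x => s < thn (1 / (L : ℝ)) a u x)).card : ℝ) / L ≤ 1 := h2.trans (h3.trans h4)
  rw [div_le_one hLpos] at h5
  exact_mod_cast h5

/-- `stageA` with `A = push a`, `φ = thn τ a`, `τ = 1/L` (more than `L` values `> τ` would have sum `> 1`), `main_lower`, and
`∑ thn u + ∑ thn v - 2 ovl (thn) (thn) ≤ 2 - 2 ovl (mu) (mu)` (`thin_mismatch`, `mu_sum`), i.e. `min(α, β) (...) ≤ 2 dd`. -/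
theorem PP_le (E : V → V → Prop) (t : V → V → ℕ) (L K B : ℕ) (hL : 1 ≤ L) (hB : 1 ≤ B) (hN : NoBad E t D L K B) (ρ : ℝ)
    (a : V × Fin D → ℝ) (N : V × Fin D → V × Fin D → ℝ) (h : Sys (liftE E t D) ρ a N) :
    (ρ - 1 - 1 / (B : ℝ)) * PP (1 / (L : ℝ)) a ≤ (4 + 2 * K) * DD E t a := by
  have hLpos : (0 : ℝ) < L := by exact_mod_cast hL
  have hτ : (0 : ℝ) < 1 / L := by positivity
  have h1 := main_lower E t ρ (1 / (L : ℝ)) hτ a N h
  have h2 := stageA E t L K B hB hN (push a) (push_nonneg h.a0) (thn (1 / (L : ℝ)) a)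
    (fun u x => le_max_right _ _) (fun u s hs => oneL_thin L hL a h.a0 u s hs)
  have h3 : ∑ u, ∑ v, (if E u v then min (push a u) (push a v) *
        ovl (t u v) (thn (1 / (L : ℝ)) a u) (thn (1 / (L : ℝ)) a v) else 0) ≤
      ∑ u, ∑ v, (if E u v then min (push a u) (push a v) * (ovl (t u v) (thn (1 / (L : ℝ)) a u) (thn (1 / (L : ℝ)) a v) -
        K * (∑ x, thn (1 / (L : ℝ)) a u x + ∑ x, thn (1 / (L : ℝ)) a v x -
          2 * ovl (t u v) (thn (1 / (L : ℝ)) a u) (thn (1 / (L : ℝ)) a v))) else 0) + 2 * K * DD E t a := by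
    unfold DD
    rw [Finset.mul_sum, ← Finset.sum_add_distrib]
    apply Finset.sum_le_sum
    intro u _
    rw [Finset.mul_sum, ← Finset.sum_add_distrib]
    apply Finset.sum_le_sum
    intro v _
    by_cases hE : E u v
    · rw [if_pos hE, if_pos hE, if_pos hE]
      have hm : 0 ≤ min (push a u) (push a v) := le_min (push_nonneg h.a0 u) (push_nonneg h.a0 v)
      have h4 := thin_mismatch (t u v) (mu a u) (mu a v) (mu_nonneg h.a0 u) (mu_nonneg h.a0 v) (1 / (L : ℝ)) hτ.le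
      have h5 := mu_sum h.a0 u
      have h6 := mu_sum h.a0 v
      have h7 : ∑ x, thn (1 / (L : ℝ)) a u x + ∑ x, thn (1 / (L : ℝ)) a v x -
          2 * ovl (t u v) (thn (1 / (L : ℝ)) a u) (thn (1 / (L : ℝ)) a v) ≤ 2 * (1 - ovl (t u v) (mu a u) (mu a v)) := by
        have h8 : ∑ x, thn (1 / (L : ℝ)) a u x + ∑ x, thn (1 / (L : ℝ)) a v x -
          2 * ovl (t u v) (thn (1 / (L : ℝ)) a u) (thn (1 / (L : ℝ)) a v) ≤
            ∑ x, mu a u x + ∑ x, mu a v x - 2 * ovl (t u v) (mu a u) (mu a v) := h4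
        linarith
      have h9 : min (push a u) (push a v) * (K * (∑ x, thn (1 / (L : ℝ)) a u x + ∑ x, thn (1 / (L : ℝ)) a v x -
          2 * ovl (t u v) (thn (1 / (L : ℝ)) a u) (thn (1 / (L : ℝ)) a v))) ≤
          min (push a u) (push a v) * (K * (2 * (1 - ovl (t u v) (mu a u) (mu a v)))) := by
        apply mul_le_mul_of_nonneg_left _ hm
        apply mul_le_mul_of_nonneg_left h7 (Nat.cast_nonneg _)
      unfold dd
      nlinarith
    · rw [if_neg hE, if_neg hE, if_neg hE]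
      simp
  have h4 : ∑ u, push a u * ∑ x, thn (1 / (L : ℝ)) a u x = PP (1 / (L : ℝ)) a := rfl
  rw [h4] at h2
  nlinarith

theorem thn_lower (L : ℕ) (hL : 2 < L) (m : ℝ) (hm0 : 0 < m) (hm1 : m ≤ 1) :
    m / 2 * (1 + Real.log m / Real.log ((L : ℝ) / 2)) ≤ max (m - 1 / (L : ℝ)) 0 := by
  have hL2 : (2 : ℝ) < L := by exact_mod_cast hL
  have hΛ : 0 < Real.log ((L : ℝ) / 2) := Real.log_pos (by linarith)
  by_cases hc : 2 / (L : ℝ) ≤ m
  · have h1 : Real.log m ≤ 0 := Real.log_nonpos hm0.le hm1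
    have h2 : Real.log m / Real.log ((L : ℝ) / 2) ≤ 0 := div_nonpos_of_nonpos_of_nonneg h1 hΛ.le
    have h3 : m / 2 * (1 + Real.log m / Real.log ((L : ℝ) / 2)) ≤ m / 2 := by nlinarith
    have h4 : 1 / (L : ℝ) ≤ m / 2 := by
      have : 2 / (L : ℝ) = 2 * (1 / L) := by ring
      linarith
    exact le_max_of_le_left (by linarith)
  · push Not at hc
    have h1 : Real.log m ≤ Real.log (2 / (L : ℝ)) := Real.log_le_log hm0 hc.le
    have h2 : Real.log (2 / (L : ℝ)) = - Real.log ((L : ℝ) / 2) := by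
      rw [← Real.log_inv, inv_div]
    have h3 : Real.log m / Real.log ((L : ℝ) / 2) ≤ -1 := by
      rw [div_le_iff₀ hΛ]
      linarith
    have h4 : m / 2 * (1 + Real.log m / Real.log ((L : ℝ) / 2)) ≤ 0 := by
      apply mul_nonpos_of_nonneg_of_nonpos (by linarith) (by linarith)
    exact le_max_of_le_right h4

/-- For `m = mu a u x > 0`: `max (m - τ) 0 ≥ m/2 (1 - log(1/m) / Λ)`, `Λ = log (L/2) = log(1/(2τ)) > 0`: if `m ≥ 2 τ` the left side is `≥ m/2` (and `m ≤ 1`), otherwise the right side is `≤ 0`.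
`Ent (push a) - Ent a = ∑ a (u, x) log (push a u / a (u, x))`. -/
theorem PP_ge (L : ℕ) (hL : 2 < L) (a : V × Fin D → ℝ) (ha : ∀ p, 0 ≤ a p) :
    (∑ p, a p - (Ent (push a) - Ent a) / Real.log ((L : ℝ) / 2)) / 2 ≤ PP (1 / (L : ℝ)) a := by
  set Λ := Real.log ((L : ℝ) / 2) with hΛ
  have h1 : (∑ p, a p - (Ent (push a) - Ent a) / Λ) / 2 =
      ∑ u, ∑ x, (a (u, x) - (a (u, x) * Real.log (push a u) - a (u, x) * Real.log (a (u, x))) / Λ) / 2 := by
    have e1 : ∑ p, a p = ∑ u, ∑ x, a (u, x) := Fintype.sum_prod_type _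
    have e2 : Ent a = ∑ u, ∑ x, a (u, x) * Real.log (a (u, x)) := by
      unfold Ent
      exact Fintype.sum_prod_type _
    have e3 : Ent (push a) = ∑ u, ∑ x, a (u, x) * Real.log (push a u) := by
      unfold Ent
      apply Finset.sum_congr rfl
      intro u _
      rw [← Finset.sum_mul]
      rfl
    rw [e1, e2, e3, ← Finset.sum_sub_distrib, Finset.sum_div, ← Finset.sum_sub_distrib, Finset.sum_div]
    apply Finset.sum_congr rfl
    intro u _
    rw [← Finset.sum_sub_distrib, Finset.sum_div, ← Finset.sum_sub_distrib, Finset.sum_div]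
  rw [h1]
  unfold PP
  apply Finset.sum_le_sum
  intro u _
  rw [Finset.mul_sum]
  apply Finset.sum_le_sum
  intro x _
  have hax := ha (u, x)
  rcases hax.eq_or_lt with h0 | h0
  · rw [← h0]
    simp only [zero_mul, sub_self, zero_div, sub_zero]
    apply mul_nonneg (push_nonneg ha u)
    exact le_max_right _ _
  · have hpush : 0 < push a u := by
      have : a (u, x) ≤ push a u := Finset.single_le_sum (f := fun x => a (u, x)) (fun i _ => ha (u, i)) (Finset.mem_univ x)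
      linarith
    have hm : mu a u x = a (u, x) / push a u := rfl
    have hm0 : 0 < mu a u x := by rw [hm]; positivity
    have hm1 : mu a u x ≤ 1 := by
      have : mu a u x ≤ ∑ x, mu a u x := Finset.single_le_sum (f := fun x => mu a u x) (fun i _ => mu_nonneg ha u i) (Finset.mem_univ x)
      exact this.trans (mu_sum ha u)
    have h2 := thn_lower L hL (mu a u x) hm0 hm1
    have h3 : Real.log (mu a u x) = Real.log (a (u, x)) - Real.log (push a u) := by
      rw [hm, Real.log_div h0.ne' hpush.ne']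
    have h4 : push a u * (mu a u x / 2 * (1 + Real.log (mu a u x) / Λ)) ≤ push a u * thn (1 / (L : ℝ)) a u x :=
      mul_le_mul_of_nonneg_left h2 hpush.le
    refine le_trans (le_of_eq ?_) h4
    have h5 : push a u * (mu a u x / 2 * (1 + Real.log (mu a u x) / Λ)) =
        (push a u * mu a u x) / 2 * (1 + Real.log (mu a u x) / Λ) := by ring
    rw [h5, mu_mul ha u x, h3]
    ring

theorem ent_mono (a : V × Fin D → ℝ) (ha : ∀ p, 0 ≤ a p) : Ent a ≤ Ent (push a) := by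
  have e2 : Ent a = ∑ u, ∑ x, a (u, x) * Real.log (a (u, x)) := by
    unfold Ent
    exact Fintype.sum_prod_type _
  have e3 : Ent (push a) = ∑ u, ∑ x, a (u, x) * Real.log (push a u) := by
    unfold Ent
    apply Finset.sum_congr rfl
    intro u _
    rw [← Finset.sum_mul]
    rfl
  rw [e2, e3]
  apply Finset.sum_le_sum
  intro u _
  apply Finset.sum_le_sum
  intro x _
  rcases (ha (u, x)).eq_or_lt with h0 | h0
  · rw [← h0]
    simp
  · apply mul_le_mul_of_nonneg_left _ h0.le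
    apply Real.log_le_log h0
    exact Finset.single_le_sum (f := fun x => a (u, x)) (fun i _ => ha (u, i)) (Finset.mem_univ x)

/-- With `T = ∑ a > 0`, `θ = PP/T ∈ [0, 1]`, `lam = Phi E (push a) - Phi (lift) a`: `PP_le` with `ρ - 1 - 1/B ≥ 1/B` and `DD_sq` give `θ^2 T ≤ 8 d B^2 (2 + K)^2 lam`; `PP_ge`: `(Ent (push a) - Ent a)/Λ ≥ (1 - 2 θ) T`.
So the right side is `≥ (θ^2/ξ + 1 - 2 θ) T ≥ (1 - ξ) T`. The case `T = 0` is trivial. -/
theorem one_level (E : V → V → Prop) (d : ℕ) (hd : DegLE E d) (t : V → V → ℕ) (L K B : ℕ) (hL : 2 < L) (hB : 1 ≤ B)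
    (hN : NoBad E t D L K B) (ρ : ℝ) (hρ : 1 + 2 / (B : ℝ) ≤ ρ) (ξ : ℝ) (hξ : 0 < ξ)
    (a : V × Fin D → ℝ) (N : V × Fin D → V × Fin D → ℝ) (h : Sys (liftE E t D) ρ a N) :
    (1 - ξ) * ∑ p, a p ≤ 8 * d * (B : ℝ) ^ 2 * (2 + K) ^ 2 / ξ * (Phi E (push a) - Phi (liftE E t D) a) +
      (Ent (push a) - Ent a) / Real.log ((L : ℝ) / 2) := by
  have hBpos : (0 : ℝ) < B := by exact_mod_cast hB
  have hL2 : (2 : ℝ) < L := by exact_mod_cast hL
  have hΛ : 0 < Real.log ((L : ℝ) / 2) := Real.log_pos (by linarith)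
  set T := ∑ p, a p with hT
  set P := PP (1 / (L : ℝ)) a with hP
  set X := DD E t a with hX
  set lam := Phi E (push a) - Phi (liftE E t D) a with hlam
  set H := (Ent (push a) - Ent a) / Real.log ((L : ℝ) / 2) with hH
  have h1 := PP_le E t L K B (by omega) hB hN ρ a N h
  have h2 := PP_ge L hL a h.a0
  have h3 := DD_sq E d hd t h.a0
  have hT0 : 0 ≤ T := Finset.sum_nonneg (fun p _ => h.a0 p)
  have hP0 : 0 ≤ P := by
    apply Finset.sum_nonneg
    intro u _
    apply mul_nonneg (push_nonneg h.a0 u)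
    apply Finset.sum_nonneg
    intro x _
    exact le_max_right _ _
  have hX0 : 0 ≤ X := by
    apply Finset.sum_nonneg
    intro u _
    apply Finset.sum_nonneg
    intro v _
    split_ifs
    · exact dd_nonneg h.a0 t u v
    · exact le_rfl
  have hlam0 : 0 ≤ lam := by
    have := phi_mono E t h.a0
    rw [hlam]
    linarith
  rw [← hP, ← hX] at h1
  rw [← hT, ← hH, ← hP] at h2
  rw [← hT, ← hX, ← hlam] at h3
  have h4 : P / B ≤ (4 + 2 * K) * X := by
    have h5 : 1 / (B : ℝ) ≤ ρ - 1 - 1 / (B : ℝ) := by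
      have : (2 : ℝ) / B = 1 / B + 1 / B := by ring
      linarith
    have h6 : 1 / (B : ℝ) * P ≤ (ρ - 1 - 1 / (B : ℝ)) * P := mul_le_mul_of_nonneg_right h5 hP0
    calc P / B = 1 / (B : ℝ) * P := by ring
      _ ≤ _ := h6
      _ ≤ _ := h1
  have h5 : P ≤ B * ((4 + 2 * K) * X) := by
    rw [div_le_iff₀ hBpos] at h4
    linarith
  have hK0 : (0 : ℝ) ≤ K := Nat.cast_nonneg _
  have h6 : P ^ 2 ≤ 8 * d * (B : ℝ) ^ 2 * (2 + K) ^ 2 * (T * lam) := by
    have h7 : P ^ 2 ≤ (B * ((4 + 2 * K) * X)) ^ 2 := pow_le_pow_left₀ hP0 h5 2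
    have h8 : (B * ((4 + 2 * (K : ℝ)) * X)) ^ 2 = 4 * (B : ℝ) ^ 2 * (2 + K) ^ 2 * X ^ 2 := by ring
    have h9 : 4 * (B : ℝ) ^ 2 * (2 + K) ^ 2 * X ^ 2 ≤ 4 * (B : ℝ) ^ 2 * (2 + K) ^ 2 * (2 * (d * T) * lam) :=
      mul_le_mul_of_nonneg_left h3 (by positivity)
    calc P ^ 2 ≤ _ := h7
      _ = _ := h8
      _ ≤ _ := h9
      _ = _ := by ring
  set A := 8 * d * (B : ℝ) ^ 2 * (2 + K) ^ 2 with hA
  have hA0 : 0 ≤ A := by positivity
  have h7 : T - H ≤ 2 * P := by linarith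
  rcases hT0.eq_or_lt with hz | hz
  · rw [← hz]
    have h8 : 0 ≤ A / ξ * lam := by positivity
    have h9 : 0 ≤ H := by
      rw [hH]
      apply div_nonneg _ hΛ.le
      have := ent_mono a h.a0
      linarith
    linarith
  · have h8 : P ^ 2 / T ≤ A * lam := by
      rw [div_le_iff₀ hz]
      linarith
    have h9 : 2 * P ≤ ξ * T + P ^ 2 / (ξ * T) := by
      have h10 : 0 < ξ * T := by positivity
      have h11 : 0 ≤ (ξ * T - P) ^ 2 / (ξ * T) := by positivity
      have h12 : (ξ * T - P) ^ 2 / (ξ * T) = ξ * T + P ^ 2 / (ξ * T) - 2 * P := by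
        field_simp
        ring
      linarith
    have h13 : P ^ 2 / (ξ * T) ≤ A / ξ * lam := by
      have : P ^ 2 / (ξ * T) = (P ^ 2 / T) / ξ := by
        field_simp
      rw [this, div_le_iff₀ hξ]
      calc P ^ 2 / T ≤ A * lam := h8
        _ = A / ξ * lam * ξ := by field_simp
    linarith

end Pool.Agent.BoolWidth
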