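import Pool.Agent.Lib_MP_0cf6e1_b.Rand
import Pool.Agent.Lib_MP_0cf6e1_b.OneL
import Pool.Agent.Lib_MP_0cf6e1_b.Lift
import Pool.Agent.Lib_MP_0cf6e1_b.Deg
import Pool.Agent.Lib_MP_0cf6e1_b.GirL

/-!
# Piece TOWER: the tower of random lifts
-/

set_option autoImplicit false

open scoped Classical

namespace Pool.Agent.BoolWidth

/-- Induction on `n` (`n = 0`: `V = V0`, `a' = a`). Step: for the top `V` with `n` levels, `rand` gives `t` (`card V ≤ card V0 * D^(n+1) < 2^(M-1)`), take `liftMG` with `E1 = M.E`; `Gir.lift`, `eIn_lift`; a system on the lift gives (`sys_push`, `one_level`, `sum_push`) one on `V` and then one on `V0`.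
`d = w - 1 ≥ 1`, `B ≥ 1`, `L > 2`. -/
theorem tower (w C D L K B M r0 s y : ℕ) (hw : 2 ≤ w) (hB : 1 ≤ B) (hgrow : M * (2 * (w - 1) * B) ^ r0 ≤ (2 * (w - 1) * B + 1) ^ r0)
    (hM : 1 ≤ M) (hC : 0 < C) (hCD : C ≤ D) (hL : 2 < L) (hK : 32 ≤ K) (hK2 : 32 * r0 ≤ K) (hDL : (D + 1) ^ L ≤ 2 ^ M) (hs : 2 ^ s * (2 * L) ≤ C)
    (hy : B * y ≤ s) (hy2 : (2 * (w - 1)) ^ 2 * 2 ^ (w - 1) * 4 ≤ 2 ^ y) (ξ : ℝ) (hξ : 0 < ξ)
    (V0 : Type) [Fintype V0] (M0 : MG w V0) (hg : Gir M0.E (2 * r0)) (n : ℕ)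
    (hV : Fintype.card V0 * D ^ n < 2 ^ (M - 1)) :
    ∃ (V : Type) (_ : Fintype V) (MM : MG w V), Fintype.card V = Fintype.card V0 * D ^ n ∧ Gir MM.E (2 * r0) ∧
      eIn M0.E Finset.univ * (D - C) ^ n ≤ eIn MM.E Finset.univ ∧
      ∀ (ρ : ℝ), 1 + 2 / (B : ℝ) ≤ ρ → ∀ (a : V → ℝ) (N : V → V → ℝ), Sys MM.E ρ a N →
        ∃ (a' : V0 → ℝ) (N' : V0 → V0 → ℝ), Sys M0.E ρ a' N' ∧ ∑ p, a' p = ∑ p, a p ∧
          (n : ℝ) * (1 - ξ) * ∑ p, a p ≤ 8 * ((w - 1 : ℕ) : ℝ) * (B : ℝ) ^ 2 * (2 + K) ^ 2 / ξ * (Phi M0.E a' - Phi MM.E a) +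
            (Ent a' - Ent a) / Real.log ((L : ℝ) / 2) := by
  induction n with
  | zero =>
    refine ⟨V0, inferInstance, M0, by simp, hg, by simp, ?_⟩
    intro ρ _ a N hsys
    refine ⟨a, N, hsys, rfl, ?_⟩
    simp
  | succ n ih =>
    have hD : 1 ≤ D := by omega
    have hle : D ^ n ≤ D ^ (n + 1) := Nat.pow_le_pow_right hD (by omega)
    have hV' : Fintype.card V0 * D ^ n < 2 ^ (M - 1) := lt_of_le_of_lt (Nat.mul_le_mul_left _ hle) hV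
    obtain ⟨V, fV, MM, hcard, hgV, heV, hsysV⟩ := ih hV'
    obtain ⟨t, ht, hN⟩ := rand MM.E (w - 1) C D L K B M r0 s y MM.asym (by omega) MM.deg hB hgV hgrow hM hC (by omega)
      hK hK2 hDL hs hy hy2 (by rw [hcard]; exact hV')
    refine ⟨V × Fin D, inferInstance, liftMG MM MM.E (fun _ _ h => h) t D, ?_, ?_, ?_, ?_⟩
    · rw [Fintype.card_prod, Fintype.card_fin, hcard, pow_succ]
      ring
    · exact hgV.lift MM.asym t D
    · have h1 := eIn_lift t D MM.E C (fun u v => (ht u v).le) hCD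
      calc eIn M0.E Finset.univ * (D - C) ^ (n + 1) = (eIn M0.E Finset.univ * (D - C) ^ n) * (D - C) := by
            rw [pow_succ]; ring
        _ ≤ eIn MM.E Finset.univ * (D - C) := Nat.mul_le_mul_right _ heV
        _ ≤ _ := h1
    · intro ρ hρ a N hsys
      have hsys1 := sys_push MM.E t ρ a N hsys
      obtain ⟨a', N', h1, h2, h3⟩ := hsysV ρ hρ (push a) (pushN N) hsys1
      refine ⟨a', N', h1, by rw [h2, sum_push], ?_⟩
      have h4 := one_level MM.E (w - 1) MM.deg t L K B hL hB hN ρ hρ ξ hξ a N hsys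
      rw [sum_push] at h3
      have h5 : (liftMG MM MM.E (fun _ _ h => h) t D).E = liftE MM.E t D := rfl
      rw [h5]
      push_cast
      have e1 : ((n : ℝ) + 1) * (1 - ξ) * ∑ p, a p = (n : ℝ) * (1 - ξ) * ∑ p, a p + (1 - ξ) * ∑ p, a p := by ring
      rw [e1]
      have e2 : 8 * ((w - 1 : ℕ) : ℝ) * (B : ℝ) ^ 2 * (2 + K) ^ 2 / ξ * (Phi M0.E a' - Phi (liftE MM.E t D) a) =
          8 * ((w - 1 : ℕ) : ℝ) * (B : ℝ) ^ 2 * (2 + K) ^ 2 / ξ * (Phi M0.E a' - Phi MM.E (push a)) +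
          8 * ((w - 1 : ℕ) : ℝ) * (B : ℝ) ^ 2 * (2 + K) ^ 2 / ξ * (Phi MM.E (push a) - Phi (liftE MM.E t D) a) := by ring
      have e3 : (Ent a' - Ent a) / Real.log ((L : ℝ) / 2) =
          (Ent a' - Ent (push a)) / Real.log ((L : ℝ) / 2) + (Ent (push a) - Ent a) / Real.log ((L : ℝ) / 2) := by ring
      rw [e2, e3]
      linarith

end Pool.Agent.BoolWidth
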