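import Pool.Agent.Lib_MP_0cf6e1_b.GBase
import Pool.Agent.Lib_MP_0cf6e1_b.Tower
import Pool.Agent.Lib_MP_0cf6e1_b.Sparse
import Pool.Agent.Lib_MP_0cf6e1_b.ParamA
import Pool.Agent.Lib_MP_0cf6e1_b.ParamB

/-!
# EXIST: lossless monotone graphs
-/

set_option autoImplicit false

open scoped Classical

namespace Pool.Agent.BoolWidth

/-- JOINT of the two halves: `gbase`, `tower`, `sparse`, parameters (assembly: helper13) -/
theorem exist_mg (w : ℕ) (hw : 3 ≤ w) :
    ∃ (V : Type) (_ : Fintype V) (M : MG w V) (s : ℕ), 1 ≤ s ∧ 0 < Fintype.card V ∧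
      (4 * w - 5) * Fintype.card V ≤ 4 * eIn M.E Finset.univ ∧
      (∀ S : Finset V, S.card ≤ s → 8 * w * eIn M.E S ≤ (8 * w + 2) * S.card) ∧
      8 * w ^ 3 * (2 * (Fintype.card V / s) + 2) ^ (w - 2) < (4 * w + 4) * Fintype.card V := by
  obtain ⟨q, h1, h2, h3⟩ := exists_q w
  have hq : 1 ≤ q := by omega
  have hw0 : 0 < w := by omega
  have hpr : 0 < pr w q := by
    unfold pr
    have : 0 < w - 1 := by omega
    positivity
  have hT : 1 ≤ pT w q := by
    unfold pT
    exact Nat.mul_pos (by omega) (by omega)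
  obtain ⟨V0, _, M0, hcard0, hgir0, harc0⟩ := gbase w (pT w q) (2 * pr w q) (2 * pr w q) (by omega) hT
  have hmin : min (2 ^ (2 * pr w q + 1) - 1) (2 * pr w q) = 2 * pr w q := by
    apply min_eq_right
    have := @Nat.lt_pow_self (2 * pr w q + 1) 2 (by norm_num)
    omega
  rw [hmin] at hgir0
  have hb := p_base w q hw hq
  obtain ⟨hV1, hV2⟩ := p_V w q hw h1 h2 h3 hb
  have hcard0' : Fintype.card V0 = w * pT w q * (pT w q * pCb w q) ^ (2 * pr w q) := hcard0
  have hC : 0 < pC w q := by unfold pC; positivity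
  have hpA : 0 < pA w q := by
    unfold pA
    have : 0 < w - 1 := by omega
    positivity
  have hn : 0 < pn w q := by
    unfold pn
    have : 0 < w - 1 := by omega
    positivity
  have hCD : pC w q ≤ pD w q := by
    unfold pD
    have : 1 ≤ 8 * w * pn w q := Nat.mul_pos (by omega) hn
    nlinarith
  have hL : 2 < pL w q := by
    unfold pL
    have : 2 ≤ (16 * w - 1) * q := by
      have : 2 ≤ 16 * w - 1 := by omega
      nlinarith
    calc 2 < 2 ^ 2 := by norm_num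
      _ ≤ _ := Nat.pow_le_pow_right (by norm_num) this
  have hK : 32 ≤ pK w q := by unfold pK; omega
  have hK2 : 32 * pr w q ≤ pK w q := by unfold pK; omega
  have hM : 1 ≤ pM w q := by unfold pM; exact Nat.one_le_two_pow
  have hV2' : Fintype.card V0 * pD w q ^ pn w q < 2 ^ (pM w q - 1) := by
    rw [hcard0']
    exact hV2
  have hy : 8 * w * (4 * w) ≤ q - 1 := by
    have : 8 * w * (4 * w) = 32 * w ^ 2 := by ring
    omega
  have hξ : (0 : ℝ) < 1 / (32 * (w : ℝ)) := by positivity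
  obtain ⟨V, _, MM, hcard, _, harc, hbase⟩ := tower w (pC w q) (pD w q) (pL w q) (pK w q) (8 * w) (pM w q)
    (pr w q) (q - 1) (4 * w) (by omega) (by omega) (p_grow w q hw) hM hC hCD hL hK hK2
    (p_DL w q hw h1 h2 h3) (p_s w q hw hq) hy (p_y w hw) (1 / (32 * (w : ℝ))) hξ V0 M0 hgir0 (pn w q) hV2'
  have hcardV : Fintype.card V = pV w q := by
    rw [hcard, hcard0']
    rfl
  obtain ⟨hm1, hm2⟩ := p_m w q hw
  obtain ⟨hs1, hs2⟩ := p_sz w q hw hq hm2
  refine ⟨V, inferInstance, MM, ps w q, hs1, ?_, ?_, ?_, ?_⟩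
  · rw [hcard, hcard0']
    have : 0 < pD w q := lt_of_lt_of_le hC hCD
    have hCb : 0 < pCb w q := by unfold pCb; omega
    have : 0 < pT w q := hT
    positivity
  · rw [hcardV]
    refine (p_arcs w q hw hq).trans ?_
    exact Nat.mul_le_mul_left 4 (le_trans (Nat.mul_le_mul_right _ harc0) harc)
  · intro S hS
    have hm : ((pm w q : ℕ) : ℝ) + (8 * ((w - 1 : ℕ) : ℝ) * ((8 * w : ℕ) : ℝ) ^ 2 * (2 + (pK w q : ℝ)) ^ 2 /
        (1 / (32 * (w : ℝ)))) * ((w - 1 : ℕ) : ℝ) ≤ (pn w q : ℝ) * (1 - 1 / (32 * (w : ℝ))) := by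
      have hA : (8 * ((w - 1 : ℕ) : ℝ) * ((8 * w : ℕ) : ℝ) ^ 2 * (2 + (pK w q : ℝ)) ^ 2 /
        (1 / (32 * (w : ℝ)))) = (pA w q : ℝ) := by
        unfold pA
        push_cast
        field_simp
      rw [hA]
      have hm1' : 32 * (w : ℝ) * pm w q + 32 * w * (pA w q * ((w - 1 : ℕ) : ℝ)) + pn w q ≤ 32 * w * pn w q := by
        exact_mod_cast hm1
      have hw' : (0 : ℝ) < 32 * (w : ℝ) := by positivity
      have e1 : (pn w q : ℝ) * (1 - 1 / (32 * (w : ℝ))) = (32 * w * pn w q - pn w q) / (32 * (w : ℝ)) := by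
        field_simp
      rw [e1, le_div_iff₀ hw']
      nlinarith
    have hcast : (S.card : ℝ) < ((pL w q : ℝ) / 2) ^ pm w q := by
      have e1 : (S.card : ℝ) ≤ (ps w q : ℝ) := by exact_mod_cast hS
      have e2 : (ps w q : ℝ) * 2 ^ pm w q < (pL w q : ℝ) ^ pm w q := by exact_mod_cast hs2
      rw [div_pow, lt_div_iff₀ (by positivity)]
      exact lt_of_le_of_lt (mul_le_mul_of_nonneg_right e1 (by positivity)) e2
    exact sparse MM.E M0.E (w - 1) M0.deg (8 * w) (pL w q) (pn w q) (pm w q) (by omega) hL (1 / (32 * (w : ℝ)))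
      _ (by positivity) hm hbase S hcast
  · rw [hcardV]
    exact p_final w q hw h1 hV1

end Pool.Agent.BoolWidth
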