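import Pool.Agent.Lib_MP_0cf6e1_b.Thr

/-!
# Piece EXT: extremality
-/

set_option autoImplicit false

open scoped Classical

namespace Pool.Agent.BoolWidth

variable {V : Type} [Fintype V] {E : V → V → Prop} {ρ : ℝ} {a : V → ℝ} {N : V → V → ℝ}

/-- `threshold` with `b = N`, `c = ρ a`, `f = g` (contraposition) -/
theorem Sys.min_le (h : Sys E ρ a N) (g : V → ℝ) (hg : ∀ p, 0 ≤ g p) :
    ∑ p, ∑ q, N p q * min (g p) (g q) ≤ ρ * ∑ p, a p * g p := by
  by_contra hcon
  rw [not_le] at hcon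
  have h1 : ∑ p, (ρ * a p) * g p < ∑ p, ∑ q, N p q * min (g p) (g q) := by
    have h2 : ∑ p, (ρ * a p) * g p = ρ * ∑ p, a p * g p := by
      rw [Finset.mul_sum]
      exact Finset.sum_congr rfl (fun p _ => by ring)
    rw [h2]
    exact hcon
  obtain ⟨s, _, hs⟩ := threshold N (fun p => ρ * a p) g hg h1
  have h3 := h.ext (Finset.univ.filter (fun i => s < g i))
  rw [Finset.mul_sum] at h3
  exact absurd hs (not_lt.mpr h3)

/-- apply `Sys.min_le` to `g = 1 - p` and subtract from `tot` -/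
theorem Sys.max_ge (h : Sys E ρ a N) (g : V → ℝ) (hg : ∀ p, 0 ≤ g p) (hg1 : ∀ p, g p ≤ 1) :
    ρ * ∑ p, a p * g p ≤ ∑ p, ∑ q, N p q * max (g p) (g q) := by
  have _ := hg
  have h1 := h.min_le (fun p => 1 - g p) (fun p => by linarith [hg1 p])
  have h2 : ∑ p, ∑ q, N p q * min (1 - g p) (1 - g q) =
      ∑ p, ∑ q, N p q - ∑ p, ∑ q, N p q * max (g p) (g q) := by
    rw [← Finset.sum_sub_distrib]
    refine Finset.sum_congr rfl (fun p _ => ?_)
    rw [← Finset.sum_sub_distrib]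
    refine Finset.sum_congr rfl (fun q _ => ?_)
    rw [min_sub_sub_left]
    ring
  have h3 : ∑ p, a p * (1 - g p) = ∑ p, a p - ∑ p, a p * g p := by
    rw [← Finset.sum_sub_distrib]
    exact Finset.sum_congr rfl (fun p _ => by ring)
  rw [h2, h3, h.tot, mul_sub] at h1
  linarith

end Pool.Agent.BoolWidth
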