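import Pool.Agent.Lib_MP_0cf6e1_b.Greedy
import Pool.Agent.Lib_MP_0cf6e1_b.Cyc
import Pool.Agent.Lib_MP_0cf6e1_b.Lift
import Pool.Agent.Lib_MP_0cf6e1_b.Deg

/-!
# Piece GBASE: monotone graphs of large girth
-/

set_option autoImplicit false

open scoped Classical

namespace Pool.Agent.BoolWidth

/-- the initial monotone graph -/
def gbaseMG (w T : ℕ) : MG w (Fin w × Fin T) where
  lt p q := p.2 < q.2
  irr a := lt_irrefl a.2
  tr _ _ _ h1 h2 := lt_trans h1 h2
  ch p := p.1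
  chain a b h hne := by
    have h2 : a.2 ≠ b.2 := fun h2 => hne (Prod.ext h h2)
    exact lt_or_gt_of_ne h2
  E p q := p.1 ≠ q.1 ∧ (p.2 : ℕ) + 1 = (q.2 : ℕ)
  elt a b h := by
    have h2 := h.2
    show a.2 < b.2
    rw [Fin.lt_def]
    omega
  ecov a b c h h1 h2 := by
    have h3 := h.2
    rw [Fin.lt_def] at h1 h2
    omega
  ech a b h := h.1

theorem gbase_card (w T : ℕ) : (T - 1) * (w * (w - 1)) ≤ eIn (gbaseMG w T).E Finset.univ := by
  have hc : (T - 1) * (w * (w - 1)) =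
      (((Finset.univ : Finset (Fin w)).offDiag) ×ˢ (Finset.univ : Finset (Fin (T - 1)))).card := by
    rw [Finset.card_product, Finset.offDiag_card, Finset.card_univ, Finset.card_univ,
      Fintype.card_fin, Fintype.card_fin, ← Nat.mul_sub_one w w, mul_comm]
  rw [hc]
  unfold eIn
  refine Finset.card_le_card_of_injOn
    (fun z : (Fin w × Fin w) × Fin (T - 1) =>
      (((z.1.1, (⟨z.2.1, by omega⟩ : Fin T)) : Fin w × Fin T),
        ((z.1.2, (⟨z.2.1 + 1, by omega⟩ : Fin T)) : Fin w × Fin T))) ?_ ?_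
  · intro z hz
    have hz1 : z.1.1 ≠ z.1.2 := by
      have := (Finset.mem_product.1 (Finset.mem_coe.1 hz)).1
      exact (Finset.mem_offDiag.1 this).2.2
    refine Finset.mem_coe.2 (Finset.mem_filter.2 ⟨?_, ?_⟩)
    · exact Finset.mem_product.2 ⟨Finset.mem_univ _, Finset.mem_univ _⟩
    · exact ⟨hz1, rfl⟩
  · intro z _ z' _ h
    have h3 : z.1.1 = z'.1.1 := congrArg (fun q : (Fin w × Fin T) × (Fin w × Fin T) => q.1.1) h
    have h4 : z.1.2 = z'.1.2 := congrArg (fun q : (Fin w × Fin T) × (Fin w × Fin T) => q.2.1) h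
    have h5 : (z.2 : ℕ) = (z'.2 : ℕ) :=
      congrArg (fun q : (Fin w × Fin T) × (Fin w × Fin T) => (q.1.2 : ℕ)) h
    exact Prod.ext (Prod.ext h3 h4) (Fin.ext h5)

/-- the start: `V = Fin w × Fin T`, `lt p q ↔ p.2 < q.2`, `ch = fst`, `E p q ↔ p.1 ≠ q.1 ∧ p.2 + 1 = q.2` -/
theorem base0 (w T : ℕ) :
    ∃ M : MG w (Fin w × Fin T), Gir M.E 1 ∧ (T - 1) * (w * (w - 1)) ≤ eIn M.E Finset.univ := by
  refine ⟨gbaseMG w T, ?_, gbase_card w T⟩
  intro c l h1 h2 hc h0
  obtain rfl : l = 1 := le_antisymm h2 h1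
  have h := hc.1 0 (by norm_num)
  simp only [zero_add] at h
  rw [← h0] at h
  rcases h with h | h
  · exact h.1 rfl
  · exact h.1 rfl

/-- Induction on `k`: `base0` for `k = 0` (`card = w T`); step: `greedy` with `d = w - 1`, `gir_double`, `liftMG` with `E1 = M.E`, `D = T Cb`, and `eIn_lift` with `C = Cb`, `D - C = (T - 1) Cb`; `2 (2^(k+1) - 1) + 1 = 2^(k+2) - 1`. -/
theorem gbase (w T g k : ℕ) (hw : 2 ≤ w) (hT : 1 ≤ T) :
    ∃ (V : Type) (_ : Fintype V) (M : MG w V),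
      Fintype.card V = w * T * (T * ((g + 1) ^ 2 * (2 * (w - 1)) ^ g + 1)) ^ k ∧
      Gir M.E (min (2 ^ (k + 1) - 1) g) ∧
      (T - 1) * (w * (w - 1)) * ((T - 1) * ((g + 1) ^ 2 * (2 * (w - 1)) ^ g + 1)) ^ k ≤ eIn M.E Finset.univ := by
  induction k with
  | zero =>
    obtain ⟨M, hM, hc⟩ := base0 w T
    refine ⟨Fin w × Fin T, inferInstance, M, ?_, ?_, ?_⟩
    · rw [Fintype.card_prod, Fintype.card_fin, Fintype.card_fin, pow_zero, mul_one]
    · exact hM.mono (fun _ _ h => h) (by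
        have : (2 : ℕ) ^ (0 + 1) - 1 = 1 := by norm_num
        rw [this]
        exact min_le_left _ _)
    · rw [pow_zero, mul_one]
      exact hc
  | succ k ih =>
    obtain ⟨V, hV, M, hcard, hgir, hE⟩ := ih
    obtain ⟨t, ht1, ht2⟩ := greedy (E := M.E) M.asym (w - 1) (by omega) M.deg g
    set Cb : ℕ := (g + 1) ^ 2 * (2 * (w - 1)) ^ g + 1 with hCb
    have hg2 := gir_double (E := M.E) M.asym (min (2 ^ (k + 1) - 1) g) g hgir t ht2 (T * Cb)
    have hle : Cb ≤ T * Cb := Nat.le_mul_of_pos_left Cb hT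
    have hl := eIn_lift t (T * Cb) M.E Cb (fun u v => (ht1 u v).le) hle
    refine ⟨V × Fin (T * Cb), inferInstance, liftMG M M.E (fun _ _ h => h) t (T * Cb), ?_, ?_, ?_⟩
    · rw [Fintype.card_prod, Fintype.card_fin, hcard, pow_succ]
      ring
    · refine Gir.mono (E := liftE M.E t (T * Cb)) hg2 (fun _ _ h => h) ?_
      have h2 : 2 ^ (k + 1 + 1) = 2 * 2 ^ (k + 1) := by rw [pow_succ]; ring
      have h3 : 1 ≤ 2 ^ (k + 1) := Nat.one_le_two_pow
      rw [h2]
      omega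
    · show _ ≤ eIn (liftE M.E t (T * Cb)) Finset.univ
      refine le_trans ?_ hl
      have h4 : T * Cb - Cb = (T - 1) * Cb := by rw [Nat.sub_mul, one_mul]
      rw [h4, pow_succ, ← mul_assoc]
      exact Nat.mul_le_mul_right _ hE

end Pool.Agent.BoolWidth
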