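import Pool.Agent.Lib_MP_0cf6e1_b.Hol

/-!
# Piece GREEDY: shifts without relations of length at most `g`
-/

set_option autoImplicit false

open scoped Classical

namespace Pool.Agent.BoolWidth

variable {V : Type} {E : V → V → Prop}

/-- the flow depends only on the walk up to its end -/
lemma greedy_flow_congr {c c' : ℕ → V} {l : ℕ} (h : ∀ i ≤ l, c i = c' i) : flow c l = flow c' l := by
  funext u v
  unfold flow
  apply Finset.sum_congr rfl
  intro i hi
  rw [Finset.mem_range] at hi
  rw [h i (by omega), h (i + 1) (by omega)]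

/-- a walk with nonzero flow at `(u, v)` passes through `u` -/
lemma greedy_through {c : ℕ → V} {l : ℕ} {u v : V} (h : flow c l u v ≠ 0) : ∃ i ≤ l, c i = u := by
  by_contra hc
  push Not at hc
  apply h
  unfold flow
  apply Finset.sum_eq_zero
  intro i hi
  rw [Finset.mem_range] at hi
  rw [if_neg (fun h1 => hc i (by omega) h1.1), if_neg (fun h1 => hc (i + 1) (by omega) h1.2),
    sub_zero]

/-- labels of the neighbours -/
lemma greedy_nb [Fintype V] (d : ℕ) (hd : DegLE E d) :
    ∃ nb : V → Fin (2 * d) → V, ∀ v u, Adj E v u → ∃ k, nb v k = u := by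
  have hex : ∀ v : V, ∃ f : Fin (2 * d) → V, ∀ u, Adj E v u → ∃ k, f k = u := by
    intro v
    set N : Finset V := Finset.univ.filter (fun u => Adj E v u) with hN
    have hcard : N.card ≤ 2 * d := by
      have h1 : N ⊆ Finset.univ.filter (fun u => E v u) ∪ Finset.univ.filter (fun u => E u v) := by
        intro u hu
        rw [hN, Finset.mem_filter] at hu
        rw [Finset.mem_union, Finset.mem_filter, Finset.mem_filter]
        rcases hu.2 with h | h
        · exact Or.inl ⟨Finset.mem_univ _, h⟩
        · exact Or.inr ⟨Finset.mem_univ _, h⟩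
      have h2 := (Finset.card_le_card h1).trans (Finset.card_union_le _ _)
      have h3 := hd.1 v (Finset.univ.filter (fun u => E v u))
        (fun u hu => (Finset.mem_filter.1 hu).2)
      have h4 := hd.2 v (Finset.univ.filter (fun u => E u v))
        (fun u hu => (Finset.mem_filter.1 hu).2)
      omega
    let e := N.equivFin
    refine ⟨fun k => if h : (k : ℕ) < N.card then (e.symm ⟨k, h⟩ : V) else v, ?_⟩
    intro u hu
    have hu' : u ∈ N := by
      rw [hN, Finset.mem_filter]
      exact ⟨Finset.mem_univ _, hu⟩
    have hlt := (e ⟨u, hu'⟩).isLt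
    refine ⟨⟨e ⟨u, hu'⟩, by omega⟩, ?_⟩
    simp only [dif_pos hlt, Fin.eta, Equiv.symm_apply_apply]
  choose f hf using hex
  exact ⟨f, hf⟩

/-- walk from `u` with given labels -/
def greedyR {d : ℕ} (nb : V → Fin (2 * d) → V) (u : V) (lab : ℕ → Fin (2 * d)) : ℕ → V
  | 0 => u
  | k + 1 => nb (greedyR nb u lab k) (lab k)

lemma greedyR_eq {d : ℕ} {nb : V → Fin (2 * d) → V} {u : V} {lab : ℕ → Fin (2 * d)} {c : ℕ → V}
    {m : ℕ} (h0 : c 0 = u) (h : ∀ k < m, nb (c k) (lab k) = c (k + 1)) :
    ∀ k ≤ m, greedyR nb u lab k = c k := by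
  intro k
  induction k with
  | zero => intro _; exact h0.symm
  | succ k ih =>
    intro hk
    rw [greedyR, ih (by omega)]
    exact h k (by omega)

/-- the walk decoded from a position and labels -/
def greedyDec {d : ℕ} (nb : V → Fin (2 * d) → V) (u : V) (i : ℕ) (lab : ℕ → Fin (2 * d)) (k : ℕ) :
    V :=
  if k ≤ i then greedyR nb u (fun j => lab (i - 1 - j)) (i - k)
  else greedyR nb u (fun j => lab (i + j)) (k - i)

lemma greedy_dec [Fintype V] {d : ℕ} {nb : V → Fin (2 * d) → V}
    (hnb : ∀ v u, Adj E v u → ∃ k, nb v k = u) (hd1 : 1 ≤ d) (u : V) (c : ℕ → V) (l i : ℕ)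
    (hi : i ≤ l) (hci : c i = u) (hc : ∀ i, i < l → Adj E (c i) (c (i + 1))) :
    ∃ lab : ℕ → Fin (2 * d), ∀ k ≤ l, greedyDec nb u i lab k = c k := by
  have hex : ∀ j, ∃ k : Fin (2 * d), j < l →
      ((j < i → nb (c (j + 1)) k = c j) ∧ (¬ j < i → nb (c j) k = c (j + 1))) := by
    intro j
    by_cases hj : j < l
    · by_cases hji : j < i
      · obtain ⟨k, hk⟩ := hnb (c (j + 1)) (c j) (by
          rcases hc j hj with h | h
          · exact Or.inr h
          · exact Or.inl h)
        exact ⟨k, fun _ => ⟨fun _ => hk, fun h => absurd hji h⟩⟩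
      · obtain ⟨k, hk⟩ := hnb (c j) (c (j + 1)) (hc j hj)
        exact ⟨k, fun _ => ⟨fun h => absurd h hji, fun _ => hk⟩⟩
    · exact ⟨⟨0, by omega⟩, fun h => absurd h hj⟩
  choose lab hlab using hex
  refine ⟨lab, ?_⟩
  intro k hk
  unfold greedyDec
  by_cases hki : k ≤ i
  · rw [if_pos hki]
    have h := greedyR_eq (nb := nb) (u := u) (lab := fun j => lab (i - 1 - j))
      (c := fun j => c (i - j)) (m := i) (by simpa using hci) (by
        intro j hj
        have h1 := (hlab (i - 1 - j) (by omega)).1 (by omega)
        have h2 : i - 1 - j + 1 = i - j := by omega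
        have h3 : i - 1 - j = i - (j + 1) := by omega
        rw [h2] at h1
        show nb (c (i - j)) (lab (i - 1 - j)) = c (i - (j + 1))
        rw [h1, h3]) (i - k) (by omega)
    rw [h]
    show c (i - (i - k)) = c k
    rw [show i - (i - k) = k by omega]
  · rw [if_neg hki]
    have h := greedyR_eq (nb := nb) (u := u) (lab := fun j => lab (i + j))
      (c := fun j => c (i + j)) (m := l - i) (by simpa using hci) (by
        intro j hj
        exact (hlab (i + j) (by omega)).2 (by omega)) (k - i) (by omega)
    rw [h]
    show c (i + (k - i)) = c k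
    rw [show i + (k - i) = k by omega]

lemma greedy_dec_congr {d : ℕ} {nb : V → Fin (2 * d) → V} {u : V} {i l : ℕ} (hi : i ≤ l)
    {lab lab' : ℕ → Fin (2 * d)} (h : ∀ j < l, lab j = lab' j) :
    ∀ k ≤ l, greedyDec nb u i lab k = greedyDec nb u i lab' k := by
  intro k hk
  unfold greedyDec
  by_cases hki : k ≤ i
  · rw [if_pos hki, if_pos hki]
    rcases Nat.eq_zero_or_pos i with h0 | h0
    · have : i - k = 0 := by omega
      rw [this]
      rfl
    · exact greedyR_eq (c := greedyR nb u (fun j => lab' (i - 1 - j))) (m := i) rfl (by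
        intro j hj
        show nb _ (lab (i - 1 - j)) = nb _ (lab' (i - 1 - j))
        rw [h _ (by omega)]) (i - k) (by omega)
  · rw [if_neg hki, if_neg hki]
    exact greedyR_eq (c := greedyR nb u (fun j => lab' (i + j))) (m := l - i) rfl (by
      intro j hj
      show nb _ (lab (i + j)) = nb _ (lab' (i + j))
      rw [h _ (by omega)]) (k - i) (by omega)

/-- the number of flows of walks of length at most `g` through `u`. There is `nb : V → Fin (2 d) → V` such that every neighbour (in either direction) of `v` is some `nb v k`. A walk of length `l ≤ g` with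
`c i = u` is determined by `i`, `l` and the labels of its steps (leftwards from position `i` for the first `i` steps and rightwards for the others), a function `Fin g → Fin (2 d)`; its flow depends only on `c` on `[0, l]`. -/
theorem walks_card [Fintype V] (d : ℕ) (hd1 : 1 ≤ d) (hd : DegLE E d) (g : ℕ) (u : V) :
    ∃ H : Finset (V → V → ℤ), H.card ≤ (g + 1) ^ 2 * (2 * d) ^ g ∧
      ∀ (c : ℕ → V) (l : ℕ), l ≤ g → (∀ i, i < l → Adj E (c i) (c (i + 1))) → (∃ i ≤ l, c i = u) → flow c l ∈ H := by
  obtain ⟨nb, hnb⟩ := greedy_nb d hd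
  let ext : (Fin g → Fin (2 * d)) → ℕ → Fin (2 * d) := fun lab j =>
    if h : j < g then lab ⟨j, h⟩ else ⟨0, by omega⟩
  refine ⟨(Finset.univ : Finset (Fin (g + 1) × Fin (g + 1) × (Fin g → Fin (2 * d)))).image
    (fun p => flow (greedyDec nb u p.1 (ext p.2.2)) p.2.1), ?_, ?_⟩
  · refine Finset.card_image_le.trans (le_of_eq ?_)
    rw [Finset.card_univ, Fintype.card_prod, Fintype.card_prod, Fintype.card_fun, Fintype.card_fin,
      Fintype.card_fin, Fintype.card_fin]
    ring
  · intro c l hl hc hi
    obtain ⟨i, hi, hci⟩ := hi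
    obtain ⟨lab, hlab⟩ := greedy_dec hnb hd1 u c l i hi hci hc
    rw [Finset.mem_image]
    refine ⟨(⟨i, by omega⟩, ⟨l, by omega⟩, fun j => lab j), Finset.mem_univ _, ?_⟩
    apply greedy_flow_congr
    intro k hk
    rw [← hlab k hk]
    apply greedy_dec_congr (l := l) hi _ k hk
    intro j hj
    show (if h : j < g then lab j else _) = lab j
    rw [dif_pos (by omega)]

/-- Induction on a set `S` of pairs (`Finset.induction_on`): there is `t` such that `hol E t c l ≠ 0` for all walks of length `≤ g` whose flow is not `0` on `E` and vanishes on the arcs outside `S`. Step `insert e S`: change `t e`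
to a value `x < (g+1)^2 (2d)^g + 1` such that for every flow `φ ∈ H` (`walks_card` for `u = e.1`) with `φ e ≠ 0`: `φ e * x + ∑_{p ≠ e, E p} φ p * t p ≠ 0` (at most one `x` is excluded for each `φ`); walks with flow `0` at `e` are
not affected (`hol_eq`); if the flow at `e` is not `0` then the walk passes through `e.1`. -/
theorem greedy [Fintype V] (ha : Asym E) (d : ℕ) (hd1 : 1 ≤ d) (hd : DegLE E d) (g : ℕ) :
    ∃ t : V → V → ℕ, (∀ u v, t u v < (g + 1) ^ 2 * (2 * d) ^ g + 1) ∧
      ∀ (c : ℕ → V) (l : ℕ), l ≤ g → (∀ i, i < l → Adj E (c i) (c (i + 1))) →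
        (∃ u v, E u v ∧ flow c l u v ≠ 0) → hol E t c l ≠ 0 := by
  set M := (g + 1) ^ 2 * (2 * d) ^ g + 1 with hM
  have main : ∀ S : Finset (V × V), ∃ t : V → V → ℕ, (∀ u v, t u v < M) ∧
      ∀ (c : ℕ → V) (l : ℕ), l ≤ g → (∀ i, i < l → Adj E (c i) (c (i + 1))) →
        (∃ u v, E u v ∧ flow c l u v ≠ 0) →
        (∀ u v, E u v → flow c l u v ≠ 0 → (u, v) ∈ S) → hol E t c l ≠ 0 := by
    intro S
    induction S using Finset.induction_on with
    | empty =>
      refine ⟨fun _ _ => 0, fun _ _ => by show 0 < M; omega, ?_⟩
      rintro c l - - ⟨u, v, h1, h2⟩ h3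
      exact absurd (h3 u v h1 h2) (Finset.notMem_empty _)
    | insert e S heS ih =>
      obtain ⟨t, htM, ht⟩ := ih
      by_cases hE : E e.1 e.2
      swap
      · refine ⟨t, htM, ?_⟩
        intro c l hl hc hex hsup
        apply ht c l hl hc hex
        intro u v huv hf
        have := hsup u v huv hf
        rw [Finset.mem_insert] at this
        rcases this with h | h
        · rw [← h] at hE
          exact absurd huv hE
        · exact h
      obtain ⟨H, hHc, hH⟩ := walks_card d hd1 hd g e.1
      let rest : (V → V → ℤ) → ℤ := fun φ =>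
        ∑ u, ∑ v, if E u v then φ u v * (if (u, v) = e then (0 : ℤ) else (t u v : ℤ)) else 0
      let P : (V → V → ℤ) → ℕ → Prop := fun φ x => φ e.1 e.2 * (x : ℤ) + rest φ = 0
      let f : (V → V → ℤ) → ℕ := fun φ => if h : ∃ x, P φ x then h.choose else 0
      obtain ⟨x, hxM, hx⟩ : ∃ x ∈ Finset.range M, x ∉ H.image f := by
        by_contra hcon
        push Not at hcon
        have h1 : Finset.range M ⊆ H.image f := hcon
        have h2 := (Finset.card_le_card h1).trans Finset.card_image_le
        rw [Finset.card_range] at h2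
        omega
      rw [Finset.mem_range] at hxM
      have hxP : ∀ φ ∈ H, φ e.1 e.2 ≠ 0 → ¬ P φ x := by
        intro φ hφ hne hP
        apply hx
        rw [Finset.mem_image]
        refine ⟨φ, hφ, ?_⟩
        have hex : ∃ x, P φ x := ⟨x, hP⟩
        have h1 : f φ = hex.choose := dif_pos hex
        have h2 : P φ hex.choose := hex.choose_spec
        rw [h1]
        have h3 : φ e.1 e.2 * (hex.choose : ℤ) + rest φ = 0 := h2
        have h4 : φ e.1 e.2 * (x : ℤ) + rest φ = 0 := hP
        have h5 : φ e.1 e.2 * (hex.choose : ℤ) = φ e.1 e.2 * (x : ℤ) := by linarith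
        exact_mod_cast mul_left_cancel₀ hne h5
      refine ⟨fun u v => if (u, v) = e then x else t u v, ?_, ?_⟩
      · intro u v
        by_cases h : (u, v) = e
        · simp only [if_pos h]
          exact hxM
        · simp only [if_neg h]
          exact htM u v
      · intro c l hl hc hex hsup
        by_cases hfe : flow c l e.1 e.2 = 0
        · have h1 : hol E (fun u v => if (u, v) = e then x else t u v) c l = hol E t c l := by
            rw [hol_eq ha _ c l hc, hol_eq ha _ c l hc]
            apply Finset.sum_congr rfl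
            intro u _
            apply Finset.sum_congr rfl
            intro v _
            by_cases h : (u, v) = e
            · have h2 : flow c l u v = 0 := by
                rw [← h] at hfe
                exact hfe
              rw [h2, zero_mul, zero_mul]
            · simp only [if_neg h]
          rw [h1]
          apply ht c l hl hc hex
          intro u v huv hf
          have := hsup u v huv hf
          rw [Finset.mem_insert] at this
          rcases this with h | h
          · rw [← h] at hfe
            exact absurd hfe hf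
          · exact h
        · have hmem := hH c l hl hc (greedy_through hfe)
          have h1 := hxP _ hmem hfe
          intro h2
          apply h1
          show flow c l e.1 e.2 * (x : ℤ) + rest (flow c l) = 0
          rw [← h2, hol_eq ha _ c l hc]
          have h3 : flow c l e.1 e.2 * (x : ℤ) =
              ∑ u, ∑ v, if (u, v) = e then flow c l e.1 e.2 * (x : ℤ) else 0 := by
            rw [← Fintype.sum_prod_type'
              (fun u v => if (u, v) = e then flow c l e.1 e.2 * (x : ℤ) else 0)]
            simp
          rw [h3, ← Finset.sum_add_distrib]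
          apply Finset.sum_congr rfl
          intro u _
          rw [← Finset.sum_add_distrib]
          apply Finset.sum_congr rfl
          intro v _
          by_cases h : (u, v) = e
          · have hE' : E u v := by
              rw [← h] at hE
              exact hE
            simp only [if_pos h, if_pos hE']
            rw [← h]
            simp
          · simp only [if_neg h, zero_add]
  obtain ⟨t, ht1, ht2⟩ := main Finset.univ
  exact ⟨t, ht1, fun c l hl hc hex => ht2 c l hl hc hex (fun _ _ _ _ => Finset.mem_univ _)⟩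

end Pool.Agent.BoolWidth
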