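import Pool.Agent.Lib_MP_0cf6e1_b.Tree

/-!
# Piece GROW: balls in critical sets grow exponentially
-/

set_option autoImplicit false

open scoped Classical

namespace Pool.Agent.BoolWidth

variable {V : Type} {E A : V → V → Prop}

theorem ball_subset (A : V → V → Prop) (W Z : Finset V) (hZ : Z ⊆ W) (r : ℕ) : ball A W Z r ⊆ W := by
  induction r with
  | zero => exact hZ
  | succ r ih => exact Finset.union_subset ih (Finset.filter_subset _ _)

private theorem grow_edges (A : V → V → Prop) (E : V → V → Prop) (hA : ∀ u v, A u v → E u v) (d : ℕ) (hd : DegLE E d)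
    (W S S' : Finset V) (h1 : ∀ u ∈ S, ∀ v ∈ W, Adj A u v → v ∈ S') :
    eIn A W ≤ eIn A S + eIn A (W \ S) + 2 * d * (S' \ S).card := by
  have hsub : ((W ×ˢ W).filter fun p => A p.1 p.2) ⊆
      (((S ×ˢ S).filter fun p => A p.1 p.2) ∪ (((W \ S) ×ˢ (W \ S)).filter fun p => A p.1 p.2)) ∪
      (((S' \ S).biUnion fun v => (W.filter fun u => A u v).image fun u => (u, v)) ∪
      ((S' \ S).biUnion fun u => (W.filter fun v => A u v).image fun v => (u, v))) := by
    intro p hp
    simp only [Finset.mem_filter, Finset.mem_product, Finset.mem_union, Finset.mem_biUnion, Finset.mem_image,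
      Finset.mem_sdiff] at hp ⊢
    obtain ⟨⟨ha, hb⟩, hc⟩ := hp
    by_cases h4 : p.1 ∈ S
    · by_cases h5 : p.2 ∈ S
      · exact Or.inl (Or.inl ⟨⟨h4, h5⟩, hc⟩)
      · exact Or.inr (Or.inl ⟨p.2, ⟨h1 _ h4 _ hb (Or.inl hc), h5⟩, p.1, ⟨ha, hc⟩, rfl⟩)
    · by_cases h5 : p.2 ∈ S
      · exact Or.inr (Or.inr ⟨p.1, ⟨h1 _ h5 _ ha (Or.inr hc), h4⟩, p.2, ⟨hb, hc⟩, rfl⟩)
      · exact Or.inl (Or.inr ⟨⟨⟨ha, h4⟩, ⟨hb, h5⟩⟩, hc⟩)
  have hc1 : ((S' \ S).biUnion fun v => (W.filter fun u => A u v).image fun u => (u, v)).card ≤ (S' \ S).card * d := by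
    refine Finset.card_biUnion_le_card_mul _ _ _ fun v _ => ?_
    refine le_trans Finset.card_image_le (hd.2 v _ fun u hu => ?_)
    exact hA _ _ (Finset.mem_filter.1 hu).2
  have hc2 : ((S' \ S).biUnion fun u => (W.filter fun v => A u v).image fun v => (u, v)).card ≤ (S' \ S).card * d := by
    refine Finset.card_biUnion_le_card_mul _ _ _ fun u _ => ?_
    refine le_trans Finset.card_image_le (hd.1 u _ fun v hv => ?_)
    exact hA _ _ (Finset.mem_filter.1 hv).2
  unfold eIn
  have h3 := Finset.card_le_card hsub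
  have h4 := Finset.card_union_le
    (((S ×ˢ S).filter fun p => A p.1 p.2) ∪ (((W \ S) ×ˢ (W \ S)).filter fun p => A p.1 p.2))
    (((S' \ S).biUnion fun v => (W.filter fun u => A u v).image fun u => (u, v)) ∪
      ((S' \ S).biUnion fun u => (W.filter fun v => A u v).image fun v => (u, v)))
  have h5 := Finset.card_union_le
    ((S ×ˢ S).filter fun p => A p.1 p.2) (((W \ S) ×ˢ (W \ S)).filter fun p => A p.1 p.2)
  have h6 := Finset.card_union_le
    ((S' \ S).biUnion fun v => (W.filter fun u => A u v).image fun u => (u, v))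
      ((S' \ S).biUnion fun u => (W.filter fun v => A u v).image fun v => (u, v))
  have h7 : 2 * d * (S' \ S).card = (S' \ S).card * d + (S' \ S).card * d := by ring
  omega

/-- Induction on `r`. Let `S = ball r`, `S' = ball (r+1)`, and suppose `2 d B |S'| < (2 d B + 1) |S|`, i.e. `2 d B |S' \ S| < |S|`. All arcs of `A` in `W`
between `S` and `W \ S` have an end in `S' \ S`, so there are at most `2 d |S' \ S|` of them, `e(W) ≤ e(S) + e(W \ S) + 2 d |S' \ S|`. By `Crit`
`(B+1) |S| ≤ B (e(S) + 2 d |S' \ S|) < B e(S) + |S|`, so `|S| < e(S)`, contradiction to `ball_edges` (`2 r + 1 ≤ 2 r0`). -/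
theorem ball_large (hA : ∀ u v, A u v → E u v) (ha : Asym E) (d : ℕ) (hd : DegLE E d) (r0 : ℕ) (hg : Gir E (2 * r0))
    (W : Finset V) (B : ℕ) (hB : 1 ≤ B) (hcrit : Crit A W B) (z : V) (hz : z ∈ W) (r : ℕ) (hr : r ≤ r0) :
    (2 * d * B + 1) ^ r ≤ (2 * d * B) ^ r * (ball A W {z} r).card := by
  induction r with
  | zero => simp [ball]
  | succ r ih =>
    have ih := ih (by omega)
    set S := ball A W {z} r with hS
    set S' := ball A W {z} (r + 1) with hS'
    have hzW : ({z} : Finset V) ⊆ W := by simpa using hz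
    have hSW : S ⊆ W := ball_subset A W {z} hzW r
    have hSS' : S ⊆ S' := Finset.subset_union_left
    have hmem : ∀ u ∈ S, ∀ v ∈ W, Adj A u v → v ∈ S' := by
      intro u hu v hv hadj
      refine Finset.mem_union_right _ (Finset.mem_filter.2 ⟨hv, u, hu, ?_⟩)
      exact hadj.symm
    have he := grow_edges A E hA d hd W S S' hmem
    have hb : eIn A S < S.card := ball_edges hA ha hg W z hz r (by omega)
    have hc := hcrit.2.1 S hSW
    have hcard : (S' \ S).card + S.card = S'.card := Finset.card_sdiff_add_card_eq_card hSS'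
    have key : (2 * d * B + 1) * S.card ≤ 2 * d * B * S'.card := by
      by_contra hcon
      push Not at hcon
      rw [← hcard] at hcon
      have h1 : 2 * d * B * (S' \ S).card < S.card := by
        have e1 : 2 * d * B * ((S' \ S).card + S.card) = 2 * d * B * (S' \ S).card + 2 * d * B * S.card := by ring
        have e2 : (2 * d * B + 1) * S.card = 2 * d * B * S.card + S.card := by ring
        omega
      have h2 : B * eIn A W ≤ B * eIn A S + B * eIn A (W \ S) + 2 * d * B * (S' \ S).card := by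
        calc B * eIn A W ≤ B * (eIn A S + eIn A (W \ S) + 2 * d * (S' \ S).card) := Nat.mul_le_mul_left _ he
          _ = _ := by ring
      have h3 : (B + 1) * S.card = B * S.card + S.card := by ring
      have h4 : B * S.card < B * eIn A S := by omega
      have h5 : S.card < eIn A S := lt_of_mul_lt_mul_left h4 (Nat.zero_le _)
      omega
    calc (2 * d * B + 1) ^ (r + 1) = (2 * d * B + 1) ^ r * (2 * d * B + 1) := pow_succ _ _
      _ ≤ (2 * d * B) ^ r * S.card * (2 * d * B + 1) := Nat.mul_le_mul_right _ ih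
      _ = (2 * d * B) ^ r * ((2 * d * B + 1) * S.card) := by ring
      _ ≤ (2 * d * B) ^ r * (2 * d * B * S'.card) := Nat.mul_le_mul_left _ key
      _ = (2 * d * B) ^ (r + 1) * S'.card := by ring

end Pool.Agent.BoolWidth
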