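import Pool.Agent.Lib_MP_0cf6e1_b.Defs

/-!
# Piece HEL: total variation and Bhattacharyya coefficient
-/

set_option autoImplicit false

open scoped Classical

namespace Pool.Agent.BoolWidth

/-- normalised form -/
private lemma hel_aux {ι : Type} (s : Finset ι) (P Q : ι → ℝ) (hP : ∀ i ∈ s, 0 ≤ P i)
    (hQ : ∀ i ∈ s, 0 ≤ Q i) (h1 : ∑ i ∈ s, P i ≤ 1) (h2 : ∑ i ∈ s, Q i ≤ 1) :
    (1 - ∑ i ∈ s, min (P i) (Q i)) ^ 2 ≤ 2 * (1 - ∑ i ∈ s, √(P i * Q i)) := by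
  set O := ∑ i ∈ s, min (P i) (Q i) with hO
  set M := ∑ i ∈ s, max (P i) (Q i) with hM
  have hO0 : 0 ≤ O := Finset.sum_nonneg fun i hi => le_min (hP i hi) (hQ i hi)
  have hO1 : O ≤ 1 := (Finset.sum_le_sum fun i _ => min_le_left _ _).trans h1
  have hM0 : 0 ≤ M := Finset.sum_nonneg fun i hi => (hP i hi).trans (le_max_left _ _)
  have hsum : O + M ≤ 2 := by
    have : O + M = ∑ i ∈ s, P i + ∑ i ∈ s, Q i := by
      rw [hO, hM, ← Finset.sum_add_distrib, ← Finset.sum_add_distrib]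
      exact Finset.sum_congr rfl fun i _ => min_add_max _ _
    linarith
  have hcs : (∑ i ∈ s, √(P i * Q i)) ^ 2 ≤ O * M := by
    refine Finset.sum_sq_le_sum_mul_sum_of_sq_le_mul s (fun i hi => le_min (hP i hi) (hQ i hi))
      (fun i hi => (hP i hi).trans (le_max_left _ _)) fun i hi => le_of_eq ?_
    rw [Real.sq_sqrt (mul_nonneg (hP i hi) (hQ i hi)), min_mul_max]
  have hB : ∑ i ∈ s, √(P i * Q i) ≤ 1 - (1 - O) ^ 2 / 2 := by
    refine abs_le_of_sq_le_sq' ?_ ?_ |>.2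
    · nlinarith [mul_nonneg hO0 (by linarith : (0:ℝ) ≤ 2 - O - M), sq_nonneg ((1 - O) ^ 2)]
    · nlinarith
  linarith

/-- Normalise `P = p/α`, `Q = q/β`, `O = ∑ min(P,Q)`, `∑ max(P,Q) ≤ 2 - O`, so by Cauchy-Schwarz `(∑ √(P Q))^2 ≤ O (2 - O) = 1 - (1 - O)^2`, `∑ √(P Q) ≤ 1 - (1 - O)^2 / 2`
(`0 ≤ O ≤ 1`). So `√(α β) - ∑ √(p q) = √(α β) (1 - ∑ √(P Q)) ≥ √(α β) (1 - O)^2 / 2` and `min(α, β)^2 ≤ α β`. -/
theorem hel {ι : Type} (s : Finset ι) (p q : ι → ℝ) (hp : ∀ i ∈ s, 0 ≤ p i) (hq : ∀ i ∈ s, 0 ≤ q i) (α β : ℝ) (hα : 0 < α)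
    (hβ : 0 < β) (hpα : ∑ i ∈ s, p i ≤ α) (hqβ : ∑ i ∈ s, q i ≤ β) :
    (min α β * (1 - ∑ i ∈ s, min (p i / α) (q i / β))) ^ 2 ≤ 2 * √(α * β) * (√(α * β) - ∑ i ∈ s, √(p i * q i)) := by
  have key := hel_aux s (fun i => p i / α) (fun i => q i / β)
    (fun i hi => div_nonneg (hp i hi) hα.le) (fun i hi => div_nonneg (hq i hi) hβ.le)
    (by rw [← Finset.sum_div, div_le_one hα]; exact hpα)
    (by rw [← Finset.sum_div, div_le_one hβ]; exact hqβ)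
  have hαβ : 0 ≤ α * β := (mul_pos hα hβ).le
  have e : ∑ i ∈ s, √(p i * q i) = √(α * β) * ∑ i ∈ s, √(p i / α * (q i / β)) := by
    rw [Finset.mul_sum]
    refine Finset.sum_congr rfl fun i hi => ?_
    rw [← Real.sqrt_mul hαβ]
    congr 1
    field_simp
  rw [e, mul_pow]
  set O := ∑ i ∈ s, min (p i / α) (q i / β)
  set B := ∑ i ∈ s, √(p i / α * (q i / β))
  have hm : (min α β) ^ 2 ≤ α * β := by
    rw [sq]
    exact mul_le_mul (min_le_left _ _) (min_le_right _ _) (le_min hα.le hβ.le) hα.le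
  calc (min α β) ^ 2 * (1 - O) ^ 2 ≤ (α * β) * (1 - O) ^ 2 :=
        mul_le_mul_of_nonneg_right hm (sq_nonneg _)
    _ ≤ (α * β) * (2 * (1 - B)) := mul_le_mul_of_nonneg_left key hαβ
    _ = 2 * √(α * β) * (√(α * β) - √(α * β) * B) := by
        have := Real.mul_self_sqrt hαβ
        linear_combination (-(2 * (1 - B))) * this

end Pool.Agent.BoolWidth
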