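import Pool.Agent.Lib_MP_0cf6e1_b.GirL

/-!
# Piece HOL: flow and holonomy of a walk
-/

set_option autoImplicit false

open scoped Classical

namespace Pool.Agent.BoolWidth

variable {V : Type} {E : V → V → Prop}

/-- number of steps from `u` to `v` minus number of steps from `v` to `u` in the walk `c 0, …, c l` -/
noncomputable def flow (c : ℕ → V) (l : ℕ) (u v : V) : ℤ :=
  ∑ i ∈ Finset.range l, ((if c i = u ∧ c (i + 1) = v then (1 : ℤ) else 0) -
    (if c i = v ∧ c (i + 1) = u then (1 : ℤ) else 0))

/-- sum of the shifts along the walk -/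
noncomputable def hol (E : V → V → Prop) (t : V → V → ℕ) (c : ℕ → V) (l : ℕ) : ℤ :=
  ∑ i ∈ Finset.range l, (if E (c i) (c (i + 1)) then (t (c i) (c (i + 1)) : ℤ) else - (t (c (i + 1)) (c i) : ℤ))

/-- exchange the sums: a step `i` with `E (c i) (c (i+1))` contributes only to `(u, v) = (c i, c (i+1))`, the other steps (`E (c (i+1)) (c i)`) only to `(c (i+1), c i)`
(`Asym`) -/
theorem hol_eq [Fintype V] (ha : Asym E) (t : V → V → ℕ) (c : ℕ → V) (l : ℕ) (hc : ∀ i, i < l → Adj E (c i) (c (i + 1))) :
    hol E t c l = ∑ u, ∑ v, if E u v then flow c l u v * (t u v : ℤ) else 0 := by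
  have h1 : ∀ u v : V, (if E u v then flow c l u v * (t u v : ℤ) else 0) =
      ∑ i ∈ Finset.range l, (if E u v then ((if c i = u ∧ c (i + 1) = v then (1 : ℤ) else 0) -
        (if c i = v ∧ c (i + 1) = u then (1 : ℤ) else 0)) * (t u v : ℤ) else 0) := by
    intro u v
    by_cases h : E u v
    · simp only [h, if_true]
      unfold flow
      rw [Finset.sum_mul]
    · simp only [h, if_false, Finset.sum_const_zero]
  have h2 : ∀ i ∈ Finset.range l,
      (if E (c i) (c (i + 1)) then (t (c i) (c (i + 1)) : ℤ) else - (t (c (i + 1)) (c i) : ℤ)) =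
      ∑ u, ∑ v, (if E u v then ((if c i = u ∧ c (i + 1) = v then (1 : ℤ) else 0) -
        (if c i = v ∧ c (i + 1) = u then (1 : ℤ) else 0)) * (t u v : ℤ) else 0) := by
    intro i hi
    have hi' := Finset.mem_range.mp hi
    have hsplit : ∀ u v : V, (if E u v then ((if c i = u ∧ c (i + 1) = v then (1 : ℤ) else 0) -
        (if c i = v ∧ c (i + 1) = u then (1 : ℤ) else 0)) * (t u v : ℤ) else 0) =
        (if u = c i then (if v = c (i + 1) then (if E u v then (t u v : ℤ) else 0) else 0) else 0) -
        (if u = c (i + 1) then (if v = c i then (if E u v then (t u v : ℤ) else 0) else 0) else 0) := by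
      intro u v
      by_cases hE : E u v
      · have k1 : (u = c i) ↔ (c i = u) := eq_comm
        have k2 : (v = c (i + 1)) ↔ (c (i + 1) = v) := eq_comm
        have k3 : (u = c (i + 1)) ↔ (c (i + 1) = u) := eq_comm
        have k4 : (v = c i) ↔ (c i = v) := eq_comm
        simp only [hE, if_true, k1, k2, k3, k4]
        split_ifs <;> first | ring1 | (exfalso; tauto)
      · simp [hE]
    simp only [hsplit]
    rw [Finset.sum_congr rfl (fun u _ => Finset.sum_sub_distrib _ _)]
    rw [Finset.sum_sub_distrib]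
    have e1 : ∀ x y : V, ∑ u, ∑ v, (if u = x then (if v = y then (if E u v then (t u v : ℤ) else 0) else 0) else 0) =
        if E x y then (t x y : ℤ) else 0 := by
      intro x y
      rw [Finset.sum_eq_single x]
      · rw [Finset.sum_eq_single y]
        · simp
        · intro b _ hb
          simp [hb]
        · intro hn
          exact absurd (Finset.mem_univ _) hn
      · intro b _ hb
        simp [hb]
      · intro hn
        exact absurd (Finset.mem_univ _) hn
    rw [e1, e1]
    rcases hc i hi' with h | h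
    · rw [if_pos h, if_pos h, if_neg (ha _ _ h), sub_zero]
    · rw [if_neg (ha _ _ h), if_neg (ha _ _ h), if_pos h, zero_sub]
  unfold hol
  rw [Finset.sum_congr rfl h2]
  rw [Finset.sum_comm]
  refine Finset.sum_congr rfl (fun u _ => ?_)
  rw [Finset.sum_comm]
  refine Finset.sum_congr rfl (fun v _ => ?_)
  rw [h1]

/-- telescoping -/
theorem hol_lift (ha : Asym E) (t : V → V → ℕ) (D : ℕ) (c : ℕ → V × Fin D) (l : ℕ)
    (hc : ∀ i, i < l → Adj (liftE E t D) (c i) (c (i + 1))) :
    hol E t (fun i => (c i).1) l = (((c l).2 : ℕ) : ℤ) - (((c 0).2 : ℕ) : ℤ) := by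
  unfold hol
  rw [← Finset.sum_range_sub (fun i => (((c i).2 : ℕ) : ℤ)) l]
  refine Finset.sum_congr rfl (fun i hi => ?_)
  have hi' := Finset.mem_range.mp hi
  rcases hc i hi' with h | h
  · obtain ⟨h1, h2⟩ := h
    simp only
    rw [if_pos h1]
    omega
  · obtain ⟨h1, h2⟩ := h
    simp only
    rw [if_neg (ha _ _ h1)]
    omega

end Pool.Agent.BoolWidth
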