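import Mathlib

/-!
# Boolean realizers and width
-/

namespace Pool.Agent.BoolWidth

/-- The poset `X` has a Boolean realizer of size `d`: there are `d` (strict) linear orders on `X`
and a Boolean function `τ` of `d` bits such that, for all distinct `x` and `y`, `x < y` in `X` if
and only if `τ` is true at the vector whose `i`-th entry says whether `x` is before `y` in the
`i`-th linear order. -/
def HasBoolRealizer (X : Type) [PartialOrder X] (d : ℕ) : Prop :=
  ∃ (L : Fin d → X → X → Prop) (τ : (Fin d → Prop) → Prop),
    (∀ i, IsStrictTotalOrder X (L i)) ∧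
      ∀ x y : X, x ≠ y → (x < y ↔ τ (fun i => L i x y))

/-- The poset `X` has width `w`: the largest size of an antichain of `X` is `w`. -/
def HasWidth (X : Type) [PartialOrder X] (w : ℕ) : Prop :=
  (∃ s : Finset X, IsAntichain (· ≤ ·) (s : Set X) ∧ s.card = w) ∧
    ∀ s : Finset X, IsAntichain (· ≤ ·) (s : Set X) → s.card ≤ w

end Pool.Agent.BoolWidth
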