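import Mathlib

/-!
# Labels for a transitive and cotransitive relation
-/

set_option autoImplicit false

open scoped Classical

namespace Pool.Agent.BoolWidth

variable {V : Type} [Fintype V]

/-- strictly before -/
def wpr (R : V → V → Prop) (u v : V) : Prop := R u v ∧ ¬ R v u
/-- same block -/
def weq (R : V → V → Prop) (u v : V) : Prop := R u v ↔ R v u

noncomputable def wb (R : V → V → Prop) (v : V) : ℕ := (Finset.univ.filter (fun u => wpr R u v)).card
noncomputable def wsz (R : V → V → Prop) (v : V) : ℕ := (Finset.univ.filter (fun u => weq R u v)).card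
noncomputable def wlab (R : V → V → Prop) (s : ℕ) (v : V) : ℕ :=
  2 * (wb R v / s) + if (wb R v / s + 1) * s < wb R v + wsz R v then 1 else 0

omit [Fintype V] in
theorem wtri (R : V → V → Prop) (u v : V) : wpr R u v ∨ wpr R v u ∨ weq R u v := by
  unfold wpr weq; tauto

section
variable (R : V → V → Prop) (htr : ∀ u v t, R u v → R v t → R u t)
  (hco : ∀ u v t, ¬ R u v → ¬ R v t → ¬ R u t)
include htr hco

omit [Fintype V] in
theorem weq_sign (a b : V) (h : weq R a b) : (R a b ↔ R a a) ∧ (R b b ↔ R a a) := by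
  unfold weq at h
  by_cases hab : R a b
  · have hba := h.1 hab
    exact ⟨⟨fun _ => htr _ _ _ hab hba, fun _ => hab⟩, ⟨fun _ => htr _ _ _ hab hba, fun _ => htr _ _ _ hba hab⟩⟩
  · have hba : ¬ R b a := fun h' => hab (h.2 h')
    have h1 := hco _ _ _ hab hba
    have h2 := hco _ _ _ hba hab
    exact ⟨⟨fun h' => absurd h' hab, fun h' => absurd h' h1⟩, ⟨fun h' => absurd h' h2, fun h' => absurd h' h1⟩⟩

omit [Fintype V] in
theorem weq_symm (a b : V) (h : weq R a b) : weq R b a := h.symm

omit [Fintype V] in
theorem weq_trans (a b c : V) (h1 : weq R a b) (h2 : weq R b c) : weq R a c := by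
  have s1 := weq_sign R htr hco a b h1
  have s2 := weq_sign R htr hco b c h2
  unfold weq at *
  by_cases hs : R b b
  · have hab : R a b := s1.1.2 (s1.2.1 hs)
    have hbc : R b c := s2.1.2 hs
    exact ⟨fun _ => htr _ _ _ (h2.1 hbc) (h1.1 hab), fun _ => htr _ _ _ hab hbc⟩
  · have hab : ¬ R a b := fun h => hs (s1.2.2 (s1.1.1 h))
    have hbc : ¬ R b c := fun h => hs (s2.1.1 h)
    have hba : ¬ R b a := fun h => hab (h1.2 h)
    have hcb : ¬ R c b := fun h => hbc (h2.2 h)
    exact ⟨fun h => absurd h (hco _ _ _ hab hbc), fun h => absurd h (hco _ _ _ hcb hba)⟩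

omit [Fintype V] in
theorem wpr_trans (a b c : V) (h1 : wpr R a b) (h2 : wpr R b c) : wpr R a c :=
  ⟨htr _ _ _ h1.1 h2.1, hco _ _ _ h2.2 h1.2⟩

omit [Fintype V] in
theorem wpr_weq (a b c : V) (h1 : wpr R a b) (h2 : weq R b c) : wpr R a c := by
  rcases wtri R a c with h | h | h
  · exact h
  · exfalso
    have h3 := wpr_trans R htr hco c a b h h1
    unfold weq at h2
    exact h3.2 (h2.2 h3.1)
  · exfalso
    have h3 := weq_trans R htr hco a c b h (weq_symm R htr hco b c h2)
    unfold weq at h3
    exact h1.2 (h3.1 h1.1)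

omit [Fintype V] in
theorem weq_wpr (a b c : V) (h1 : weq R a b) (h2 : wpr R b c) : wpr R a c := by
  rcases wtri R a c with h | h | h
  · exact h
  · exfalso
    have h3 := wpr_trans R htr hco b c a h2 h
    unfold weq at h1
    exact h3.2 (h1.2 h3.1)
  · exfalso
    have h3 := weq_trans R htr hco b a c (weq_symm R htr hco a b h1) h
    unfold weq at h3
    exact h2.2 (h3.1 h2.1)

theorem wb_eq (a b : V) (h : weq R a b) : wb R a = wb R b := by
  unfold wb
  congr 1
  apply Finset.filter_congr
  intro u _
  exact ⟨fun h1 => wpr_weq R htr hco _ _ _ h1 h, fun h1 => wpr_weq R htr hco _ _ _ h1 (weq_symm R htr hco _ _ h)⟩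

theorem wsz_eq (a b : V) (h : weq R a b) : wsz R a = wsz R b := by
  unfold wsz
  congr 1
  apply Finset.filter_congr
  intro u _
  exact ⟨fun h1 => weq_trans R htr hco _ _ _ h1 h, fun h1 => weq_trans R htr hco _ _ _ h1 (weq_symm R htr hco _ _ h)⟩

theorem wlab_eq (s : ℕ) (a b : V) (h : weq R a b) : wlab R s a = wlab R s b := by
  unfold wlab
  rw [wb_eq R htr hco a b h, wsz_eq R htr hco a b h]

theorem wb_card (v : V) : (Finset.univ.filter (fun u => wpr R u v) ∪ Finset.univ.filter (fun u => weq R u v)).card =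
    wb R v + wsz R v := by
  unfold wb wsz
  apply Finset.card_union_of_disjoint
  rw [Finset.disjoint_left]
  intro u hu hu'
  have h1 := (Finset.mem_filter.1 hu).2
  have h2 := (Finset.mem_filter.1 hu').2
  unfold weq at h2
  exact h1.2 (h2.1 h1.1)

omit htr hco in
theorem wsz_pos (v : V) : 1 ≤ wsz R v := by
  unfold wsz
  apply Finset.card_pos.2
  exact ⟨v, Finset.mem_filter.2 ⟨Finset.mem_univ _, Iff.rfl⟩⟩

theorem wb_lt (u v : V) (h : wpr R u v) : wb R u + wsz R u ≤ wb R v := by
  rw [← wb_card R htr hco]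
  unfold wb
  apply Finset.card_le_card
  intro t ht
  rw [Finset.mem_union, Finset.mem_filter, Finset.mem_filter] at ht
  rw [Finset.mem_filter]
  refine ⟨Finset.mem_univ _, ?_⟩
  rcases ht with ⟨-, h1⟩ | ⟨-, h1⟩
  · exact wpr_trans R htr hco _ _ _ h1 h
  · exact weq_wpr R htr hco _ _ _ h1 h

theorem wb_univ (v : V) : wb R v + wsz R v ≤ Fintype.card V := by
  rw [← wb_card R htr hco]
  exact Finset.card_le_univ _

theorem wlab_mono (s : ℕ) (hs : 1 ≤ s) (u v : V) (h : wpr R u v) : wlab R s u ≤ wlab R s v := by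
  have h1 := wb_lt R htr hco u v h
  have h2 : wb R u / s ≤ wb R v / s := Nat.div_le_div_right (by omega)
  unfold wlab
  rcases h2.lt_or_eq with h3 | h3
  · split_ifs <;> omega
  · have h4 : wb R v < (wb R v / s + 1) * s := by
      have := Nat.div_add_mod (wb R v) s
      have h5 := Nat.mod_lt (wb R v) (show 0 < s by omega)
      nlinarith
    have h6 : ¬ ((wb R u / s + 1) * s < wb R u + wsz R u) := by
      rw [h3]
      omega
    rw [if_neg h6, h3]
    omega

theorem wlab_lt (s : ℕ) (hs : 1 ≤ s) (v : V) : wlab R s v < 2 * (Fintype.card V / s) + 2 := by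
  have h1 := wb_univ R htr hco v
  have h2 : wb R v / s ≤ Fintype.card V / s := Nat.div_le_div_right (by omega)
  unfold wlab
  split_ifs <;> omega

theorem wlab_odd (s : ℕ) (hs : 1 ≤ s) (u v : V) (h : wlab R s u = wlab R s v) (ho : ¬ Even (wlab R s u)) : weq R u v := by
  have key : ∀ a b : V, wlab R s a = wlab R s b → ¬ Even (wlab R s a) → ¬ wpr R a b := by
    intro a b hab ha hpr
    have h1 := wb_lt R htr hco a b hpr
    have h4 : wb R b < (wb R b / s + 1) * s := by
      have := Nat.div_add_mod (wb R b) s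
      have h5 := Nat.mod_lt (wb R b) (show 0 < s by omega)
      nlinarith
    have h5 : (wb R a / s + 1) * s < wb R a + wsz R a := by
      by_contra hc
      apply ha
      unfold wlab
      rw [if_neg hc]
      exact ⟨wb R a / s, by ring⟩
    have h6 : wb R a / s = wb R b / s := by
      unfold wlab at hab
      rw [if_pos h5] at hab
      split_ifs at hab <;> omega
    rw [h6] at h5
    omega
  rcases wtri R u v with h1 | h1 | h1
  · exact absurd h1 (key u v h ho)
  · exact absurd h1 (key v u h.symm (by rw [← h]; exact ho))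
  · exact h1

theorem wlab_even (s : ℕ) (hs : 1 ≤ s) (i : ℕ) (hi : Even i) : (Finset.univ.filter (fun v => wlab R s v = i)).card ≤ s := by
  set K := Finset.univ.filter (fun v => wlab R s v = i) with hK
  rcases K.eq_empty_or_nonempty with h0 | hne
  · rw [h0]; simp
  obtain ⟨v0, hv0, hmin⟩ := Finset.exists_min_image K (wb R) hne
  obtain ⟨v1, hv1, hmax⟩ := Finset.exists_max_image K (wb R) hne
  obtain ⟨j, hj⟩ := hi
  have hmem : ∀ v ∈ K, wb R v / s = j ∧ wb R v + wsz R v ≤ (j + 1) * s := by
    intro v hv
    have h1 := (Finset.mem_filter.1 hv).2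
    unfold wlab at h1
    by_cases hc : (wb R v / s + 1) * s < wb R v + wsz R v
    · rw [if_pos hc] at h1
      omega
    · rw [if_neg hc] at h1
      have h2 : wb R v / s = j := by omega
      rw [h2] at hc
      exact ⟨h2, by omega⟩
  have h0 := hmem v0 hv0
  have h1 := hmem v1 hv1
  have h2 : j * s ≤ wb R v0 := by
    rw [← h0.1]
    exact Nat.div_mul_le_self _ _
  set A1 := Finset.univ.filter (fun u => wpr R u v1) ∪ Finset.univ.filter (fun u => weq R u v1) with hA1
  set A0 := Finset.univ.filter (fun u => wpr R u v0) with hA0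
  have hA1c : A1.card = wb R v1 + wsz R v1 := wb_card R htr hco v1
  have hA0c : A0.card = wb R v0 := rfl
  have hsub : A0 ⊆ A1 := by
    intro t ht
    have ht' := (Finset.mem_filter.1 ht).2
    rw [hA1, Finset.mem_union, Finset.mem_filter, Finset.mem_filter]
    rcases wtri R t v1 with h3 | h3 | h3
    · exact Or.inl ⟨Finset.mem_univ _, h3⟩
    · exfalso
      have h4 := wpr_trans R htr hco _ _ _ h3 ht'
      have h5 := wb_lt R htr hco _ _ h4
      have h6 := hmax v0 hv0
      have h7 := wsz_pos R v1
      omega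
    · exact Or.inr ⟨Finset.mem_univ _, h3⟩
  have hKsub : K ⊆ A1 \ A0 := by
    intro t ht
    rw [Finset.mem_sdiff]
    constructor
    · rw [hA1, Finset.mem_union, Finset.mem_filter, Finset.mem_filter]
      rcases wtri R t v1 with h3 | h3 | h3
      · exact Or.inl ⟨Finset.mem_univ _, h3⟩
      · exfalso
        have h5 := wb_lt R htr hco _ _ h3
        have h6 := hmax t ht
        have h7 := wsz_pos R v1
        omega
      · exact Or.inr ⟨Finset.mem_univ _, h3⟩
    · intro h3
      have h4 := (Finset.mem_filter.1 h3).2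
      have h5 := wb_lt R htr hco _ _ h4
      have h6 := hmin t ht
      have h7 := wsz_pos R t
      omega
  have h3 := Finset.card_le_card hKsub
  rw [Finset.card_sdiff_of_subset hsub, hA1c, hA0c] at h3
  have h4 : (j + 1) * s = j * s + s := by ring
  omega

omit [Fintype V] in
theorem wR_iff (u v u' v' : V) (lab : V → ℕ) (hmono : ∀ a b, wpr R a b → lab a ≤ lab b)
    (heq : ∀ a b, weq R a b → lab a = lab b) (hodd : ∀ a b, lab a = lab b → ¬ Even (lab a) → weq R a b)
    (h1 : lab u = lab v) (h2 : lab u' = lab v') (h3 : ¬ (lab v = lab v' ∧ Even (lab v))) : R u u' ↔ R v v' := by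
  by_cases hc : lab v = lab v'
  · have ho : ¬ Even (lab v) := fun h => h3 ⟨hc, h⟩
    have e1 : weq R v v' := hodd _ _ hc ho
    have e2 : weq R u v := hodd _ _ h1 (by rw [h1]; exact ho)
    have e3 : weq R u u' := hodd _ _ (by rw [h1, hc, h2]) (by rw [h1]; exact ho)
    have s1 := weq_sign R htr hco _ _ e1
    have s2 := weq_sign R htr hco _ _ e2
    have s3 := weq_sign R htr hco _ _ e3
    rw [s1.1, s3.1, s2.2]
  · rcases wtri R v v' with h | h | h
    · have h4 := hmono _ _ h
      rcases wtri R u u' with h5 | h5 | h5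
      · exact ⟨fun _ => h.1, fun _ => h5.1⟩
      · have h6 := hmono _ _ h5
        omega
      · have h6 := heq _ _ h5
        omega
    · have h4 := hmono _ _ h
      rcases wtri R u u' with h5 | h5 | h5
      · have h6 := hmono _ _ h5
        omega
      · exact ⟨fun h' => absurd h' h5.2, fun h' => absurd h' h.2⟩
      · have h6 := heq _ _ h5
        omega
    · exact absurd (heq _ _ h) hc

end

/-- labels: the even classes have at most `s` elements, and two labels determine `R` unless they are equal and even -/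
theorem labels (R : V → V → Prop) (htr : ∀ u v t, R u v → R v t → R u t)
    (hco : ∀ u v t, ¬ R u v → ¬ R v t → ¬ R u t) (s : ℕ) (hs : 1 ≤ s) :
    ∃ lab : V → Fin (2 * (Fintype.card V / s) + 2),
      (∀ i, Even i.val → (Finset.univ.filter (fun v => lab v = i)).card ≤ s) ∧
      ∀ u v u' v', lab u = lab v → lab u' = lab v' → ¬ (lab v = lab v' ∧ Even (lab v).val) →
        (R u u' ↔ R v v') := by
  refine ⟨fun v => ⟨wlab R s v, wlab_lt R htr hco s hs v⟩, ?_, ?_⟩
  · intro i hi
    have h1 := wlab_even R htr hco s hs i.val hi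
    have h2 : Finset.univ.filter (fun v => (⟨wlab R s v, wlab_lt R htr hco s hs v⟩ :
        Fin (2 * (Fintype.card V / s) + 2)) = i) = Finset.univ.filter (fun v => wlab R s v = i.val) := by
      apply Finset.filter_congr
      intro v _
      rw [Fin.ext_iff]
    rw [h2]
    exact h1
  · intro u v u' v' h1 h2 h3
    apply wR_iff R htr hco u v u' v' (wlab R s) (fun a b h => wlab_mono R htr hco s hs a b h)
      (fun a b h => wlab_eq R htr hco s a b h) (fun a b h h' => wlab_odd R htr hco s hs a b h h')
    · exact congrArg Fin.val h1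
    · exact congrArg Fin.val h2
    · rintro ⟨h4, h5⟩
      exact h3 ⟨Fin.ext h4, h5⟩

end Pool.Agent.BoolWidth
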