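import Mathlib

/-!
# Ramsey for triangles, ordered version
-/

set_option autoImplicit false

open scoped Classical

namespace Pool.Agent.BoolWidth

theorem ram_aux (α : Type) (c : ℕ) :
    ∃ n0 : ℕ, ∀ (ι : Type) [LinearOrder ι] (f : ι → ι → α) (S : Finset ι) (T : Finset α), n0 ≤ S.card → T.card ≤ c →
      (∀ i ∈ S, ∀ j ∈ S, i < j → f i j ∈ T) →
      ∃ i ∈ S, ∃ j ∈ S, ∃ k ∈ S, i < j ∧ j < k ∧ f i j = f j k ∧ f i j = f i k := by
  induction c with
  | zero =>
    refine ⟨2, ?_⟩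
    intro ι _ f S T hS hT hf
    obtain ⟨a, ha, b, hb, hab⟩ := Finset.one_lt_card.1 (show 1 < S.card by omega)
    have hT0 : T = ∅ := Finset.card_eq_zero.1 (by omega)
    rcases lt_or_gt_of_ne hab with h | h
    · have := hf a ha b hb h
      simp [hT0] at this
    · have := hf b hb a ha h
      simp [hT0] at this
  | succ c ih =>
    obtain ⟨n0, hn0⟩ := ih
    refine ⟨(c + 1) * n0 + 2, ?_⟩
    intro ι _ f S T hS hT hf
    have hSne : S.Nonempty := Finset.card_pos.1 (by omega)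
    set m := S.min' hSne with hm
    have hmS : m ∈ S := S.min'_mem hSne
    set S' := S.erase m with hS'
    have hS'card : (c + 1) * n0 + 1 ≤ S'.card := by
      rw [hS', Finset.card_erase_of_mem hmS]
      omega
    have hlt : ∀ j ∈ S', m < j := by
      intro j hj
      have h1 := Finset.mem_erase.1 hj
      exact lt_of_le_of_ne (S.min'_le j h1.2) (Ne.symm h1.1)
    have hmaps : ∀ j ∈ S', f m j ∈ T := fun j hj => hf m hmS j (Finset.mem_of_mem_erase hj) (hlt j hj)
    have hpig : ∃ t ∈ T, n0 < (S'.filter (fun j => f m j = t)).card := by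
      apply Finset.exists_lt_card_fiber_of_mul_lt_card_of_maps_to hmaps
      calc T.card * n0 ≤ (c + 1) * n0 := Nat.mul_le_mul_right _ hT
        _ < S'.card := by omega
    obtain ⟨t, htT, ht⟩ := hpig
    set S'' := S'.filter (fun j => f m j = t) with hS''
    have hsub : ∀ j ∈ S'', j ∈ S ∧ m < j ∧ f m j = t := by
      intro j hj
      have h1 := Finset.mem_filter.1 hj
      exact ⟨Finset.mem_of_mem_erase h1.1, hlt j h1.1, h1.2⟩
    by_cases hex : ∃ i ∈ S'', ∃ j ∈ S'', i < j ∧ f i j = t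
    · obtain ⟨i, hi, j, hj, hij, hfij⟩ := hex
      have h1 := hsub i hi
      have h2 := hsub j hj
      exact ⟨m, hmS, i, h1.1, j, h2.1, h1.2.1, hij, by rw [h1.2.2, hfij], by rw [h1.2.2, h2.2.2]⟩
    · push Not at hex
      obtain ⟨i, hi, j, hj, k, hk, h⟩ := hn0 ι f S'' (T.erase t) ht.le
        (by rw [Finset.card_erase_of_mem htT]; omega)
        (fun i hi j hj hij => Finset.mem_erase.2 ⟨hex i hi j hj hij, hf i (hsub i hi).1 j (hsub j hj).1 hij⟩)
      exact ⟨i, (hsub i hi).1, j, (hsub j hj).1, k, (hsub k hk).1, h⟩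

theorem ramsey3 (α : Type) [Fintype α] :
    ∃ n0 : ℕ, 0 < n0 ∧ ∀ n : ℕ, n0 ≤ n → ∀ f : Fin n → Fin n → α,
      ∃ i j k : Fin n, i < j ∧ j < k ∧ f i j = f j k ∧ f i j = f i k := by
  obtain ⟨n0, hn0⟩ := ram_aux α (Fintype.card α)
  refine ⟨n0 + 1, Nat.succ_pos _, ?_⟩
  intro n hn f
  obtain ⟨i, -, j, -, k, -, h⟩ := hn0 (Fin n) f Finset.univ Finset.univ
    (by rw [Finset.card_univ, Fintype.card_fin]; omega) (by rw [Finset.card_univ]) (fun _ _ _ _ _ => Finset.mem_univ _)
  exact ⟨i, j, k, h⟩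

end Pool.Agent.BoolWidth
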