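import Pool.Agent.Lib_MP_0cf6e1_b.Lift
import Pool.Agent.Lib_MP_0cf6e1_b.Deg
import Pool.Agent.Lib_MP_0cf6e1_b.PRam
import Pool.Agent.Lib_MP_0cf6e1_b.PLab

/-!
# The box argument
-/

set_option autoImplicit false

open scoped Classical

namespace Pool.Agent.BoolWidth

variable {w : ℕ} {V : Type}

/-- the set of the arcs -/
noncomputable def arcs [Fintype V] (M : MG w V) : Finset (V × V) := Finset.univ.filter (fun p => M.E p.1 p.2)

theorem eIn_univ [Fintype V] (M : MG w V) : eIn M.E Finset.univ = (arcs M).card := by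
  unfold eIn arcs
  congr 1

/-- out-arcs to a chain are unique -/
theorem MG.out_uniq (M : MG w V) (v a b : V) (ha : M.E v a) (hb : M.E v b) (hc : M.ch a = M.ch b) : a = b := by
  by_contra hne
  rcases M.chain a b hc hne with h | h
  · exact M.ecov v b a hb (M.elt _ _ ha) h
  · exact M.ecov v a b ha (M.elt _ _ hb) h

/-- in-arcs from a chain are unique -/
theorem MG.in_uniq (M : MG w V) (v a b : V) (ha : M.E a v) (hb : M.E b v) (hc : M.ch a = M.ch b) : a = b := by
  by_contra hne
  rcases M.chain a b hc hne with h | h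
  · exact M.ecov a v b ha h (M.elt _ _ hb)
  · exact M.ecov b v a hb h (M.elt _ _ ha)

/-- a pair in different chains is an arc iff levels `z1 < z2` are comparable in one way only -/
theorem arc_iff (M : MG w V) (n : ℕ) (z1 z2 : Fin n) (hz : z1 < z2) (u v : V) (hne : u ≠ v) :
    M.E u v ↔ (liftLt M.lt M.E (fun _ _ => 0) n (u, z1) (v, z2) ∧ ¬ liftLt M.lt M.E (fun _ _ => 0) n (u, z2) (v, z1)) := by
  unfold liftLt
  simp only [add_zero]
  constructor
  · intro h
    refine ⟨Or.inr (Or.inr ⟨h, hz.le⟩), ?_⟩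
    rintro (h1 | h1 | h1)
    · exact hne h1.1
    · exact h1.2 h
    · exact absurd h1.2 (not_le.2 hz)
  · rintro ⟨h1 | h1 | h1, h2⟩
    · exact absurd h1.1 hne
    · exact absurd (Or.inr (Or.inl h1)) h2
    · exact h1.1

theorem good_count [Fintype V] (M : MG w V) (d n Q : ℕ) (L : Fin d → V × Fin n → V × Fin n → Prop)
    (τ : (Fin d → Prop) → Prop) (hL : ∀ i, IsStrictTotalOrder (V × Fin n) (L i))
    (hτ : ∀ x y, x ≠ y → (liftLt M.lt M.E (fun _ _ => 0) n x y ↔ τ (fun i => L i x y)))
    (z1 z2 : Fin n) (hz : z1 < z2) (lab : Fin d → V → Fin Q)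
    (hlab : ∀ k, ∀ u v u' v', lab k u = lab k v → lab k u' = lab k v' → ¬ (lab k v = lab k v' ∧ Even (lab k v).val) →
        (L k (u, z1) (u', z2) ↔ L k (v, z1) (v', z2))) :
    ((arcs M).filter (fun p => ∀ k, ¬ (lab k p.1 = lab k p.2 ∧ Even (lab k p.1).val))).card ≤ w ^ 2 * Q ^ d := by
  set G := (arcs M).filter (fun p => ∀ k, ¬ (lab k p.1 = lab k p.2 ∧ Even (lab k p.1).val)) with hG
  have key : ∀ v v' u u' : V, (v, v') ∈ G → M.ch u = M.ch v → M.ch u' = M.ch v' → (∀ k, lab k u = lab k v) →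
      (∀ k, lab k u' = lab k v') → M.E u u' := by
    intro v v' u u' hv hcu hcu' hlu hlu'
    obtain ⟨hv1, hv2⟩ := Finset.mem_filter.1 hv
    have hE : M.E v v' := (Finset.mem_filter.1 hv1).2
    have hcv : M.ch v ≠ M.ch v' := M.ech _ _ hE
    have hvne : v ≠ v' := fun h => hcv (by rw [h])
    have hune : u ≠ u' := fun h => hcv (by rw [← hcu, ← hcu', h])
    rw [arc_iff M n z1 z2 hz v v' hvne] at hE
    rw [arc_iff M n z1 z2 hz u u' hune]
    have hzne : z1 ≠ z2 := ne_of_lt hz
    have e1 : (fun k => L k (u, z1) (u', z2)) = fun k => L k (v, z1) (v', z2) := by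
      funext k
      exact propext (hlab k u v u' v' (hlu k) (hlu' k) (hv2 k))
    have e2 : (fun k => L k (u, z2) (u', z1)) = fun k => L k (v, z2) (v', z1) := by
      funext k
      have := hL k
      have h1 : L k (u', z1) (u, z2) ↔ L k (v', z1) (v, z2) := by
        apply hlab k u' v' u v (hlu' k) (hlu k)
        rintro ⟨h2, h3⟩
        exact hv2 k ⟨h2.symm, by rw [h2] at h3; exact h3⟩
      have h2 : ∀ a b : V, a ≠ b → (L k (a, z2) (b, z1) ↔ ¬ L k (b, z1) (a, z2)) := by
        intro a b hab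
        constructor
        · intro h h'
          exact (asymm_of (L k) h) h'
        · intro h
          rcases trichotomous_of (L k) (a, z2) (b, z1) with h' | h' | h'
          · exact h'
          · exact absurd (congrArg Prod.fst h') hab
          · exact absurd h' h
      apply propext
      rw [h2 u u' hune, h2 v v' hvne, h1]
    rw [hτ _ _ (by intro h; exact hune (congrArg Prod.fst h)), hτ _ _ (by intro h; exact hune (congrArg Prod.fst h)),
      e1, e2, ← hτ _ _ (by intro h; exact hvne (congrArg Prod.fst h)), ← hτ _ _ (by intro h; exact hvne (congrArg Prod.fst h))]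
    exact hE
  have hinj : Set.InjOn (fun p : V × V => ((M.ch p.1, M.ch p.2), fun k => lab k p.1)) (G : Set (V × V)) := by
    rintro ⟨v, v'⟩ hv ⟨u, u'⟩ hu heq
    simp only [Prod.mk.injEq] at heq
    obtain ⟨⟨h1, h2⟩, h3⟩ := heq
    have hEv : M.E v v' := (Finset.mem_filter.1 (Finset.mem_filter.1 (Finset.mem_coe.1 hv)).1).2
    have hEu : M.E u u' := (Finset.mem_filter.1 (Finset.mem_filter.1 (Finset.mem_coe.1 hu)).1).2
    have h4 : M.E u v' := key v v' u v' hv h1.symm rfl (fun k => (congrFun h3 k).symm) (fun _ => rfl)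
    have h5 : v = u := M.in_uniq v' v u hEv h4 h1
    subst h5
    have h6 : v' = u' := M.out_uniq v v' u' hEv hEu h2
    rw [h6]
  have h1 := Finset.card_le_card_of_injOn (s := G) (t := (Finset.univ : Finset ((Fin w × Fin w) × (Fin d → Fin Q)))) _
    (fun _ _ => Finset.mem_univ _) hinj
  refine h1.trans (le_of_eq ?_)
  rw [Finset.card_univ, Fintype.card_prod, Fintype.card_prod, Fintype.card_fun]
  simp only [Fintype.card_fin]
  ring

/-- arcs in a common even class of one labelling -/
theorem bad_count [Fintype V] (M : MG w V) (s Q : ℕ) (lab : V → Fin Q)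
    (hsize : ∀ i : Fin Q, Even i.val → (Finset.univ.filter (fun v => lab v = i)).card ≤ s)
    (hsp : ∀ S : Finset V, S.card ≤ s → 8 * w * eIn M.E S ≤ (8 * w + 2) * S.card) :
    8 * w * ((arcs M).filter (fun p => lab p.1 = lab p.2 ∧ Even (lab p.1).val)).card ≤ (8 * w + 2) * Fintype.card V := by
  set B := (arcs M).filter (fun p => lab p.1 = lab p.2 ∧ Even (lab p.1).val) with hB
  have h1 : B.card = ∑ i : Fin Q, (B.filter (fun p => lab p.1 = i)).card :=
    Finset.card_eq_sum_card_fiberwise (f := fun p : V × V => lab p.1) (t := Finset.univ) (fun _ _ => Finset.mem_coe.2 (Finset.mem_univ _))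
  have h2 : Fintype.card V = ∑ i : Fin Q, (Finset.univ.filter (fun v => lab v = i)).card := by
    rw [← Finset.card_univ]
    exact Finset.card_eq_sum_card_fiberwise (f := lab) (t := Finset.univ) (fun _ _ => Finset.mem_coe.2 (Finset.mem_univ _))
  rw [h1, h2, Finset.mul_sum, Finset.mul_sum]
  apply Finset.sum_le_sum
  intro i _
  by_cases hi : Even i.val
  · have h3 := hsp _ (hsize i hi)
    refine le_trans (Nat.mul_le_mul_left _ (Finset.card_le_card ?_)) h3
    intro p hp
    obtain ⟨hp1, hp2⟩ := Finset.mem_filter.1 hp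
    obtain ⟨hp3, hp4, hp5⟩ := Finset.mem_filter.1 hp1
    have hE := (Finset.mem_filter.1 hp3).2
    rw [Finset.mem_filter, Finset.mem_product, Finset.mem_filter, Finset.mem_filter]
    exact ⟨⟨⟨Finset.mem_univ _, hp2⟩, ⟨Finset.mem_univ _, by rw [← hp4, hp2]⟩⟩, hE⟩
  · have h3 : B.filter (fun p => lab p.1 = i) = ∅ := by
      rw [Finset.filter_eq_empty_iff]
      intro p hp hpi
      obtain ⟨hp3, hp4, hp5⟩ := Finset.mem_filter.1 hp
      rw [hpi] at hp5
      exact hi hp5
    rw [h3]
    simp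

/-- the main inequality of the poset side -/
theorem box_main [Fintype V] (M : MG w V) (s d : ℕ) (hs : 1 ≤ s)
    (hsp : ∀ S : Finset V, S.card ≤ s → 8 * w * eIn M.E S ≤ (8 * w + 2) * S.card) :
    ∃ n0 : ℕ, 0 < n0 ∧ ∀ n : ℕ, n0 ≤ n → ∀ (L : Fin d → V × Fin n → V × Fin n → Prop) (τ : (Fin d → Prop) → Prop),
      (∀ i, IsStrictTotalOrder (V × Fin n) (L i)) →
      (∀ x y, x ≠ y → (liftLt M.lt M.E (fun _ _ => 0) n x y ↔ τ (fun i => L i x y))) →
      8 * w * eIn M.E Finset.univ ≤ (8 * w + 2) * (d * Fintype.card V) +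
        8 * w * (w ^ 2 * (2 * (Fintype.card V / s) + 2) ^ d) := by
  obtain ⟨n0, hn0, hram⟩ := ramsey3 (Fin d → V → V → Prop)
  refine ⟨n0, hn0, ?_⟩
  intro n hn L τ hL hτ
  obtain ⟨z1, z2, z3, h12, h23, e1, e2⟩ := hram n hn (fun a b k u v => L k (u, a) (v, b))
  have hR12 : ∀ k u v, L k (u, z1) (v, z2) ↔ L k (u, z2) (v, z3) := by
    intro k u v
    have := congrFun (congrFun (congrFun e1 k) u) v
    exact iff_of_eq this
  have hR13 : ∀ k u v, L k (u, z1) (v, z2) ↔ L k (u, z1) (v, z3) := by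
    intro k u v
    have := congrFun (congrFun (congrFun e2 k) u) v
    exact iff_of_eq this
  have htr : ∀ k, ∀ u v t, L k (u, z1) (v, z2) → L k (v, z1) (t, z2) → L k (u, z1) (t, z2) := by
    intro k u v t h1 h2
    have := hL k
    rw [hR12] at h2
    rw [hR13]
    exact trans_of (L k) h1 h2
  have hco : ∀ k, ∀ u v t, ¬ L k (u, z1) (v, z2) → ¬ L k (v, z1) (t, z2) → ¬ L k (u, z1) (t, z2) := by
    intro k u v t h1 h2 h3
    have := hL k
    rw [hR12] at h2
    rw [hR13] at h3
    have hz12 : z1 ≠ z2 := ne_of_lt h12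
    have hz23 : z2 ≠ z3 := ne_of_lt h23
    have h4 : L k (v, z2) (u, z1) := by
      rcases trichotomous_of (L k) (v, z2) (u, z1) with h | h | h
      · exact h
      · exact absurd (congrArg Prod.snd h) hz12.symm
      · exact absurd h h1
    have h5 : L k (t, z3) (v, z2) := by
      rcases trichotomous_of (L k) (t, z3) (v, z2) with h | h | h
      · exact h
      · exact absurd (congrArg Prod.snd h) hz23.symm
      · exact absurd h h2
    exact asymm_of (L k) (trans_of (L k) h5 h4) h3
  choose lab hsize hlab using fun k => labels (fun u v => L k (u, z1) (v, z2)) (htr k) (hco k) s hs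
  have hgood := good_count M d n _ L τ hL hτ z1 z2 h12 lab hlab
  have hbad := fun k => bad_count M s _ (lab k) (hsize k) hsp
  have hcover : arcs M ⊆ ((arcs M).filter (fun p => ∀ k, ¬ (lab k p.1 = lab k p.2 ∧ Even (lab k p.1).val))) ∪
      Finset.univ.biUnion (fun k => (arcs M).filter (fun p => lab k p.1 = lab k p.2 ∧ Even (lab k p.1).val)) := by
    intro p hp
    by_cases hc : ∀ k, ¬ (lab k p.1 = lab k p.2 ∧ Even (lab k p.1).val)
    · exact Finset.mem_union_left _ (Finset.mem_filter.2 ⟨hp, hc⟩)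
    · push Not at hc
      obtain ⟨k, hk⟩ := hc
      exact Finset.mem_union_right _ (Finset.mem_biUnion.2 ⟨k, Finset.mem_univ _, Finset.mem_filter.2 ⟨hp, hk⟩⟩)
  have hc1 := (Finset.card_le_card hcover).trans (Finset.card_union_le _ _)
  have hc2 := Finset.card_biUnion_le (s := Finset.univ)
    (t := fun k => (arcs M).filter (fun p => lab k p.1 = lab k p.2 ∧ Even (lab k p.1).val))
  rw [eIn_univ]
  have hc3 : 8 * w * ∑ k : Fin d, ((arcs M).filter (fun p => lab k p.1 = lab k p.2 ∧ Even (lab k p.1).val)).card ≤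
      (8 * w + 2) * (d * Fintype.card V) := by
    rw [Finset.mul_sum]
    refine (Finset.sum_le_card_nsmul _ _ _ (fun k _ => hbad k)).trans (le_of_eq ?_)
    rw [Finset.card_univ, Fintype.card_fin, smul_eq_mul]
    ring
  calc 8 * w * (arcs M).card ≤ 8 * w * (((arcs M).filter (fun p => ∀ k, ¬ (lab k p.1 = lab k p.2 ∧ Even (lab k p.1).val))).card +
        ∑ k : Fin d, ((arcs M).filter (fun p => lab k p.1 = lab k p.2 ∧ Even (lab k p.1).val)).card) :=
        Nat.mul_le_mul_left _ (hc1.trans (Nat.add_le_add_left hc2 _))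
    _ = 8 * w * ((arcs M).filter (fun p => ∀ k, ¬ (lab k p.1 = lab k p.2 ∧ Even (lab k p.1).val))).card +
        8 * w * ∑ k : Fin d, ((arcs M).filter (fun p => lab k p.1 = lab k p.2 ∧ Even (lab k p.1).val)).card := by ring
    _ ≤ 8 * w * (w ^ 2 * (2 * (Fintype.card V / s) + 2) ^ d) + (8 * w + 2) * (d * Fintype.card V) :=
        Nat.add_le_add (Nat.mul_le_mul_left _ hgood) hc3
    _ = _ := by ring

end Pool.Agent.BoolWidth
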