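import Mathlib

/-!
# Parameters
-/

set_option autoImplicit false

namespace Pool.Agent.BoolWidth

def pr (w q : ℕ) : ℕ := 2 * (w - 1) * (8 * w) * (32 * w * q)
def pK (w q : ℕ) : ℕ := 64 * pr w q
def pA (w q : ℕ) : ℕ := 8 * (w - 1) * (8 * w) ^ 2 * (2 + pK w q) ^ 2 * (32 * w)
def pn (w q : ℕ) : ℕ := 32 * w * (w - 1) * pA w q
def pC (w q : ℕ) : ℕ := 2 ^ (16 * w * q)
def pD (w q : ℕ) : ℕ := 8 * w * pn w q * pC w q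
def pL (w q : ℕ) : ℕ := 2 ^ ((16 * w - 1) * q)
def pM (w q : ℕ) : ℕ := 2 ^ (32 * w * q)
def pm (w q : ℕ) : ℕ := pn w q - 2 * pA w q * (w - 1)
def ps (w q : ℕ) : ℕ := 2 ^ (((16 * w - 1) * q - 1) * pm w q - 1)
def pT (w q : ℕ) : ℕ := 8 * w * (2 * pr w q + 1)
def pCb (w q : ℕ) : ℕ := (2 * pr w q + 1) ^ 2 * (2 * (w - 1)) ^ (2 * pr w q) + 1
def pV (w q : ℕ) : ℕ := w * pT w q * (pT w q * pCb w q) ^ (2 * pr w q) * pD w q ^ pn w q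

end Pool.Agent.BoolWidth
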