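import Pool.Agent.Lib_MP_0cf6e1_b.PBox
import Pool.Agent.Lib_MP_0cf6e1_b.PBool
import Pool.Agent.Lib_MP_0cf6e1_b.ExistM

/-!
# The poset and the main theorem
-/

set_option autoImplicit false

open scoped Classical

namespace Pool.Agent.BoolWidth

/-- strict order on the poset: the lift (shifts `0`) of the monotone graph below an antichain with `w` elements -/
def XLt {w : ℕ} {V : Type} (M : MG w V) (n : ℕ) : (V × Fin n) ⊕ Fin w → (V × Fin n) ⊕ Fin w → Prop
  | Sum.inl p, Sum.inl q => liftLt M.lt M.E (fun _ _ => 0) n p q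
  | Sum.inl _, Sum.inr _ => True
  | Sum.inr _, _ => False

instance xlt_strict {w : ℕ} {V : Type} (M : MG w V) (n : ℕ) : IsStrictOrder ((V × Fin n) ⊕ Fin w) (XLt M n) where
  irrefl x h := by
    rcases x with x | x
    · exact lift_irr M M.E (fun _ _ h => h) (fun _ _ => 0) n x h
    · exact h
  trans x y z hxy hyz := by
    rcases x with x | x <;> rcases y with y | y <;> rcases z with z | z
    · exact lift_tr M M.E (fun _ _ h => h) (fun _ _ => 0) n x y z hxy hyz
    · trivial
    · exact hyz.elim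
    · exact hyz.elim
    · exact hxy.elim
    · exact hxy.elim
    · exact hxy.elim
    · exact hxy.elim

/-- the poset -/
@[reducible] def xpo {w : ℕ} {V : Type} (M : MG w V) (n : ℕ) : PartialOrder ((V × Fin n) ⊕ Fin w) :=
  @partialOrderOfSO _ (XLt M n) (xlt_strict M n)

theorem xwidth {w : ℕ} {V : Type} (M : MG w V) (n : ℕ) : @HasWidth ((V × Fin n) ⊕ Fin w) (xpo M n) w := by
  let _ := xpo M n
  constructor
  · refine ⟨Finset.univ.map ⟨fun a : Fin w => (Sum.inr a : (V × Fin n) ⊕ Fin w), ?_⟩, ?_, ?_⟩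
    · intro a b hab
      exact Sum.inr.inj hab
    · intro x hx y hy hxy hle
      rw [Finset.coe_map, Set.mem_image] at hx hy
      obtain ⟨a, _, rfl⟩ := hx
      obtain ⟨b, _, rfl⟩ := hy
      rcases hle with h | h
      · exact hxy h
      · exact h
    · simp
  · intro s hs
    have hinj : Set.InjOn (fun x : (V × Fin n) ⊕ Fin w => Sum.elim (fun p : V × Fin n => M.ch p.1) id x) (s : Set _) := by
      intro x hx y hy hxy
      by_contra hne
      have key : XLt M n x y ∨ XLt M n y x := by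
        rcases x with x | x <;> rcases y with y | y
        · have h1 : M.ch x.1 = M.ch y.1 := hxy
          exact lift_chain M M.E (fun _ _ h => h) (fun _ _ => 0) n x y h1 (fun h => hne (congrArg Sum.inl h))
        · exact Or.inl trivial
        · exact Or.inr trivial
        · have h1 : x = y := hxy
          exact absurd (congrArg Sum.inr h1) hne
      rcases key with h | h
      · exact hs hx hy hne (Or.inr h)
      · exact hs hy hx (Ne.symm hne) (Or.inr h)
    calc s.card = (s.image (fun x : (V × Fin n) ⊕ Fin w => Sum.elim (fun p : V × Fin n => M.ch p.1) id x)).card :=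
          (Finset.card_image_of_injOn hinj).symm
      _ ≤ (Finset.univ : Finset (Fin w)).card := Finset.card_le_card (Finset.subset_univ _)
      _ = w := by simp

theorem restrict {w : ℕ} {V : Type} (M : MG w V) (n d : ℕ) (h : @HasBoolRealizer ((V × Fin n) ⊕ Fin w) (xpo M n) d) :
    ∃ (L : Fin d → V × Fin n → V × Fin n → Prop) (τ : (Fin d → Prop) → Prop),
      (∀ i, IsStrictTotalOrder (V × Fin n) (L i)) ∧
      (∀ x y, x ≠ y → (liftLt M.lt M.E (fun _ _ => 0) n x y ↔ τ (fun i => L i x y))) := by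
  obtain ⟨L, τ, hL, hτ⟩ := h
  refine ⟨fun i x y => L i (Sum.inl x) (Sum.inl y), τ, ?_, ?_⟩
  · intro i
    have := hL i
    refine { trichotomous := ?_, irrefl := ?_, trans := ?_ }
    · intro x y hxy hyx
      rcases trichotomous_of (L i) (Sum.inl x) (Sum.inl y) with h | h | h
      · exact absurd h hxy
      · exact Sum.inl.inj h
      · exact absurd h hyx
    · intro x h
      exact irrefl_of (L i) _ h
    · intro x y z h1 h2
      exact trans_of (L i) h1 h2
  · intro x y hxy
    have h1 := hτ (Sum.inl x) (Sum.inl y) (fun h => hxy (Sum.inl.inj h))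
    rw [← h1]
    exact Iff.rfl

theorem large_case (w : ℕ) (hw : 3 ≤ w) : ∃ (X : Type) (_ : Fintype X) (_ : PartialOrder X), HasWidth X w ∧
    ∀ d : ℕ, HasBoolRealizer X d → w ≤ d + 1 := by
  obtain ⟨V, fV, M, s, hs, hN, harcs, hsp, hfin⟩ := exist_mg w hw
  choose n0 hn0 hbox using fun d => box_main M s d hs hsp
  set n := (Finset.range w).sup n0 with hn
  refine ⟨(V × Fin n) ⊕ Fin w, inferInstance, xpo M n, xwidth M n, ?_⟩
  intro d hd
  by_contra hcon
  have hdw : d ≤ w - 2 := by omega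
  have hdn : n0 d ≤ n := Finset.le_sup (f := n0) (Finset.mem_range.2 (by omega))
  obtain ⟨L, τ, hL, hτ⟩ := restrict M n d hd
  have h1 := hbox d n hdn L τ hL hτ
  have h2 : (2 * (Fintype.card V / s) + 2) ^ d ≤ (2 * (Fintype.card V / s) + 2) ^ (w - 2) :=
    Nat.pow_le_pow_right (by omega) hdw
  set P := (2 * (Fintype.card V / s) + 2) ^ (w - 2) with hP
  set N := Fintype.card V with hNdef
  set e := eIn M.E Finset.univ with he
  obtain ⟨k, rfl⟩ : ∃ k, w = k + 3 := ⟨w - 3, by omega⟩
  have e1 : 4 * (k + 3) - 5 = 4 * k + 7 := by omega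
  rw [e1] at harcs
  have h3 : 8 * (k + 3) * ((k + 3) ^ 2 * (2 * (N / s) + 2) ^ d) ≤ 8 * (k + 3) ^ 3 * P := by
    calc 8 * (k + 3) * ((k + 3) ^ 2 * (2 * (N / s) + 2) ^ d) ≤ 8 * (k + 3) * ((k + 3) ^ 2 * P) :=
          Nat.mul_le_mul_left _ (Nat.mul_le_mul_left _ h2)
      _ = _ := by ring
  have h4 : 2 * (k + 3) * ((4 * k + 7) * N) ≤ 8 * (k + 3) * e := by
    calc 2 * (k + 3) * ((4 * k + 7) * N) ≤ 2 * (k + 3) * (4 * e) := Nat.mul_le_mul_left _ harcs
      _ = _ := by ring
  have h5 : (8 * (k + 3) + 2) * (d * N) ≤ (8 * (k + 3) + 2) * ((k + 1) * N) := by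
    apply Nat.mul_le_mul_left
    apply Nat.mul_le_mul_right
    omega
  nlinarith

/-- the poset of `2 w` elements with two levels -/
def SLt (w : ℕ) (x y : Fin 2 × Fin w) : Prop := x.1 < y.1

instance slt_strict (w : ℕ) : IsStrictOrder (Fin 2 × Fin w) (SLt w) where
  irrefl _ h := lt_irrefl _ h
  trans _ _ _ hxy hyz := lt_trans hxy hyz

@[reducible] def spo (w : ℕ) : PartialOrder (Fin 2 × Fin w) := @partialOrderOfSO _ (SLt w) (slt_strict w)

theorem small_case (w : ℕ) (hw : 1 ≤ w) (hw2 : w ≤ 2) : ∃ (X : Type) (_ : Fintype X) (_ : PartialOrder X), HasWidth X w ∧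
    ∀ d : ℕ, HasBoolRealizer X d → w ≤ d + 1 := by
  refine ⟨Fin 2 × Fin w, inferInstance, spo w, ?_, ?_⟩
  · let _ := spo w
    constructor
    · refine ⟨Finset.univ.map ⟨fun a : Fin w => ((0 : Fin 2), a), ?_⟩, ?_, ?_⟩
      · intro a b hab
        exact congrArg Prod.snd hab
      · intro x hx y hy hxy hle
        rw [Finset.coe_map, Set.mem_image] at hx hy
        obtain ⟨a, _, rfl⟩ := hx
        obtain ⟨b, _, rfl⟩ := hy
        rcases hle with h | h
        · exact hxy h
        · exact lt_irrefl _ h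
      · simp
    · intro s hs
      have hinj : Set.InjOn (fun x : Fin 2 × Fin w => x.2) (s : Set _) := by
        intro x hx y hy hxy
        by_contra hne
        have h1 : x.1 ≠ y.1 := fun h => hne (Prod.ext h hxy)
        rcases lt_or_gt_of_ne h1 with h | h
        · exact hs hx hy hne (Or.inr h)
        · exact hs hy hx (Ne.symm hne) (Or.inr h)
      calc s.card = (s.image (fun x : Fin 2 × Fin w => x.2)).card := (Finset.card_image_of_injOn hinj).symm
        _ ≤ (Finset.univ : Finset (Fin w)).card := Finset.card_le_card (Finset.subset_univ _)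
        _ = w := by simp
  · intro d hd
    by_contra hcon
    have hd0 : d = 0 := by omega
    subst hd0
    obtain ⟨L, τ, hL, hτ⟩ := hd
    let _ := spo w
    have hw0 : 0 < w := hw
    have hne : ((0 : Fin 2), (⟨0, hw0⟩ : Fin w)) ≠ ((1 : Fin 2), ⟨0, hw0⟩) := by
      intro h
      have h0 : (0 : Fin 2) = 1 := congrArg Prod.fst h
      exact absurd h0 (by decide)
    have h1 := hτ ((0 : Fin 2), (⟨0, hw0⟩ : Fin w)) ((1 : Fin 2), ⟨0, hw0⟩) hne
    have h2 := hτ ((1 : Fin 2), (⟨0, hw0⟩ : Fin w)) ((0 : Fin 2), ⟨0, hw0⟩) hne.symm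
    have e1 : (fun i : Fin 0 => L i ((0 : Fin 2), (⟨0, hw0⟩ : Fin w)) ((1 : Fin 2), ⟨0, hw0⟩)) =
        fun i : Fin 0 => L i ((1 : Fin 2), (⟨0, hw0⟩ : Fin w)) ((0 : Fin 2), ⟨0, hw0⟩) := by
      funext i
      exact i.elim0
    rw [e1, ← h2] at h1
    have h3 : SLt w ((0 : Fin 2), (⟨0, hw0⟩ : Fin w)) ((1 : Fin 2), ⟨0, hw0⟩) := by
      change (0 : Fin 2) < 1
      decide
    have h4 : SLt w ((1 : Fin 2), (⟨0, hw0⟩ : Fin w)) ((0 : Fin 2), ⟨0, hw0⟩) := h1.1 h3
    have h5 : (1 : Fin 2) < 0 := h4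
    exact absurd h5 (by decide)

/-- **Main theorem.** For every `w ≥ 1` there is a finite poset of width `w` all of whose Boolean realizers have size at least `w - 1`. -/
theorem main (w : ℕ) (hw : 1 ≤ w) : ∃ (X : Type) (_ : Fintype X) (_ : PartialOrder X), HasWidth X w ∧
    ∀ d : ℕ, HasBoolRealizer X d → w ≤ d + 1 := by
  rcases Nat.lt_or_ge w 3 with h | h
  · exact small_case w hw (by omega)
  · exact large_case w h

end Pool.Agent.BoolWidth
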