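import Pool.Agent.Lib_MP_0cf6e1_b.Hel
import Pool.Agent.Lib_MP_0cf6e1_b.OvlA

/-!
# Piece PHIL: the potential loses the square of the total variation distance
-/

set_option autoImplicit false

open scoped Classical

namespace Pool.Agent.BoolWidth

variable {V : Type} [Fintype V] {D : ℕ} {a : V × Fin D → ℝ}

theorem phi_lift (E : V → V → Prop) (t : V → V → ℕ) (a : V × Fin D → ℝ) :
    Phi (liftE E t D) a =
      ∑ u, ∑ v, if E u v then bhat (t u v) (fun x => a (u, x)) (fun y => a (v, y)) else 0 := by
  unfold Phi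
  rw [Fintype.sum_prod_type]
  apply Finset.sum_congr rfl
  intro u _
  have h1 : ∀ x : Fin D, ∑ q : V × Fin D, (if liftE E t D (u, x) q then √(a (u, x) * a q) else 0) =
      ∑ v, ∑ y : Fin D, (if liftE E t D (u, x) (v, y) then √(a (u, x) * a (v, y)) else 0) := by
    intro x
    rw [Fintype.sum_prod_type]
  rw [Finset.sum_congr rfl fun x _ => h1 x, Finset.sum_comm]
  apply Finset.sum_congr rfl
  intro v _
  by_cases h : E u v
  · rw [if_pos h]
    unfold bhat
    refine Finset.sum_congr rfl fun x _ => Finset.sum_congr rfl fun y _ => ?_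
    by_cases h2 : (x : ℕ) + t u v = (y : ℕ)
    · have h3 : liftE E t D (u, x) (v, y) := ⟨h, h2⟩
      rw [if_pos h3, if_pos h2]
    · have h3 : ¬ liftE E t D (u, x) (v, y) := fun h3 => h2 h3.2
      rw [if_neg h3, if_neg h2]
  · rw [if_neg h]
    refine Finset.sum_eq_zero fun x _ => Finset.sum_eq_zero fun y _ => ?_
    have h3 : ¬ liftE E t D (u, x) (v, y) := fun h3 => h h3.1
    rw [if_neg h3]

private theorem phil_pair (k : ℕ) (F : Fin D → Fin D → ℝ) :
    ∑ i ∈ (Finset.univ : Finset (Fin D × Fin D)).filter (fun i => (i.1 : ℕ) + k = (i.2 : ℕ)), F i.1 i.2 =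
      ∑ x : Fin D, ∑ y : Fin D, if (x : ℕ) + k = (y : ℕ) then F x y else 0 := by
  rw [Finset.sum_filter, Fintype.sum_prod_type]

/-- `hel` with the index set of the matched pairs; if `push a u = 0` or `push a v = 0` both sides are `0` -/
theorem dd_sq (ha : ∀ p, 0 ≤ a p) (t : V → V → ℕ) (u v : V) :
    (dd a t u v) ^ 2 ≤ 2 * √(push a u * push a v) *
      (√(push a u * push a v) - bhat (t u v) (fun x => a (u, x)) (fun y => a (v, y))) := by
  have hu := push_nonneg ha u
  have hv := push_nonneg ha v
  rcases hu.eq_or_lt with h | h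
  · unfold dd
    rw [← h, min_eq_left hv, zero_mul, zero_mul, Real.sqrt_zero]
    simp
  rcases hv.eq_or_lt with h' | h'
  · unfold dd
    rw [← h', min_eq_right hu, zero_mul, mul_zero, Real.sqrt_zero]
    simp
  have h1 := hel ((Finset.univ : Finset (Fin D × Fin D)).filter (fun i => (i.1 : ℕ) + t u v = (i.2 : ℕ)))
    (fun i => a (u, i.1)) (fun i => a (v, i.2)) (fun i _ => ha _) (fun i _ => ha _)
    (push a u) (push a v) h h'
    (by
      rw [phil_pair (t u v) (fun x _ => a (u, x))]
      unfold push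
      exact Finset.sum_le_sum fun x _ =>
        ovlA_row (t u v) x (fun _ => a (u, x)) (a (u, x)) (ha _) fun _ => le_rfl)
    (by
      rw [phil_pair (t u v) (fun _ y => a (v, y)), Finset.sum_comm]
      unfold push
      exact Finset.sum_le_sum fun y _ =>
        ovlA_col (t u v) y (fun _ => a (v, y)) (a (v, y)) (ha _) fun _ => le_rfl)
  rw [phil_pair (t u v) (fun x y => min (a (u, x) / push a u) (a (v, y) / push a v)),
    phil_pair (t u v) (fun x y => √(a (u, x) * a (v, y)))] at h1
  unfold dd ovl bhat mu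
  exact h1

/-- `√(a p a q) ≤ (a p + a q) / 2` and every vertex is in at most `2 d` arcs -/
theorem phi_le {W : Type} [Fintype W] (E : W → W → Prop) (d : ℕ) (hd : DegLE E d) (b : W → ℝ) (hb : ∀ p, 0 ≤ b p) :
    Phi E b ≤ d * ∑ p, b p := by
  have h1 : Phi E b ≤ ∑ p, ∑ q, ((if E p q then b p / 2 else 0) + (if E p q then b q / 2 else 0)) := by
    unfold Phi
    refine Finset.sum_le_sum fun p _ => Finset.sum_le_sum fun q _ => ?_
    by_cases h : E p q
    · rw [if_pos h, if_pos h, if_pos h]
      rw [Real.sqrt_le_left (by linarith [hb p, hb q])]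
      nlinarith [sq_nonneg (b p - b q)]
    · rw [if_neg h, if_neg h, if_neg h, add_zero]
  have h2 : ∑ p, ∑ q, (if E p q then b p / 2 else 0) ≤ ∑ p, d * (b p / 2) := by
    refine Finset.sum_le_sum fun p _ => ?_
    rw [← Finset.sum_filter, Finset.sum_const, nsmul_eq_mul]
    apply mul_le_mul_of_nonneg_right _ (by linarith [hb p])
    have h := hd.1 p (Finset.univ.filter fun q => E p q) (by
      intro q hq
      exact (Finset.mem_filter.mp hq).2)
    exact_mod_cast h
  have h3 : ∑ p, ∑ q, (if E p q then b q / 2 else 0) ≤ ∑ p, d * (b p / 2) := by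
    rw [Finset.sum_comm]
    refine Finset.sum_le_sum fun q _ => ?_
    rw [← Finset.sum_filter, Finset.sum_const, nsmul_eq_mul]
    apply mul_le_mul_of_nonneg_right _ (by linarith [hb q])
    have h := hd.2 q (Finset.univ.filter fun p => E p q) (by
      intro p hp
      exact (Finset.mem_filter.mp hp).2)
    exact_mod_cast h
  have h4 : ∑ p, ∑ q, ((if E p q then b p / 2 else 0) + (if E p q then b q / 2 else 0)) =
      ∑ p, ∑ q, (if E p q then b p / 2 else 0) + ∑ p, ∑ q, (if E p q then b q / 2 else 0) := by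
    rw [← Finset.sum_add_distrib]
    refine Finset.sum_congr rfl fun p _ => ?_
    rw [← Finset.sum_add_distrib]
  have h5 : ∑ p, (d : ℝ) * (b p / 2) + ∑ p, (d : ℝ) * (b p / 2) = d * ∑ p, b p := by
    rw [← Finset.sum_add_distrib, Finset.mul_sum]
    refine Finset.sum_congr rfl fun p _ => ?_
    ring
  linarith

theorem phi_nonneg {W : Type} [Fintype W] (E : W → W → Prop) (b : W → ℝ) : 0 ≤ Phi E b := by
  unfold Phi
  refine Finset.sum_nonneg fun p _ => Finset.sum_nonneg fun q _ => ?_
  split_ifs
  · exact Real.sqrt_nonneg _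
  · exact le_rfl

private theorem phil_bhat_le (ha : ∀ p, 0 ≤ a p) (t : V → V → ℕ) (u v : V) :
    bhat (t u v) (fun x => a (u, x)) (fun y => a (v, y)) ≤ √(push a u * push a v) := by
  have hu := push_nonneg ha u
  have hv := push_nonneg ha v
  rcases hu.eq_or_lt with h | h
  · have h1 : bhat (t u v) (fun x => a (u, x)) (fun y => a (v, y)) = 0 := by
      unfold bhat
      refine Finset.sum_eq_zero fun x _ => Finset.sum_eq_zero fun y _ => ?_
      have h2 := mu_mul ha u x
      rw [← h, zero_mul] at h2
      simp [← h2]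
    rw [h1]
    exact Real.sqrt_nonneg _
  rcases hv.eq_or_lt with h' | h'
  · have h1 : bhat (t u v) (fun x => a (u, x)) (fun y => a (v, y)) = 0 := by
      unfold bhat
      refine Finset.sum_eq_zero fun x _ => Finset.sum_eq_zero fun y _ => ?_
      have h2 := mu_mul ha v y
      rw [← h', zero_mul] at h2
      simp [← h2]
    rw [h1]
    exact Real.sqrt_nonneg _
  have h1 := dd_sq ha t u v
  have h2 : 0 < √(push a u * push a v) := Real.sqrt_pos.mpr (mul_pos h h')
  have h3 : 0 ≤ 2 * √(push a u * push a v) *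
      (√(push a u * push a v) - bhat (t u v) (fun x => a (u, x)) (fun y => a (v, y))) :=
    le_trans (sq_nonneg _) h1
  have h4 := nonneg_of_mul_nonneg_right h3 (by linarith)
  linarith

theorem phi_mono (E : V → V → Prop) (t : V → V → ℕ) (ha : ∀ p, 0 ≤ a p) :
    Phi (liftE E t D) a ≤ Phi E (push a) := by
  rw [phi_lift]
  unfold Phi
  refine Finset.sum_le_sum fun u _ => Finset.sum_le_sum fun v _ => ?_
  split_ifs
  · exact phil_bhat_le ha t u v
  · exact le_rfl

/-- Cauchy-Schwarz: `dd ≤ √(2 √(α β)) √h` with `∑ √(α β) = Phi E (push a) ≤ d ∑ a`, `∑ h = Phi E (push a) - Phi (liftE E t D) a` -/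
theorem DD_sq (E : V → V → Prop) (d : ℕ) (hd : DegLE E d) (t : V → V → ℕ) (ha : ∀ p, 0 ≤ a p) :
    (DD E t a) ^ 2 ≤ 2 * (d * ∑ p, a p) * (Phi E (push a) - Phi (liftE E t D) a) := by
  have h0 : ∀ F : V → V → ℝ, ∑ u, ∑ v, F u v = ∑ p : V × V, F p.1 p.2 := by
    intro F
    rw [Fintype.sum_prod_type]
  have h1 : (∑ p : V × V, (if E p.1 p.2 then dd a t p.1 p.2 else 0)) ^ 2 ≤
      (∑ p : V × V, (if E p.1 p.2 then 2 * √(push a p.1 * push a p.2) else 0)) *
        ∑ p : V × V, (if E p.1 p.2 then (√(push a p.1 * push a p.2) -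
          bhat (t p.1 p.2) (fun x => a (p.1, x)) (fun y => a (p.2, y))) else 0) := by
    apply Finset.sum_sq_le_sum_mul_sum_of_sq_le_mul
    · intro p _
      split_ifs
      · exact mul_nonneg zero_le_two (Real.sqrt_nonneg _)
      · exact le_rfl
    · intro p _
      split_ifs
      · have h := phil_bhat_le ha t p.1 p.2
        linarith
      · exact le_rfl
    · intro p _
      split_ifs
      · exact dd_sq ha t p.1 p.2
      · norm_num
  have h2 : ∑ p : V × V, (if E p.1 p.2 then 2 * √(push a p.1 * push a p.2) else 0) = 2 * Phi E (push a) := by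
    rw [← h0 (fun u v => if E u v then 2 * √(push a u * push a v) else 0)]
    unfold Phi
    rw [Finset.mul_sum]
    refine Finset.sum_congr rfl fun u _ => ?_
    rw [Finset.mul_sum]
    refine Finset.sum_congr rfl fun v _ => ?_
    rw [mul_ite, mul_zero]
  have h3 : ∑ p : V × V, (if E p.1 p.2 then (√(push a p.1 * push a p.2) -
          bhat (t p.1 p.2) (fun x => a (p.1, x)) (fun y => a (p.2, y))) else 0) =
      Phi E (push a) - Phi (liftE E t D) a := by
    rw [← h0 (fun u v => if E u v then (√(push a u * push a v) -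
          bhat (t u v) (fun x => a (u, x)) (fun y => a (v, y))) else 0), phi_lift]
    unfold Phi
    rw [← Finset.sum_sub_distrib]
    refine Finset.sum_congr rfl fun u _ => ?_
    rw [← Finset.sum_sub_distrib]
    refine Finset.sum_congr rfl fun v _ => ?_
    split_ifs
    · rfl
    · rw [sub_zero]
  have h4 : Phi E (push a) ≤ d * ∑ p, a p := by
    have h := phi_le E d hd (push a) (fun u => push_nonneg ha u)
    rw [sum_push] at h
    exact h
  have h5 := phi_mono E t ha
  unfold DD
  rw [h0 (fun u v => if E u v then dd a t u v else 0)]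
  refine le_trans h1 ?_
  rw [h2, h3]
  apply mul_le_mul_of_nonneg_right _ (by linarith)
  linarith

end Pool.Agent.BoolWidth
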