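import Pool.Agent.Lib_MP_0cf6e1_b.CritP
import Pool.Agent.Lib_MP_0cf6e1_b.Grow
import Pool.Agent.Lib_MP_0cf6e1_b.CountT
import Pool.Agent.Lib_MP_0cf6e1_b.CWalk

/-!
# Piece RAND: existence of good shifts
-/

set_option autoImplicit false

open scoped Classical

namespace Pool.Agent.BoolWidth

variable {V : Type} [Fintype V]

/-- the admissible pairs (critical set, its arcs) -/
def randP (E : V → V → Prop) (B M r0 : ℕ) (q : Finset V × Finset (V × V)) : Prop :=
  (∀ p ∈ q.2, E p.1 p.2 ∧ p.1 ∈ q.1 ∧ p.2 ∈ q.1) ∧ (B + 1) * q.1.card ≤ B * q.2.card ∧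
    (∀ z ∈ q.1, M ≤ (ball (fun u v => (u, v) ∈ q.2) q.1 {z} r0).card) ∧
    (∃ l : List V, l.IsChain (Adj E) ∧ l.toFinset = q.1 ∧ l.length = 2 * q.1.card - 1) ∧ q.1.Nonempty

theorem ball_congr {V : Type} (A A' : V → V → Prop) (W : Finset V)
    (h : ∀ u ∈ W, ∀ v ∈ W, (A u v ↔ A' u v)) (Z : Finset V) (hZ : Z ⊆ W) (r : ℕ) :
    ball A W Z r = ball A' W Z r := by
  induction r with
  | zero => rfl
  | succ r ih =>
    have h1 : ball A W Z (r + 1) = ball A W Z r ∪ W.filter (fun u => ∃ v ∈ ball A W Z r, Adj A u v) := rfl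
    have h2 : ball A' W Z (r + 1) = ball A' W Z r ∪ W.filter (fun u => ∃ v ∈ ball A' W Z r, Adj A' u v) := rfl
    rw [h1, h2, ← ih]
    congr 1
    apply Finset.filter_congr
    intro u hu
    constructor
    · rintro ⟨v, hv, hv2⟩
      have hvW : v ∈ W := ball_subset A W Z hZ r hv
      exact ⟨v, hv, by rcases hv2 with h3 | h3; exact Or.inl ((h u hu v hvW).1 h3); exact Or.inr ((h v hvW u hu).1 h3)⟩
    · rintro ⟨v, hv, hv2⟩
      have hvW : v ∈ W := ball_subset A W Z hZ r hv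
      exact ⟨v, hv, by rcases hv2 with h3 | h3; exact Or.inl ((h u hu v hvW).2 h3); exact Or.inr ((h v hvW u hu).2 h3)⟩

theorem rand_exists (E : V → V → Prop) (d C D L K B M r0 : ℕ) (ha : Asym E) (hd1 : 1 ≤ d) (hd : DegLE E d) (hB : 1 ≤ B)
    (hg : Gir E (2 * r0)) (hgrow : M * (2 * d * B) ^ r0 ≤ (2 * d * B + 1) ^ r0)
    (f : V × V → Fin C) (hf : ¬ NoBad E (tt f) D L K B) :
    ∃ q : Finset V × Finset (V × V), randP E B M r0 q ∧ f ∈ BadT C D L K q.1 q.2 := by
  unfold NoBad at hf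
  push Not at hf
  obtain ⟨W0, F, hF, hlt⟩ := hf
  obtain ⟨W, hW0, hcrit⟩ := exists_crit _ W0 B hlt
  set Q : V → V → Prop := fun u v => E u v ∧ Good (tt f) F K u v with hQ
  set A : Finset (V × V) := (W ×ˢ W).filter (fun p => Q p.1 p.2) with hA
  have hmem : ∀ p : V × V, p ∈ A ↔ (p.1 ∈ W ∧ p.2 ∈ W) ∧ Q p.1 p.2 := by
    intro p
    rw [hA, Finset.mem_filter, Finset.mem_product]
  refine ⟨(W, A), ⟨?_, ?_, ?_, ?_, hcrit.1⟩, ?_⟩
  · intro p hp
    have := (hmem p).1 hp
    exact ⟨this.2.1, this.1.1, this.1.2⟩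
  · have h1 := hcrit.2.1 W (Finset.Subset.refl _)
    have h2 : eIn Q W = A.card := by
      unfold eIn
      rw [hA]
      congr
    have h3 : eIn Q (W \ W) = 0 := by
      unfold eIn
      simp
    rw [h3, h2] at h1
    simpa using h1
  · intro z hz
    have hb := ball_large (fun u v (h : Q u v) => h.1) ha d hd r0 hg W B hB hcrit z hz r0 le_rfl
    have hpos : 0 < (2 * d * B) ^ r0 := by positivity
    have h2 : ball (fun u v => (u, v) ∈ A) W {z} r0 = ball Q W {z} r0 := by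
      apply ball_congr
      · intro u hu v hv
        rw [hmem]
        exact ⟨fun h => h.2, fun h => ⟨⟨hu, hv⟩, h⟩⟩
      · simpa using hz
    change M ≤ (ball (fun u v => (u, v) ∈ A) W {z} r0).card
    rw [h2]
    have h3 : M * (2 * d * B) ^ r0 ≤ (ball Q W {z} r0).card * (2 * d * B) ^ r0 := by
      calc M * (2 * d * B) ^ r0 ≤ (2 * d * B + 1) ^ r0 := hgrow
        _ ≤ _ := hb
        _ = _ := Nat.mul_comm _ _
    exact Nat.le_of_mul_le_mul_right h3 hpos
  · obtain ⟨l, hl1, hl2, hl3⟩ := conn_list Q W hcrit.1 hcrit.2.2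
    refine ⟨l, ?_, hl2, hl3⟩
    exact List.IsChain.imp (fun u v (h : Adj Q u v) => by
      rcases h with h | h
      · exact Or.inl h.1
      · exact Or.inr h.1) hl1
  · unfold BadT
    rw [Finset.mem_filter]
    refine ⟨Finset.mem_univ _, F, fun u hu => hF u (hW0 hu), ?_⟩
    intro p hp
    exact ((hmem p).1 hp).2.2

omit [Fintype V] in
theorem arcs_card (E : V → V → Prop) (d : ℕ) (hd : DegLE E d) (W : Finset V) :
    ((W ×ˢ W).filter (fun p => E p.1 p.2)).card ≤ d * W.card := by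
  have h1 : (W ×ˢ W).filter (fun p => E p.1 p.2) =
      W.biUnion (fun u => (W.filter (fun v => E u v)).image (fun v => (u, v))) := by
    ext ⟨a, b⟩
    simp only [Finset.mem_filter, Finset.mem_product, Finset.mem_biUnion, Finset.mem_image, Prod.mk.injEq]
    constructor
    · rintro ⟨⟨h1, h2⟩, h3⟩
      exact ⟨a, h1, b, ⟨h2, h3⟩, rfl, rfl⟩
    · rintro ⟨u, hu, v, ⟨hv, huv⟩, rfl, rfl⟩
      exact ⟨⟨hu, hv⟩, huv⟩
  rw [h1]
  refine Finset.card_biUnion_le.trans ?_
  rw [Nat.mul_comm, ← smul_eq_mul]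
  apply Finset.sum_le_card_nsmul
  intro u _
  refine Finset.card_image_le.trans ?_
  exact hd.1 u _ (fun v hv => (Finset.mem_filter.1 hv).2)

theorem rand_count (E : V → V → Prop) (d B M r0 : ℕ) (hd1 : 1 ≤ d) (hd : DegLE E d) (m : ℕ) (hm : 1 ≤ m) :
    ((Finset.univ : Finset (Finset V × Finset (V × V))).filter
      (fun q => randP E B M r0 q ∧ q.1.card = m)).card ≤ Fintype.card V * (2 * d) ^ (2 * m) * 2 ^ (d * m) := by
  set S := (Finset.univ : Finset (Finset V)).filter (fun W => ∃ l : List V, l.IsChain (Adj E) ∧ l.toFinset = W ∧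
      l.length = 2 * m - 1) with hS
  have h1 : (Finset.univ : Finset (Finset V × Finset (V × V))).filter
      (fun q => randP E B M r0 q ∧ q.1.card = m) ⊆
      (S.filter (fun W => W.card = m)).biUnion (fun W => (((W ×ˢ W).filter (fun p => E p.1 p.2)).powerset).image (fun A => (W, A))) := by
    rintro ⟨W, A⟩ hq
    rw [Finset.mem_filter] at hq
    obtain ⟨-, ⟨h1, h2, h3, ⟨l, hl1, hl2, hl3⟩, h5⟩, h6⟩ := hq
    rw [Finset.mem_biUnion]
    refine ⟨W, ?_, ?_⟩
    · rw [Finset.mem_filter, hS, Finset.mem_filter]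
      refine ⟨⟨Finset.mem_univ _, l, hl1, hl2, ?_⟩, h6⟩
      rw [hl3]
      change 2 * W.card - 1 = 2 * m - 1
      change W.card = m at h6
      rw [h6]
    · rw [Finset.mem_image]
      refine ⟨A, ?_, rfl⟩
      rw [Finset.mem_powerset]
      intro p hp
      have := h1 p hp
      rw [Finset.mem_filter, Finset.mem_product]
      exact ⟨this.2, this.1⟩
  refine (Finset.card_le_card h1).trans (Finset.card_biUnion_le.trans ?_)
  have h2 : ∀ W ∈ S.filter (fun W => W.card = m),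
      ((((W ×ˢ W).filter (fun p => E p.1 p.2)).powerset).image (fun A => (W, A))).card ≤ 2 ^ (d * m) := by
    intro W hW
    refine Finset.card_image_le.trans ?_
    rw [Finset.card_powerset]
    apply Nat.pow_le_pow_right (by norm_num)
    have := arcs_card E d hd W
    rwa [(Finset.mem_filter.1 hW).2] at this
  refine (Finset.sum_le_card_nsmul _ _ _ h2).trans ?_
  rw [smul_eq_mul]
  apply Nat.mul_le_mul_right
  exact (Finset.card_le_card (Finset.filter_subset _ _)).trans (count_conn E d hd1 hd m hm)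

theorem geo_half (M n : ℕ) : ∑ m ∈ Finset.Ico M (M + n), ((1 : ℝ) / 2) ^ m ≤ 2 * (1 / 2) ^ M - 2 * (1 / 2) ^ (M + n) := by
  induction n with
  | zero => simp
  | succ n ih =>
    rw [show M + (n + 1) = (M + n) + 1 by ring, Finset.sum_Ico_succ_top (by omega)]
    have : ((1 : ℝ) / 2) ^ (M + n + 1) = (1 / 2) ^ (M + n) / 2 := by
      rw [pow_succ]; ring
    rw [this]
    linarith

/-- Let `f : V × V → Fin C`, `t = tt f`, and suppose `NoBad` fails for every `f`: there are `W0, F` with `(B+1) |W0| < B e(W0)` for the relation `Q u v := E u v ∧ Good t F K u v`, so `W ⊆ W0` with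
`Crit Q W B` (`exists_crit`), `A` = set of the arcs of `Q` inside `W`. By `ball_large` with `r = r0` and `hgrow`, `M ≤ |ball|` (for `Q`, and the ball for `(u,v) ∈ A` is the same). So `f ∈ BadT W A`, and `(W, A)` is in the finite family `H` of
the pairs with `W` coming from a chain list (`conn_list`; for `Adj Q` hence for `Adj E`), `A ⊆ {arcs of E inside W}`, `M ≤ |W|` (balls lie in `W`) and the hypotheses of `count_t`. For given `W` with `|W| = m` there are at most `2^(d m)` sets `A` (at most `d m` arcs of `E` inside `W`).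
So `C^(|V|^2) ≤ ∑_{H} |BadT| ≤ ∑_{m ≥ M} |V| (2d)^(2m) 2^(dm) 2^(m - y m) C^(|V|^2) ≤ C^(|V|^2) ∑_{m ≥ M} |V| 2^(-m) < C^(|V|^2)`. Here `(2d)^2 2^d 4 ≤ 2^y` and `|V| < 2^(M-1)`. (multiply by powers of 2 to avoid division, or work in ℝ) -/
theorem rand (E : V → V → Prop) (d C D L K B M r0 s y : ℕ) (ha : Asym E) (hd1 : 1 ≤ d) (hd : DegLE E d) (hB : 1 ≤ B)
    (hg : Gir E (2 * r0)) (hgrow : M * (2 * d * B) ^ r0 ≤ (2 * d * B + 1) ^ r0) (hM : 1 ≤ M) (hC : 0 < C) (hL : 1 ≤ L) (hK : 32 ≤ K)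
    (hK2 : 32 * r0 ≤ K) (hDL : (D + 1) ^ L ≤ 2 ^ M) (hs : 2 ^ s * (2 * L) ≤ C) (hy : B * y ≤ s)
    (hy2 : (2 * d) ^ 2 * 2 ^ d * 4 ≤ 2 ^ y) (hV : Fintype.card V < 2 ^ (M - 1)) :
    ∃ t : V → V → ℕ, (∀ u v, t u v < C) ∧ NoBad E t D L K B := by
  by_contra hcon
  push Not at hcon
  set N := Fintype.card (V × V) with hN
  have hex : ∀ f : V × V → Fin C, ∃ q : Finset V × Finset (V × V), randP E B M r0 q ∧ f ∈ BadT C D L K q.1 q.2 := by
    intro f
    apply rand_exists E d C D L K B M r0 ha hd1 hd hB hg hgrow f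
    apply hcon
    intro u v
    exact (f (u, v)).2
  set H := (Finset.univ : Finset (Finset V × Finset (V × V))).filter (fun q => randP E B M r0 q) with hH
  have hcover : (Finset.univ : Finset (V × V → Fin C)) ⊆ H.biUnion (fun q => BadT C D L K q.1 q.2) := by
    intro f _
    obtain ⟨q, hq1, hq2⟩ := hex f
    rw [Finset.mem_biUnion]
    exact ⟨q, by rw [hH, Finset.mem_filter]; exact ⟨Finset.mem_univ _, hq1⟩, hq2⟩
  have hcard : (C : ℝ) ^ N ≤ ∑ q ∈ H, ((BadT C D L K q.1 q.2).card : ℝ) := by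
    have h1 := (Finset.card_le_card hcover).trans Finset.card_biUnion_le
    rw [Finset.card_univ, Fintype.card_fun, Fintype.card_fin] at h1
    calc (C : ℝ) ^ N = ((C ^ Fintype.card (V × V) : ℕ) : ℝ) := by push_cast; rfl
      _ ≤ ((∑ q ∈ H, (BadT C D L K q.1 q.2).card : ℕ) : ℝ) := by exact_mod_cast h1
      _ = _ := by push_cast; rfl
  have hbad : ∀ q ∈ H, ((BadT C D L K q.1 q.2).card : ℝ) ≤ (C : ℝ) ^ N * (2 ^ q.1.card / 2 ^ (y * q.1.card)) := by
    intro q hq
    obtain ⟨-, h1, h2, h3, h4, h5⟩ := Finset.mem_filter.1 hq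
    have h6 := count_t C D L K B M r0 s y hC hL hK hK2 hDL hs hy q.1 q.2 (fun p hp => (h1 p hp).2)
      (fun u v huv hvu => ha u v (h1 _ huv).1 (h1 _ hvu).1) h2 h3
    have h7 : ((BadT C D L K q.1 q.2).card : ℝ) * 2 ^ (y * q.1.card) ≤ 2 ^ q.1.card * (C : ℝ) ^ N := by
      exact_mod_cast h6
    rw [mul_div_assoc', le_div_iff₀ (by positivity)]
    linarith
  have hMle : ∀ q ∈ H, M ≤ q.1.card := by
    intro q hq
    obtain ⟨-, h1, h2, h3, h4, ⟨z, hz⟩⟩ := Finset.mem_filter.1 hq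
    refine (h3 z hz).trans (Finset.card_le_card ?_)
    apply ball_subset
    simpa using hz
  have hsum : ∑ q ∈ H, ((2 : ℝ) ^ q.1.card / 2 ^ (y * q.1.card)) < 1 := by
    have hle : ∀ q ∈ H, q.1.card ∈ Finset.Ico M (M + (Fintype.card V + 1)) := by
      intro q hq
      rw [Finset.mem_Ico]
      have := Finset.card_le_univ q.1
      exact ⟨hMle q hq, by omega⟩
    rw [← Finset.sum_fiberwise_of_maps_to hle]
    have hterm : ∀ m ∈ Finset.Ico M (M + (Fintype.card V + 1)),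
        ∑ q ∈ H.filter (fun q => q.1.card = m), ((2 : ℝ) ^ q.1.card / 2 ^ (y * q.1.card)) ≤
          Fintype.card V * (1 / 2 : ℝ) ^ m := by
      intro m hm
      have hm1 : 1 ≤ m := hM.trans (Finset.mem_Ico.1 hm).1
      have h1 : ∑ q ∈ H.filter (fun q => q.1.card = m), ((2 : ℝ) ^ q.1.card / 2 ^ (y * q.1.card)) =
          ((H.filter (fun q => q.1.card = m)).card : ℝ) * ((2 : ℝ) ^ m / 2 ^ (y * m)) := by
        rw [Finset.sum_congr rfl (fun q hq => by rw [(Finset.mem_filter.1 hq).2]), Finset.sum_const, nsmul_eq_mul]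
      rw [h1]
      have h2 : ((H.filter (fun q => q.1.card = m)).card : ℝ) ≤ Fintype.card V * (2 * d) ^ (2 * m) * 2 ^ (d * m) := by
        have h3 := rand_count E d B M r0 hd1 hd m hm1
        have h4 : H.filter (fun q => q.1.card = m) = (Finset.univ : Finset (Finset V × Finset (V × V))).filter
            (fun q => randP E B M r0 q ∧ q.1.card = m) := by
          rw [hH, Finset.filter_filter]
        rw [h4]
        exact_mod_cast h3
      have h5 : ((2 * d : ℝ) ^ 2 * 2 ^ d * 4) ^ m ≤ 2 ^ (y * m) := by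
        rw [pow_mul]
        apply pow_le_pow_left₀ (by positivity)
        exact_mod_cast hy2
      have h6 : (2 : ℝ) ^ m / 2 ^ (y * m) ≤ 2 ^ m / ((2 * d : ℝ) ^ 2 * 2 ^ d * 4) ^ m := by
        apply div_le_div_of_nonneg_left (by positivity) _ h5
        have : (0 : ℝ) < d := by exact_mod_cast hd1
        positivity
      have hdpos : (0 : ℝ) < d := by exact_mod_cast hd1
      calc ((H.filter (fun q => q.1.card = m)).card : ℝ) * ((2 : ℝ) ^ m / 2 ^ (y * m)) ≤
          (Fintype.card V * (2 * d) ^ (2 * m) * 2 ^ (d * m)) * (2 ^ m / ((2 * d : ℝ) ^ 2 * 2 ^ d * 4) ^ m) := by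
            apply mul_le_mul h2 h6 (by positivity) (by positivity)
        _ = Fintype.card V * (1 / 2 : ℝ) ^ m := by
            have e1 : (4 : ℝ) ^ m = 2 ^ m * 2 ^ m := by
              rw [← mul_pow]; norm_num
            have e2 : ((2 * d : ℝ) ^ 2 * 2 ^ d * 4) ^ m = (2 * d) ^ (2 * m) * 2 ^ (d * m) * (2 ^ m * 2 ^ m) := by
              rw [← e1, pow_mul (2 * d : ℝ) 2 m, pow_mul (2 : ℝ) d m, mul_pow, mul_pow]
            rw [e2, div_pow, one_pow]
            field_simp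
    refine (Finset.sum_le_sum hterm).trans_lt ?_
    rw [← Finset.mul_sum]
    have h7 := geo_half M (Fintype.card V + 1)
    have h8 : (Fintype.card V : ℝ) < 2 ^ (M - 1) := by exact_mod_cast hV
    have h9 : (2 : ℝ) * (1 / 2) ^ M = 1 / 2 ^ (M - 1) := by
      obtain ⟨k, rfl⟩ : ∃ k, M = k + 1 := ⟨M - 1, by omega⟩
      rw [Nat.add_sub_cancel, pow_succ, one_div, inv_pow]
      ring
    have h10 : ∑ m ∈ Finset.Ico M (M + (Fintype.card V + 1)), ((1 : ℝ) / 2) ^ m ≤ 1 / 2 ^ (M - 1) := by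
      have : (0 : ℝ) ≤ 2 * (1 / 2) ^ (M + (Fintype.card V + 1)) := by positivity
      linarith
    calc (Fintype.card V : ℝ) * ∑ m ∈ Finset.Ico M (M + (Fintype.card V + 1)), ((1 : ℝ) / 2) ^ m ≤
        Fintype.card V * (1 / 2 ^ (M - 1)) := by
          apply mul_le_mul_of_nonneg_left h10 (by positivity)
      _ < 1 := by
          rw [mul_one_div, div_lt_one (by positivity)]
          exact h8
  have hCpos : (0 : ℝ) < (C : ℝ) ^ N := by
    have : (0 : ℝ) < C := by exact_mod_cast hC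
    positivity
  have hfin : (C : ℝ) ^ N ≤ (C : ℝ) ^ N * ∑ q ∈ H, ((2 : ℝ) ^ q.1.card / 2 ^ (y * q.1.card)) := by
    rw [Finset.mul_sum]
    exact hcard.trans (Finset.sum_le_sum hbad)
  have : (C : ℝ) ^ N * ∑ q ∈ H, ((2 : ℝ) ^ q.1.card / 2 ^ (y * q.1.card)) < (C : ℝ) ^ N * 1 :=
    mul_lt_mul_of_pos_left hsum hCpos
  linarith

end Pool.Agent.BoolWidth
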