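import Pool.Agent.Lib_MP_0cf6e1_b.Defs

/-!
# Piece SEEDS: seeds and forest
-/

set_option autoImplicit false

open scoped Classical

namespace Pool.Agent.BoolWidth

variable {V : Type} (A : V → V → Prop) (W : Finset V)

theorem seeds_adj_symm {u v : V} (h : Adj A u v) : Adj A v u := h.symm

theorem seeds_ball_succ (Z : Finset V) (r : ℕ) : ball A W Z (r + 1) =
    ball A W Z r ∪ W.filter (fun u => ∃ v ∈ ball A W Z r, Adj A u v) := rfl

theorem seeds_ball_subset {Z : Finset V} (hZ : Z ⊆ W) (r : ℕ) : ball A W Z r ⊆ W := by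
  induction r with
  | zero => exact hZ
  | succ r ih =>
    rw [seeds_ball_succ]
    exact Finset.union_subset ih (Finset.filter_subset _ _)

theorem seeds_ball_le (Z : Finset V) {r s : ℕ} (h : r ≤ s) : ball A W Z r ⊆ ball A W Z s := by
  induction s, h using Nat.le_induction with
  | base => exact Finset.Subset.refl _
  | succ s _ ih =>
    rw [seeds_ball_succ]
    exact ih.trans Finset.subset_union_left

theorem seeds_ball_add (Z : Finset V) (r s : ℕ) :
    ball A W (ball A W Z r) s = ball A W Z (r + s) := by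
  induction s with
  | zero => rfl
  | succ s ih => rw [seeds_ball_succ, ih, ← add_assoc, seeds_ball_succ]

theorem seeds_ball_mono {Z Z' : Finset V} (h : Z ⊆ Z') (r : ℕ) :
    ball A W Z r ⊆ ball A W Z' r := by
  induction r with
  | zero => exact h
  | succ r ih =>
    rw [seeds_ball_succ, seeds_ball_succ]
    refine Finset.union_subset_union ih ?_
    intro u hu
    rw [Finset.mem_filter] at hu ⊢
    obtain ⟨h1, v, h2, h3⟩ := hu
    exact ⟨h1, v, ih h2, h3⟩

theorem seeds_ball_symm {u w : V} (hu : u ∈ W) (r : ℕ) (h : w ∈ ball A W {u} r) :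
    u ∈ ball A W {w} r := by
  induction r generalizing w with
  | zero =>
    have h' : w = u := Finset.mem_singleton.1 h
    subst h'
    exact h
  | succ r ih =>
    rw [seeds_ball_succ, Finset.mem_union] at h
    rcases h with h | h
    · exact seeds_ball_le A W _ (Nat.le_succ r) (ih h)
    · rw [Finset.mem_filter] at h
      obtain ⟨h1, v, h2, h3⟩ := h
      have h4 := ih h2
      have h5 : v ∈ W := seeds_ball_subset A W (Finset.singleton_subset_iff.2 hu) r h2
      have h6 : v ∈ ball A W {w} 1 := by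
        show v ∈ ball A W {w} (0 + 1)
        rw [seeds_ball_succ, Finset.mem_union, Finset.mem_filter]
        exact Or.inr ⟨h5, w, Finset.mem_singleton_self w, seeds_adj_symm A h3⟩
      have h7 := seeds_ball_mono A W (Finset.singleton_subset_iff.2 h6) r h4
      rw [seeds_ball_add, add_comm 1 r] at h7
      exact h7

/-- Let `Z ⊆ W` be maximal such that the balls `ball A W {z} r`, `z ∈ Z`, are pairwise disjoint; they are subsets of `W`, so `M |Z| ≤ |W|`.
For `u ∈ W` the ball around `u` meets the ball around some `z ∈ Z` (possibly `z = u`), so `u ∈ ball A W {z} (2 r) ⊆ ball A W Z (2 r)`: use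
that `w ∈ ball {u} r` implies `u ∈ ball {w} r` for `u, w ∈ W`, and that `w ∈ ball {z} r`, `u ∈ ball {w} s` imply `u ∈ ball {z} (r + s)`. -/
theorem seeds (r M : ℕ) (hb : ∀ z ∈ W, M ≤ (ball A W {z} r).card) :
    ∃ Z ⊆ W, M * Z.card ≤ W.card ∧ ∀ u ∈ W, u ∈ ball A W Z (2 * r) := by
  set P : Finset V → Prop := fun Z => ∀ z ∈ Z, ∀ z' ∈ Z, z ≠ z' →
    Disjoint (ball A W {z} r) (ball A W {z'} r) with hP
  obtain ⟨Z, hZ, hmax⟩ := Finset.exists_max_image (W.powerset.filter P) Finset.card
    ⟨∅, Finset.mem_filter.2 ⟨Finset.empty_mem_powerset _, fun z hz => by simp at hz⟩⟩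
  rw [Finset.mem_filter, Finset.mem_powerset] at hZ
  obtain ⟨hZW, hZP⟩ := hZ
  refine ⟨Z, hZW, ?_, fun u hu => ?_⟩
  · have h1 : (Z.biUnion fun z => ball A W {z} r).card = ∑ z ∈ Z, (ball A W {z} r).card :=
      Finset.card_biUnion (fun z hz z' hz' hne => hZP z hz z' hz' hne)
    have h2 : (Z.biUnion fun z => ball A W {z} r) ⊆ W := by
      rw [Finset.biUnion_subset]
      intro z hz
      exact seeds_ball_subset A W (Finset.singleton_subset_iff.2 (hZW hz)) r
    calc M * Z.card = ∑ _z ∈ Z, M := by rw [Finset.sum_const, smul_eq_mul, mul_comm]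
      _ ≤ ∑ z ∈ Z, (ball A W {z} r).card := Finset.sum_le_sum fun z hz => hb z (hZW hz)
      _ = (Z.biUnion fun z => ball A W {z} r).card := h1.symm
      _ ≤ W.card := Finset.card_le_card h2
  · by_cases huZ : u ∈ Z
    · exact seeds_ball_le A W Z (Nat.zero_le _) huZ
    · have h3 : ∃ z ∈ Z, ¬ Disjoint (ball A W {u} r) (ball A W {z} r) := by
        by_contra hcon
        push Not at hcon
        have h4 : insert u Z ∈ W.powerset.filter P := by
          rw [Finset.mem_filter, Finset.mem_powerset]
          refine ⟨Finset.insert_subset hu hZW, ?_⟩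
          intro z hz z' hz' hne
          rw [Finset.mem_insert] at hz hz'
          rcases hz with rfl | hz
          · rcases hz' with rfl | hz'
            · exact absurd rfl hne
            · exact hcon z' hz'
          · rcases hz' with rfl | hz'
            · exact (hcon z hz).symm
            · exact hZP z hz z' hz' hne
        have h5 := hmax _ h4
        rw [Finset.card_insert_of_notMem huZ] at h5
        omega
      obtain ⟨z, hz, hnd⟩ := h3
      rw [Finset.not_disjoint_iff] at hnd
      obtain ⟨w, hw1, hw2⟩ := hnd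
      have h6 := seeds_ball_symm A W hu r hw1
      have h7 := seeds_ball_mono A W (Finset.singleton_subset_iff.2 hw2) r h6
      rw [seeds_ball_add] at h7
      have h8 := seeds_ball_mono A W (Finset.singleton_subset_iff.2 hz) (r + r) h7
      rw [two_mul]
      exact h8

/-- `dep u` = least `i` with `u ∈ ball A W Z i` -/
theorem forest (Z : Finset V) (hZ : Z ⊆ W) (n : ℕ) (h : ∀ u ∈ W, u ∈ ball A W Z n) :
    ∃ (dep : V → ℕ) (par : V → V), ∀ u ∈ W, dep u ≤ n ∧ (dep u = 0 ↔ u ∈ Z) ∧
      (dep u ≠ 0 → par u ∈ W ∧ dep (par u) + 1 = dep u ∧ Adj A (par u) u) := by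
  set dep : V → ℕ := fun u => if h : ∃ i, u ∈ ball A W Z i then Nat.find h else 0 with hdep
  have hex : ∀ u ∈ W, ∃ i, u ∈ ball A W Z i := fun u hu => ⟨n, h u hu⟩
  have hd1 : ∀ u ∈ W, u ∈ ball A W Z (dep u) := by
    intro u hu
    simp only [hdep]
    rw [dif_pos (hex u hu)]
    exact Nat.find_spec (hex u hu)
  have hd2 : ∀ u ∈ W, ∀ i, u ∈ ball A W Z i → dep u ≤ i := by
    intro u hu i hi
    simp only [hdep]
    rw [dif_pos (hex u hu)]
    exact Nat.find_min' (hex u hu) hi
  have hpar : ∀ u ∈ W, dep u ≠ 0 → ∃ v, v ∈ W ∧ dep v + 1 = dep u ∧ Adj A v u := by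
    intro u hu h0
    obtain ⟨i, hi⟩ := Nat.exists_eq_succ_of_ne_zero h0
    have h1 := hd1 u hu
    rw [hi] at h1
    have h1' : u ∈ ball A W Z (i + 1) := h1
    rw [seeds_ball_succ, Finset.mem_union] at h1'
    rcases h1' with h2 | h2
    · have := hd2 u hu i h2
      omega
    · rw [Finset.mem_filter] at h2
      obtain ⟨_, v, h3, h4⟩ := h2
      have hv : v ∈ W := seeds_ball_subset A W hZ i h3
      refine ⟨v, hv, ?_, seeds_adj_symm A h4⟩
      have h5 := hd2 v hv i h3
      have h6 : u ∈ ball A W Z (dep v + 1) := by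
        rw [seeds_ball_succ, Finset.mem_union, Finset.mem_filter]
        exact Or.inr ⟨hu, v, hd1 v hv, h4⟩
      have h7 := hd2 u hu _ h6
      omega
  refine ⟨dep, fun u => if hp : ∃ v, v ∈ W ∧ dep v + 1 = dep u ∧ Adj A v u then hp.choose else u,
    fun u hu => ⟨hd2 u hu n (h u hu), ?_, fun h0 => ?_⟩⟩
  · constructor
    · intro h0
      have := hd1 u hu
      rw [h0] at this
      exact this
    · intro huZ
      have := hd2 u hu 0 huZ
      omega
  · have hp := hpar u hu h0
    simp only [dif_pos hp]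
    exact hp.choose_spec

end Pool.Agent.BoolWidth
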