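import Pool.Agent.Lib_MP_0cf6e1_b.Defs

/-!
# Piece THR: threshold lemma (discrete coarea formula)
-/

set_option autoImplicit false

open scoped Classical

namespace Pool.Agent.BoolWidth

variable {ι : Type} [Fintype ι]

/-- indicator of `[0, a)` -/
private noncomputable def thrI (a s : ℝ) : ℝ := Set.indicator (Set.Ico 0 a) (fun _ => (1 : ℝ)) s

private lemma thrI_int {a : ℝ} (ha : 0 ≤ a) : ∫ s, thrI a s = a := by
  unfold thrI
  rw [MeasureTheory.integral_indicator_const (1 : ℝ) measurableSet_Ico,
    Real.volume_real_Ico_of_le ha]
  simp

private lemma thrI_integrable (a : ℝ) : MeasureTheory.Integrable (thrI a) := by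
  unfold thrI
  rw [MeasureTheory.integrable_indicator_iff measurableSet_Ico]
  exact MeasureTheory.integrableOn_const (by simp) (by simp)

private lemma thrI_of_nonneg {a s : ℝ} (hs : 0 ≤ s) : thrI a s = if s < a then 1 else 0 := by
  unfold thrI
  rw [Set.indicator_apply]
  exact if_congr (by simp [hs]) rfl rfl

private lemma thrI_of_neg {a s : ℝ} (hs : s < 0) : thrI a s = 0 := by
  unfold thrI
  rw [Set.indicator_apply, if_neg]
  simp [not_le.2 hs]

/-- By strong induction on the number of `i` with `f i > 0`. If it is `0`, all is `0`, contradiction. Otherwise let `m > 0` be the least positive value, `f' = max (f - m) 0`: then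
`f = m 1_{f > 0} + f'`, `min (f i) (f j) = m 1_{f i > 0} 1_{f j > 0} + min (f' i) (f' j)` and `{f' > s} = {f > s + m}` for `s ≥ 0`. If the conclusion fails for `s = 0` and (induction) for `f'`, then
adding `m` times the first to the second inequality contradicts `h`. -/
theorem threshold (b : ι → ι → ℝ) (c f : ι → ℝ) (hf : ∀ i, 0 ≤ f i)
    (h : ∑ i, c i * f i < ∑ i, ∑ j, b i j * min (f i) (f j)) :
    ∃ s : ℝ, 0 ≤ s ∧ ∑ i ∈ Finset.univ.filter (fun i => s < f i), c i <
      ∑ i ∈ Finset.univ.filter (fun i => s < f i), ∑ j ∈ Finset.univ.filter (fun i => s < f i), b i j := by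
  by_contra hcon
  push Not at hcon
  have key : ∫ s, ((∑ i, ∑ j, b i j * thrI (min (f i) (f j)) s) - ∑ i, c i * thrI (f i) s) =
      (∑ i, ∑ j, b i j * min (f i) (f j)) - ∑ i, c i * f i := by
    rw [MeasureTheory.integral_sub]
    · congr 1
      · rw [MeasureTheory.integral_finsetSum]
        · refine Finset.sum_congr rfl fun i _ => ?_
          rw [MeasureTheory.integral_finsetSum]
          · refine Finset.sum_congr rfl fun j _ => ?_
            rw [MeasureTheory.integral_const_mul, thrI_int (le_min (hf i) (hf j))]
          · exact fun j _ => (thrI_integrable _).const_mul _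
        · exact fun i _ => MeasureTheory.integrable_finsetSum _
            fun j _ => (thrI_integrable _).const_mul _
      · rw [MeasureTheory.integral_finsetSum]
        · refine Finset.sum_congr rfl fun i _ => ?_
          rw [MeasureTheory.integral_const_mul, thrI_int (hf i)]
        · exact fun i _ => (thrI_integrable _).const_mul _
    · exact MeasureTheory.integrable_finsetSum _ fun i _ =>
        MeasureTheory.integrable_finsetSum _ fun j _ => (thrI_integrable _).const_mul _
    · exact MeasureTheory.integrable_finsetSum _ fun i _ => (thrI_integrable _).const_mul _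
  have hle : ∫ s, ((∑ i, ∑ j, b i j * thrI (min (f i) (f j)) s) - ∑ i, c i * thrI (f i) s) ≤ 0 := by
    refine MeasureTheory.integral_nonpos fun s => ?_
    rcases lt_or_ge s 0 with hs | hs
    · simp [thrI_of_neg hs]
    · have h1 := hcon s hs
      have e1 : ∑ i, c i * thrI (f i) s = ∑ i ∈ Finset.univ.filter (fun i => s < f i), c i := by
        rw [Finset.sum_filter]
        refine Finset.sum_congr rfl fun i _ => ?_
        rw [thrI_of_nonneg hs, mul_ite, mul_one, mul_zero]
      have e2 : ∑ i, ∑ j, b i j * thrI (min (f i) (f j)) s =
          ∑ i ∈ Finset.univ.filter (fun i => s < f i),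
            ∑ j ∈ Finset.univ.filter (fun i => s < f i), b i j := by
        rw [Finset.sum_filter]
        refine Finset.sum_congr rfl fun i _ => ?_
        by_cases hi : s < f i
        · rw [if_pos hi, Finset.sum_filter]
          refine Finset.sum_congr rfl fun j _ => ?_
          rw [thrI_of_nonneg hs, mul_ite, mul_one, mul_zero]
          exact if_congr (by simp [hi]) rfl rfl
        · rw [if_neg hi]
          refine Finset.sum_eq_zero fun j _ => ?_
          rw [thrI_of_nonneg hs, if_neg (by simp [hi]), mul_zero]
      show (∑ i, ∑ j, b i j * thrI (min (f i) (f j)) s) - ∑ i, c i * thrI (f i) s ≤ 0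
      rw [e1, e2]
      linarith
  rw [key] at hle
  linarith

end Pool.Agent.BoolWidth
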