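import Pool.Agent.Lib_MP_0cf6e1_b.Uniq

/-!
# Piece TREE: small balls are trees
-/

set_option autoImplicit false

open scoped Classical

namespace Pool.Agent.BoolWidth

variable {V : Type} {E A : V → V → Prop} {g : ℕ}

/-- extension of a walk without backtracking by one step -/
lemma tree_ext {c : ℕ → V} {d : ℕ} (hc : RW E c d) {v : V} (hadj : Adj E (c d) v)
    (hne : ¬ (1 ≤ d ∧ c (d - 1) = v)) : RW E (fun i => if i ≤ d then c i else v) (d + 1) := by
  refine ⟨?_, ?_⟩
  · intro i hi
    rcases Nat.lt_or_ge i d with h | h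
    · have h1 : i ≤ d := h.le
      have h2 : i + 1 ≤ d := h
      simp only [if_pos h1, if_pos h2]
      exact hc.1 i h
    · have h1 : i = d := by omega
      subst h1
      simp only [le_refl, if_true, show ¬ (i + 1 ≤ i) by omega, if_false]
      exact hadj
  · intro i hi
    rcases Nat.lt_or_ge (i + 1) d with h | h
    · have h1 : i ≤ d := by omega
      have h2 : i + 2 ≤ d := h
      simp only [if_pos h1, if_pos h2]
      exact hc.2 i h2
    · have h1 : i + 1 = d := by omega
      have h2 : i ≤ d := by omega
      have h3 : ¬ (i + 2 ≤ d) := by omega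
      simp only [if_pos h2, if_neg h3]
      intro h4
      apply hne
      refine ⟨by omega, ?_⟩
      rw [show d - 1 = i by omega]
      exact h4

lemma tree_walk (hA : ∀ u v, A u v → E u v) (W : Finset V) (z : V) (r : ℕ) :
    ∀ u ∈ ball A W {z} r, ∃ (d : ℕ) (c : ℕ → V), d ≤ r ∧ c 0 = z ∧ c d = u ∧ RW E c d := by
  induction r with
  | zero =>
    intro u hu
    have hu' : u = z := by simpa [ball] using hu
    exact ⟨0, fun _ => z, le_refl _, rfl, hu'.symm, ⟨fun i hi => absurd hi (by omega),
      fun i hi => absurd hi (by omega)⟩⟩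
  | succ r ih =>
    intro u hu
    rw [ball, Finset.mem_union, Finset.mem_filter] at hu
    rcases hu with hu | ⟨_, v, hv, huv⟩
    · obtain ⟨d, c, h1, h2⟩ := ih u hu
      exact ⟨d, c, by omega, h2⟩
    · obtain ⟨d, c, h1, h2, h3, h4⟩ := ih v hv
      have hadj : Adj E (c d) u := by
        rw [h3]
        rcases huv with h | h
        · exact Or.inr (hA _ _ h)
        · exact Or.inl (hA _ _ h)
      by_cases hback : 1 ≤ d ∧ c (d - 1) = u
      · refine ⟨d - 1, c, by omega, h2, hback.2, ?_, ?_⟩
        · intro i hi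
          exact h4.1 i (by omega)
        · intro i hi
          exact h4.2 i (by omega)
      · refine ⟨d + 1, fun i => if i ≤ d then c i else u, by omega, ?_, ?_, tree_ext h4 hadj hback⟩
        · simp [h2]
        · simp

/-- `ball A W {z} d` increases with `d`. For `u` in the ball let `d u` be the least `d ≤ r` with `u ∈ ball A W {z} d`; there is a walk `c_u` of
length `d u` from `z` to `u` with `d (c_u i) = i`, so without backtracking. Let `par u = c_u (d u - 1)` for `u ≠ z`. If `A u v` (or `A v u`) with `u, v` in the ball, then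
`par u = v` or `par v = u`: if `par u ≠ v` (or `u = z`) then `c_u` followed by `v` is a walk without backtracking from `z` to `v` of length `d u + 1`,
and with `c_v` (total length `≤ 2 r + 1 ≤ g`) `uniq` gives `d v = d u + 1`, `par v = u`. So every arc of `A` inside the ball is
`(par x, x)` or `(x, par x)` for some `x ≠ z` of the ball, and only one of these is an arc (`Asym`); the arcs inject into `ball \ {z}`. -/
theorem ball_edges (hA : ∀ u v, A u v → E u v) (ha : Asym E) (hg : Gir E g) (W : Finset V) (z : V) (hz : z ∈ W) (r : ℕ)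
    (hr : 2 * r + 1 ≤ g) : eIn A (ball A W {z} r) < (ball A W {z} r).card := by
  set U := ball A W {z} r with hU
  have hex := tree_walk (E := E) hA W z r
  rw [← hU] at hex
  have hzU : z ∈ U := by
    have : ∀ k, z ∈ ball A W {z} k := by
      intro k
      induction k with
      | zero => simp [ball]
      | succ k ih => rw [ball]; exact Finset.mem_union_left _ ih
    exact this r
  choose! d c hd hc0 hcd hcR using hex
  -- an arc inside the ball is a parent pair
  have key : ∀ u ∈ U, ∀ v ∈ U, Adj E u v → (1 ≤ d u ∧ c u (d u - 1) = v) ∨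
      (1 ≤ d v ∧ c v (d v - 1) = u) := by
    intro u hu v hv huv
    by_cases h : 1 ≤ d u ∧ c u (d u - 1) = v
    · exact Or.inl h
    · right
      have h1 := tree_ext (hcR u hu) (v := v) (by rw [hcd u hu]; exact huv) h
      have h2 := hd u hu
      have h3 := hd v hv
      have h4 := uniq hg _ (c v) (d u + 1) (d v) (by omega) h1 (hcR v hv)
        (by simp [hc0 u hu, hc0 v hv]) (by simp [hcd v hv])
      refine ⟨by omega, ?_⟩
      have h5 := h4.2 (d u) (by omega)
      simp only [le_refl, if_true] at h5
      rw [show d v - 1 = d u by omega, ← h5, hcd u hu]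
  have hnz : ∀ u ∈ U, 1 ≤ d u → u ≠ z := by
    intro u hu h1 h2
    have h3 := hd u hu
    exact hg (c u) (d u) h1 (by omega) (hcR u hu) (by rw [hc0 u hu, hcd u hu, h2])
  have hcard : eIn A U ≤ (U.erase z).card := by
    unfold eIn
    apply Finset.card_le_card_of_injOn
      (fun p : V × V => if 1 ≤ d p.1 ∧ c p.1 (d p.1 - 1) = p.2 then p.1 else p.2)
    · intro p hp
      rw [Finset.mem_coe, Finset.mem_filter, Finset.mem_product] at hp
      obtain ⟨⟨hp1, hp2⟩, hpA⟩ := hp
      rw [Finset.mem_coe, Finset.mem_erase]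
      by_cases h : 1 ≤ d p.1 ∧ c p.1 (d p.1 - 1) = p.2
      · simp only [if_pos h]
        exact ⟨hnz _ hp1 h.1, hp1⟩
      · simp only [if_neg h]
        have h2 := (key _ hp1 _ hp2 (Or.inl (hA _ _ hpA))).resolve_left h
        exact ⟨hnz _ hp2 h2.1, hp2⟩
    · intro p hp q hq hpq
      rw [Finset.mem_coe, Finset.mem_filter, Finset.mem_product] at hp hq
      obtain ⟨⟨hp1, hp2⟩, hpA⟩ := hp
      obtain ⟨⟨hq1, hq2⟩, hqA⟩ := hq
      have hpE := hA _ _ hpA
      have hqE := hA _ _ hqA
      by_cases h : 1 ≤ d p.1 ∧ c p.1 (d p.1 - 1) = p.2 <;>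
        by_cases h' : 1 ≤ d q.1 ∧ c q.1 (d q.1 - 1) = q.2
      · simp only [if_pos h, if_pos h'] at hpq
        have h3 : p.2 = q.2 := by rw [← h.2, ← h'.2, hpq]
        exact Prod.ext hpq h3
      · simp only [if_pos h, if_neg h'] at hpq
        have h2 := (key _ hq1 _ hq2 (Or.inl hqE)).resolve_left h'
        have h3 : p.2 = q.1 := by rw [← h.2, ← h2.2, hpq]
        rw [hpq, h3] at hpE
        exact absurd hqE (ha _ _ hpE)
      · simp only [if_neg h, if_pos h'] at hpq
        have h2 := (key _ hp1 _ hp2 (Or.inl hpE)).resolve_left h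
        have h3 : q.2 = p.1 := by rw [← h'.2, ← h2.2, hpq]
        rw [← hpq, h3] at hqE
        exact absurd hqE (ha _ _ hpE)
      · simp only [if_neg h, if_neg h'] at hpq
        have h2 := (key _ hp1 _ hp2 (Or.inl hpE)).resolve_left h
        have h2' := (key _ hq1 _ hq2 (Or.inl hqE)).resolve_left h'
        have h3 : p.1 = q.1 := by rw [← h2.2, ← h2'.2, hpq]
        exact Prod.ext h3 hpq
  have h1 := Finset.card_erase_lt_of_mem hzU
  omega

end Pool.Agent.BoolWidth
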