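import Pool.Agent.Lib_MP_0cf6e1_b.Defs

/-!
# Piece UNIQ: walks without backtracking with the same ends
-/

set_option autoImplicit false

open scoped Classical

namespace Pool.Agent.BoolWidth

variable {V : Type} {E : V → V → Prop} {g : ℕ}

private theorem uniq_adj_symm {u v : V} (h : Adj E u v) : Adj E v u := Or.symm h

private theorem uniq_aux (h : Gir E g) (c c' : ℕ → V) (n : ℕ) :
    ∀ a b : ℕ, a + b = n → n ≤ g → RW E c a → RW E c' b →
    c 0 = c' 0 → c a = c' b → a = b ∧ ∀ i ≤ a, c i = c' i := by
  induction n using Nat.strong_induction_on with
  | _ n ih =>
    intro a b hab hn hc hc' h0 h1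
    rcases Nat.eq_zero_or_pos a with ha | ha
    · subst ha
      rcases Nat.eq_zero_or_pos b with hb | hb
      · subst hb
        refine ⟨rfl, fun i hi => ?_⟩
        have : i = 0 := by omega
        subst this
        exact h0
      · exact absurd (h0.symm.trans h1) (h c' b hb (by omega) hc')
    · rcases Nat.eq_zero_or_pos b with hb | hb
      · subst hb
        exact absurd (h0.trans h1.symm) (h c a ha (by omega) hc)
      · by_cases hx : c (a - 1) = c' (b - 1)
        · obtain ⟨h2, h3⟩ := ih (a - 1 + (b - 1)) (by omega) (a - 1) (b - 1) rfl (by omega)
            ⟨fun i hi => hc.1 i (by omega), fun i hi => hc.2 i (by omega)⟩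
            ⟨fun i hi => hc'.1 i (by omega), fun i hi => hc'.2 i (by omega)⟩ h0 hx
          have hab' : a = b := by omega
          refine ⟨hab', fun i hi => ?_⟩
          by_cases hi' : i ≤ a - 1
          · exact h3 i hi'
          · have : i = a := by omega
            subst this
            rw [h1, hab']
        · exfalso
          let d : ℕ → V := fun i => if i ≤ a then c i else c' (a + b - i)
          have d1 : ∀ i, i ≤ a → d i = c i := fun i hi => by simp [d, hi]
          have d2 : ∀ i, a ≤ i → d i = c' (a + b - i) := fun i hi => by
            rcases Nat.lt_or_ge a i with h | h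
            · have : ¬ i ≤ a := by omega
              simp [d, this]
            · have : i = a := by omega
              subst this
              rw [d1 i le_rfl, h1]
              congr 1
              omega
          have hrw : RW E d (a + b) := by
            refine ⟨fun i hi => ?_, fun i hi => ?_⟩
            · by_cases hi' : i + 1 ≤ a
              · rw [d1 i (by omega), d1 (i + 1) hi']
                exact hc.1 i (by omega)
              · rw [d2 i (by omega), d2 (i + 1) (by omega)]
                have := hc'.1 (a + b - (i + 1)) (by omega)
                have e : a + b - (i + 1) + 1 = a + b - i := by omega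
                rw [e] at this
                exact uniq_adj_symm this
            · by_cases hi' : i + 2 ≤ a
              · rw [d1 i (by omega), d1 (i + 2) hi']
                exact hc.2 i (by omega)
              · by_cases hi2 : i + 1 = a
                · rw [d1 i (by omega), d2 (i + 2) (by omega)]
                  have e1 : i = a - 1 := by omega
                  have e2 : a + b - (i + 2) = b - 1 := by omega
                  rw [e2, e1]
                  exact hx
                · rw [d2 i (by omega), d2 (i + 2) (by omega)]
                  have := hc'.2 (a + b - (i + 2)) (by omega)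
                  have e : a + b - (i + 2) + 2 = a + b - i := by omega
                  rw [e] at this
                  exact fun hh => this hh.symm
          refine h d (a + b) (by omega) (by omega) hrw ?_
          rw [d1 0 (by omega), d2 (a + b) (by omega), Nat.sub_self]
          exact h0

/-- Induction on `a + b`. If `a = 0`, `b ≥ 1` then `c'` is closed, contradiction with `Gir` (same for `b = 0`). If `a, b ≥ 1` and
`c (a-1) = c' (b-1)` use the induction hypothesis. Otherwise `c 0, …, c a = c' b, c' (b-1), …, c' 0` is a closed walk without
backtracking of length `a + b ≤ g`, contradiction. -/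
theorem uniq (h : Gir E g) (c c' : ℕ → V) (a b : ℕ) (hab : a + b ≤ g) (hc : RW E c a) (hc' : RW E c' b)
    (h0 : c 0 = c' 0) (h1 : c a = c' b) : a = b ∧ ∀ i ≤ a, c i = c' i :=
  uniq_aux h c c' (a + b) a b rfl hab hc hc' h0 h1

end Pool.Agent.BoolWidth
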